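import Pool.Agent.W387.Sys

/-!
The lower bound for the Dehn function.
-/

set_option autoImplicit false

namespace Pool.Agent.W387

/-! ### Weights -/

/-- the golden ratio -/
noncomputable def mu : ℝ := (1 + Real.sqrt 5) / 2

theorem mu_sq : mu * mu = mu + 1 := by
  unfold mu
  have h : Real.sqrt 5 * Real.sqrt 5 = 5 := Real.mul_self_sqrt (by norm_num)
  nlinarith

theorem mu_gt : 3 / 2 < mu := by
  unfold mu
  have h : (2 : ℝ) < Real.sqrt 5 := by
    rw [Real.lt_sqrt (by norm_num)]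
    norm_num
  linarith

theorem mu_lt : mu < 2 := by
  unfold mu
  have h : Real.sqrt 5 < 3 := by
    rw [Real.sqrt_lt' (by norm_num)]
    norm_num
  linarith

theorem mu_pos : 0 < mu := by
  have := mu_gt
  linarith

theorem mu_ne : mu ≠ 0 := mu_pos.ne'

theorem mu_inv : mu⁻¹ = mu - 1 := by
  have h := mu_sq
  have h2 := mu_ne
  field_simp
  linarith

/-- the value of a pair -/
noncomputable def val (p : ℤ × ℤ) : ℝ := p.1 + p.2 * mu

/-- the weights -/
def wz : Fin 13 → ℤ × ℤ :=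
  ![(0, 0), (1, 0), (0, 1), (-1, -1), (1, 0), (-1, -1), (1, 2), (0, 0), (-2, -2), (0, 0), (0, 0),
    (0, 0), (0, 0)]

/-- multiplication by the eigenvalue -/
def mulg (g : Fin 4) (p : ℤ × ℤ) : ℤ × ℤ :=
  if g = 0 ∨ g = 2 then (p.2, p.1 + p.2) else (p.2 - p.1, p.1)

/-- the eigenvalue -/
noncomputable def eig (g : Fin 4) : ℝ := if g = 0 ∨ g = 2 then mu else mu⁻¹

theorem val_mulg (g : Fin 4) (p : ℤ × ℤ) : val (mulg g p) = eig g * val p := by
  unfold mulg eig val
  have h := mu_sq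
  split_ifs
  · push_cast
    linear_combination (-(p.2 : ℝ)) * h
  · rw [mu_inv]
    push_cast
    linear_combination (-(p.2 : ℝ)) * h

theorem val_add (p q : ℤ × ℤ) : val (p + q) = val p + val q := by
  unfold val
  simp only [Prod.fst_add, Prod.snd_add]
  push_cast
  ring

theorem val_neg (p : ℤ × ℤ) : val (-p) = -val p := by
  unfold val
  simp only [Prod.fst_neg, Prod.snd_neg]
  push_cast
  ring

theorem val_nsmul (n : ℕ) (p : ℤ × ℤ) : val (n • p) = n * val p := by
  unfold val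
  rw [Prod.smul_fst, Prod.smul_snd, nsmul_eq_mul, nsmul_eq_mul]
  push_cast
  ring

/-- sum of weights of a polygon -/
def wp (p : Poly) : ℤ × ℤ := wz p.al + wz p.be + glen p.g • wz p.c + wz p.be' + wz p.al'

theorem wz_poly : ∀ k : Fin 12, mulg (poly k).g (wz (poly k).j) =
    if (poly k).sg then wp (poly k) else -wp (poly k) := by
  decide +kernel

theorem wz_polyL (p : Poly) (hp : p ∈ polyL) : mulg p.g (wz p.j) =
    if p.sg then wp p else -wp p := by
  obtain ⟨k, hk, rfl⟩ := List.mem_iff_getElem.mp hp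
  have hk' : k < 12 := by simpa [polyL] using hk
  exact wz_poly ⟨k, hk'⟩

theorem wz_def : ∀ d ∈ defL, wz d.1 + wz d.2.1 + wz d.2.2.1 + wz d.2.2.2 = 0 := by
  intro d hd
  simp only [defL, List.mem_cons, List.not_mem_nil, or_false] at hd
  rcases hd with rfl | rfl | rfl | rfl | rfl | rfl | rfl <;> decide +kernel

/-! ### The representation -/

/-- sequences -/
abbrev Sq : Type := ℤ → ℝ

/-- translations -/
noncomputable def Tr (w : ℝ) : Equiv.Perm Sq where
  toFun := fun f i => f i + if i = 0 then w else 0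
  invFun := fun f i => f i - if i = 0 then w else 0
  left_inv := fun f => by funext i; simp
  right_inv := fun f => by funext i; simp

theorem Tr_apply (w : ℝ) (f : Sq) (i : ℤ) : Tr w f i = f i + if i = 0 then w else 0 := rfl

theorem Tr_add (a b : ℝ) : Tr a * Tr b = Tr (a + b) := by
  ext f i
  rw [Equiv.Perm.mul_apply, Tr_apply, Tr_apply, Tr_apply]
  split_ifs <;> ring

theorem Tr_zero : Tr 0 = 1 := by
  ext f i
  rw [Tr_apply]
  simp

theorem Tr_neg (a : ℝ) : Tr (-a) = (Tr a)⁻¹ := by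
  rw [eq_inv_iff_mul_eq_one, Tr_add, neg_add_cancel, Tr_zero]

theorem Tr_pow (a : ℝ) (n : ℕ) : Tr a ^ n = Tr (n * a) := by
  induction n with
  | zero => simp [Tr_zero]
  | succ n ih =>
    rw [pow_succ, ih, Tr_add]
    congr 1
    push_cast
    ring

theorem Tr_inj {a b : ℝ} (h : Tr a = Tr b) : a = b := by
  have h1 := congrArg (fun p : Equiv.Perm Sq => p 0 0) h
  simpa [Tr_apply] using h1

/-- the shift `u` -/
noncomputable def PU : Equiv.Perm Sq where
  toFun := fun f i => f (i - 1)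
  invFun := fun f i => f (i + 1)
  left_inv := fun f => by funext i; simp
  right_inv := fun f => by funext i; simp

/-- the weighted shift `v` -/
noncomputable def PV : Equiv.Perm Sq where
  toFun := fun f i => mu⁻¹ * f (i - 1)
  invFun := fun f i => mu * f (i + 1)
  left_inv := fun f => by funext i; simp [mu_ne]
  right_inv := fun f => by funext i; simp [mu_ne]

/-- the weighted shift `s` -/
noncomputable def PS : Equiv.Perm Sq where
  toFun := fun f i => mu ^ (i + 1) * f (i - 1)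
  invFun := fun f i => mu ^ (-(i + 2)) * f (i + 1)
  left_inv := fun f => by
    funext i
    show mu ^ (-(i + 2)) * (mu ^ (i + 1 + 1) * f (i + 1 - 1)) = f i
    rw [← mul_assoc, ← zpow_add₀ mu_ne]
    simp only [add_sub_cancel_right]
    have : -(i + 2) + (i + 1 + 1) = 0 := by ring
    rw [this, zpow_zero, one_mul]
  right_inv := fun f => by
    funext i
    show mu ^ (i + 1) * (mu ^ (-(i - 1 + 2)) * f (i - 1 + 1)) = f i
    rw [← mul_assoc, ← zpow_add₀ mu_ne]
    simp only [sub_add_cancel]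
    have : i + 1 + -(i - 1 + 2) = 0 := by ring
    rw [this, zpow_zero, one_mul]

theorem PU_apply (f : Sq) (i : ℤ) : PU f i = f (i - 1) := rfl
theorem PV_apply (f : Sq) (i : ℤ) : PV f i = mu⁻¹ * f (i - 1) := rfl
theorem PS_apply (f : Sq) (i : ℤ) : PS f i = mu ^ (i + 1) * f (i - 1) := rfl
theorem PU_inv_apply (f : Sq) (i : ℤ) : PU⁻¹ f i = f (i + 1) := rfl
theorem PS_inv_apply (f : Sq) (i : ℤ) : PS⁻¹ f i = mu ^ (-(i + 2)) * f (i + 1) := rfl

/-- the images of the generators -/
noncomputable def pf : Fin 13 → Equiv.Perm Sq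
  | 10 => PU
  | 11 => PV
  | 12 => PS
  | i => Tr (val (wz i))

theorem pf_10 : pf 10 = PU := rfl
theorem pf_11 : pf 11 = PV := rfl
theorem pf_12 : pf 12 = PS := rfl

theorem pf_lt {i : Fin 13} (h : i.val < 10) : pf i = Tr (val (wz i)) := by
  unfold pf
  split
  · exact absurd h (by decide)
  · exact absurd h (by decide)
  · exact absurd h (by decide)
  · rfl

/-- diagonal maps conjugate translations to translations -/
theorem diag_conj (P : Equiv.Perm Sq) (c : ℤ → ℝ) (hP : ∀ f i, P f i = c i * f i) (w : ℝ) :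
    P * Tr w * P⁻¹ = Tr (c 0 * w) := by
  rw [mul_inv_eq_iff_eq_mul]
  ext f i
  rw [Equiv.Perm.mul_apply, Equiv.Perm.mul_apply, hP, Tr_apply, Tr_apply, hP]
  split_ifs with h
  · subst h
    ring
  · ring

theorem gv_diag (g : Fin 4) : ∃ c : ℤ → ℝ, c 0 = eig g ∧ ∀ f i, gv pf g f i = c i * f i := by
  fin_cases g
  · refine ⟨fun i => mu ^ (i + 1), by simp [eig], ?_⟩
    intro f i
    show gv pf 0 f i = _
    rw [gv_zero, pf_10, pf_12, Equiv.Perm.mul_apply, PS_apply, PU_inv_apply]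
    simp
  · refine ⟨fun i => mu ^ (-(i + 1)), by simp [eig], ?_⟩
    intro f i
    show gv pf 1 f i = _
    rw [gv_one, pf_10, pf_12, Equiv.Perm.mul_apply, PU_apply, PS_inv_apply]
    simp only [sub_add_cancel]
    congr 2
    ring
  · refine ⟨fun i => mu ^ (2 * i + 1), by simp [eig], ?_⟩
    intro f i
    show gv pf 2 f i = _
    rw [gv_two, pf_10, pf_12]
    simp only [Equiv.Perm.mul_apply]
    rw [PS_apply, PS_apply, PU_inv_apply, PU_inv_apply, ← mul_assoc, ← zpow_add₀ mu_ne]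
    congr 2
    · ring
    · ring
  · refine ⟨fun i => mu ^ (-(2 * i + 1)), by simp [eig], ?_⟩
    intro f i
    show gv pf 3 f i = _
    rw [gv_three, pf_10, pf_12]
    simp only [Equiv.Perm.mul_apply]
    rw [PU_apply, PU_apply, PS_inv_apply, PS_inv_apply, ← mul_assoc, ← zpow_add₀ mu_ne]
    congr 2
    · ring
    · ring

theorem pf_rels : Rels pf where
  uv := by
    rw [pf_10, pf_11]
    ext f i
    simp only [Equiv.Perm.mul_apply]
    rw [PU_apply, PV_apply, PV_apply, PU_apply]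
  us := by
    rw [pf_10, pf_11, pf_12]
    ext f i
    simp only [Equiv.Perm.mul_apply]
    rw [PU_apply, PS_apply, PS_apply, PV_apply, ← mul_assoc, ← zpow_sub_one₀ mu_ne]
    congr 2
    ring
  defs := by
    intro d hd
    obtain ⟨k1, k2, k3, k4⟩ := defL_lt d hd
    rw [pf_lt k1, pf_lt k2, pf_lt k3, pf_lt k4, Tr_add, Tr_add, Tr_add, ← val_add, ← val_add,
      ← val_add, wz_def d hd]
    have : val 0 = 0 := by simp [val]
    rw [this, Tr_zero]
  polys := by
    intro p hp
    obtain ⟨k1, k2, k3, k4, k5, k6⟩ := polyL_lt p hp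
    unfold PRel
    obtain ⟨c, hc, hP⟩ := gv_diag p.g
    have h1 : pv pf p = Tr (val (wp p)) := by
      unfold pv wp
      rw [pf_lt k2, pf_lt k3, pf_lt k4, pf_lt k5, pf_lt k6, Tr_pow, Tr_add, Tr_add, Tr_add, Tr_add,
        val_add, val_add, val_add, val_add, val_nsmul]
    rw [pf_lt k1, diag_conj _ c hP, hc, ← val_mulg, wz_polyL p hp, h1]
    split_ifs
    · rfl
    · rw [val_neg, Tr_neg]

/-- the representation -/
noncomputable def Psi : K2 →* Equiv.Perm Sq := K2lift pf pf_rels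

theorem Psi_kg (i : Fin 13) : Psi (kg i) = pf i := K2lift_kg _ _ i

/-- the weight of an element -/
noncomputable def om (k : K2) : ℝ := Psi k 0 0

theorem Psi_N2 {n : K2} (h : n ∈ N2) : Psi n = Tr (om n) := by
  have h1 : ∃ w, Psi n = Tr w := by
    unfold N2 at h
    induction h using Subgroup.closure_induction with
    | mem x hx =>
      simp only [Set.mem_insert_iff, Set.mem_singleton_iff] at hx
      rcases hx with rfl | rfl | rfl
      · exact ⟨_, (Psi_kg 0).trans (pf_lt (by decide))⟩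
      · exact ⟨_, (Psi_kg 1).trans (pf_lt (by decide))⟩
      · exact ⟨_, (Psi_kg 2).trans (pf_lt (by decide))⟩
    | one => exact ⟨0, by rw [map_one, Tr_zero]⟩
    | mul x y _ _ hx hy =>
      obtain ⟨a, ha⟩ := hx
      obtain ⟨b, hb⟩ := hy
      exact ⟨a + b, by rw [map_mul, ha, hb, Tr_add]⟩
    | inv x _ hx =>
      obtain ⟨a, ha⟩ := hx
      exact ⟨-a, by rw [map_inv, ha, Tr_neg]⟩
  obtain ⟨w, hw⟩ := h1
  have h2 : om n = w := by
    unfold om
    rw [hw, Tr_apply]
    simp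
  rw [h2, hw]

theorem om_mul {n k : K2} (hn : n ∈ N2) (hk : k ∈ N2) : om (n * k) = om n + om k := by
  apply Tr_inj
  rw [← Psi_N2 (mul_mem hn hk), map_mul, Psi_N2 hn, Psi_N2 hk, Tr_add]

theorem om_inv {n : K2} (hn : n ∈ N2) : om n⁻¹ = -om n := by
  apply Tr_inj
  rw [← Psi_N2 (inv_mem hn), map_inv, Psi_N2 hn, Tr_neg]

theorem om_kg {i : Fin 13} (h : i.val < 10) : om (kg i) = val (wz i) := by
  unfold om
  rw [Psi_kg, pf_lt h, Tr_apply]
  simp

theorem om_kg_le {i : Fin 13} (h : i.val < 3) : |om (kg i)| ≤ 2 := by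
  have h2 : i = 0 ∨ i = 1 ∨ i = 2 := by
    revert i
    decide
  have hl := mu_lt
  have hp := mu_pos
  rcases h2 with rfl | rfl | rfl
  · rw [om_kg (by decide)]
    simp [val, wz]
  · rw [om_kg (by decide)]
    simp [val, wz]
  · rw [om_kg (by decide)]
    simp only [val, wz]
    simp
    rw [abs_of_pos hp]
    exact hl.le

open Classical in
/-- the extension of the weight by zero -/
noncomputable def hh (k : K2) : ℝ := if k ∈ N2 then om k else 0

theorem hh_one : hh 1 = 0 := by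
  unfold hh
  rw [if_pos (one_mem _)]
  unfold om
  simp

theorem hh_diff {i : Fin 13} (h : i.val < 3) (k : K2) : |hh k - hh ((kg i)⁻¹ * k)| ≤ 2 := by
  have hi : kg i ∈ N2 := kg_mem_N2 (by omega)
  unfold hh
  by_cases hk : k ∈ N2
  · rw [if_pos hk, if_pos (mul_mem (inv_mem hi) hk), om_mul (inv_mem hi) hk, om_inv hi]
    have := om_kg_le h
    have e : om k - (-om (kg i) + om k) = om (kg i) := by ring
    rw [e]
    exact this
  · have hk' : (kg i)⁻¹ * k ∉ N2 := by
      intro h2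
      apply hk
      have := mul_mem hi h2
      rwa [mul_inv_cancel_left] at this
    rw [if_neg hk, if_neg hk']
    simp

/-! ### The action of the free group -/

/-- the state space -/
abbrev Stt : Type := (K2 → ℝ) × ℝ

/-- right translation -/
def RT : K2 →* Equiv.Perm Stt where
  toFun := fun k =>
    { toFun := fun s => (fun x => s.1 (x * k), s.2)
      invFun := fun s => (fun x => s.1 (x * k⁻¹), s.2)
      left_inv := fun s => by simp
      right_inv := fun s => by simp }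
  map_one' := by
    ext s
    · show s.1 (_ * 1) = _
      rw [mul_one]
      rfl
    · rfl
  map_mul' := fun k k' => by
    ext s
    · show s.1 (_ * (k * k')) = s.1 (_ * k * k')
      rw [mul_assoc]
    · rfl

/-- the action of the last generator -/
def SG : Equiv.Perm Stt where
  toFun := fun s => (s.1, s.2 + s.1 1)
  invFun := fun s => (s.1, s.2 - s.1 1)
  left_inv := fun s => by simp
  right_inv := fun s => by simp

theorem RT_apply (k : K2) (s : Stt) : RT k s = (fun x => s.1 (x * k), s.2) := rfl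

theorem SG_apply (s : Stt) : SG s = (s.1, s.2 + s.1 1) := rfl

theorem SG_inv_apply (s : Stt) : SG⁻¹ s = (s.1, s.2 - s.1 1) := rfl

/-- the action -/
def act14 : FreeGroup (Fin 14) →* Equiv.Perm Stt :=
  FreeGroup.lift (extend (fun i => RT (kg i)) SG)

theorem act14_fg (i : Fin 13) : act14 (fg i) = RT (kg i) := by
  unfold act14 fg
  rw [FreeGroup.lift_apply_of, extend_castSucc]

theorem act14_fs : act14 fs = SG := by
  unfold act14 fs
  rw [FreeGroup.lift_apply_of, extend_last]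

/-- the projection -/
def bar : FreeGroup (Fin 14) →* K2 := FreeGroup.lift (extend kg 1)

theorem bar_fg (i : Fin 13) : bar (fg i) = kg i := by
  unfold bar fg
  rw [FreeGroup.lift_apply_of, extend_castSucc]

theorem bar_fs : bar fs = 1 := by
  unfold bar fs
  rw [FreeGroup.lift_apply_of, extend_last]

theorem act14_form (w : FreeGroup (Fin 14)) : ∃ c : (K2 → ℝ) → ℝ, ∀ f r,
    act14 w (f, r) = (fun x => f (x * bar w), r + c f) := by
  induction w using FreeGroup.induction_on with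
  | C1 => exact ⟨fun _ => 0, fun f r => by simp⟩
  | of i =>
    induction i using Fin.lastCases with
    | last =>
      refine ⟨fun f => f 1, fun f r => ?_⟩
      show act14 fs (f, r) = (fun x => f (x * bar fs), r + f 1)
      rw [act14_fs, bar_fs, SG_apply]
      simp
    | cast i =>
      refine ⟨fun f => 0, fun f r => ?_⟩
      show act14 (fg i) (f, r) = (fun x => f (x * bar (fg i)), r + 0)
      rw [act14_fg, bar_fg, RT_apply]
      simp
  | inv_of i ih =>
    obtain ⟨c, hc⟩ := ih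
    refine ⟨fun f => -c (fun x => f (x * (bar (FreeGroup.of i))⁻¹)), fun f r => ?_⟩
    have e1 : act14 (FreeGroup.of i)⁻¹ = (act14 (FreeGroup.of i))⁻¹ := map_inv _ _
    have e2 : bar (FreeGroup.of i)⁻¹ = (bar (FreeGroup.of i))⁻¹ := map_inv _ _
    show act14 (FreeGroup.of i)⁻¹ (f, r) = (fun x => f (x * bar (FreeGroup.of i)⁻¹), r + _)
    rw [e1, e2, Equiv.Perm.inv_eq_iff_eq, hc]
    simp
  | mul x y hx hy =>
    obtain ⟨c, hc⟩ := hx
    obtain ⟨c', hc'⟩ := hy
    refine ⟨fun f => c' f + c (fun x => f (x * bar y)), fun f r => ?_⟩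
    rw [map_mul, map_mul, Equiv.Perm.mul_apply, hc', hc]
    apply Prod.ext
    · funext z
      show f (z * bar x * bar y) = f (z * (bar x * bar y))
      rw [mul_assoc]
    · show r + c' f + _ = r + (c' f + _)
      ring

theorem act14_relL {r : FreeGroup (Fin 14)} (h : r ∈ relL fg) : act14 r = 1 := by
  have h1 : Rels (act14 ∘ fg) := by
    have h2 : act14 ∘ fg = RT ∘ kg := by
      funext i
      exact act14_fg i
    rw [h2]
    exact kg_rels.map RT
  have h3 := (relL_one _).mpr h1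
  rw [← map_relL] at h3
  exact h3 _ (List.mem_map.mpr ⟨r, h, rfl⟩)

/-- the action of a commutator with `σ` -/
theorem act14_comm {g : FreeGroup (Fin 14)} {k : K2} (hg : act14 g = RT k) (f : K2 → ℝ) (r : ℝ) :
    act14 (fs * g * fs⁻¹ * g⁻¹) (f, r) = (f, r + (f 1 - f k⁻¹)) := by
  rw [map_mul, map_mul, map_mul, map_inv, map_inv, hg, act14_fs, ← map_inv]
  simp only [Equiv.Perm.mul_apply]
  rw [RT_apply, SG_inv_apply, RT_apply, SG_apply]
  apply Prod.ext
  · funext x
    simp
  · simp only [one_mul]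
    simp only [mul_inv_cancel]
    ring

theorem act14_conj (p : FreeGroup (Fin 14)) (g : FreeGroup (Fin 14)) {k : K2}
    (hg : act14 g = RT k) (f : K2 → ℝ) (r : ℝ) :
    act14 (p * (fs * g * fs⁻¹ * g⁻¹) * p⁻¹) (f, r) =
      (f, r + (f (bar p)⁻¹ - f (k⁻¹ * (bar p)⁻¹))) := by
  obtain ⟨c, hc⟩ := act14_form p
  obtain ⟨c', hc'⟩ := act14_form p⁻¹
  have h1 : act14 p (act14 p⁻¹ (f, r)) = (f, r) := by
    rw [← Equiv.Perm.mul_apply, ← map_mul, mul_inv_cancel, map_one]
    rfl
  rw [hc', hc] at h1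
  have h2 := congrArg Prod.snd h1
  have h3 : (fun x => f (x * bar p * bar p⁻¹)) = f := congrArg Prod.fst h1
  simp only at h2
  rw [map_mul, map_mul, Equiv.Perm.mul_apply, Equiv.Perm.mul_apply, hc', act14_comm hg, hc]
  apply Prod.ext
  · exact h3
  · simp only [map_inv, one_mul]
    simp only [map_inv] at h2
    linarith

theorem act14_RL {r : FreeGroup (Fin 14)} (h : r ∈ RL) (p : FreeGroup (Fin 14)) :
    ∃ e : ℝ, |e| ≤ 2 ∧ ∀ z, act14 (p * r * p⁻¹) (hh, z) = (hh, z + e) := by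
  unfold RL at h
  rcases List.mem_append.mp h with h | h
  · refine ⟨0, by simp, fun z => ?_⟩
    rw [map_mul, map_mul, act14_relL h, mul_one, ← map_mul, mul_inv_cancel, map_one]
    simp
  · have hc : ∀ i : Fin 13, i.val < 3 → ∃ e : ℝ, |e| ≤ 2 ∧
        ∀ z, act14 (p * cmr i * p⁻¹) (hh, z) = (hh, z + e) := by
      intro i hi
      refine ⟨_, hh_diff hi (bar p)⁻¹, fun z => ?_⟩
      exact act14_conj p (fg i) (act14_fg i) hh z
    simp only [List.mem_cons, List.not_mem_nil, or_false] at h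
    rcases h with rfl | rfl | rfl
    · exact hc 0 (by decide)
    · exact hc 1 (by decide)
    · exact hc 2 (by decide)

theorem act14_RL' {r : FreeGroup (Fin 14)} (h : r ∈ RL ∨ r⁻¹ ∈ RL) (p : FreeGroup (Fin 14)) :
    ∃ e : ℝ, |e| ≤ 2 ∧ ∀ z, act14 (p * r * p⁻¹) (hh, z) = (hh, z + e) := by
  rcases h with h | h
  · exact act14_RL h p
  · obtain ⟨e, he, h2⟩ := act14_RL h p
    refine ⟨-e, by rwa [abs_neg], fun z => ?_⟩
    have e1 : p * r * p⁻¹ = (p * r⁻¹ * p⁻¹)⁻¹ := by group
    rw [e1, map_inv, Equiv.Perm.inv_eq_iff_eq, h2]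
    simp

theorem act14_prod : ∀ (L : List (FreeGroup (Fin 14) × FreeGroup (Fin 14))),
    (∀ p ∈ L, p.2 ∈ RL ∨ p.2⁻¹ ∈ RL) →
    ∃ e : ℝ, |e| ≤ 2 * L.length ∧
      ∀ z, act14 (L.map (fun p => p.1 * p.2 * p.1⁻¹)).prod (hh, z) = (hh, z + e) := by
  intro L
  induction L with
  | nil => exact fun _ => ⟨0, by simp, fun z => by simp⟩
  | cons x L ih =>
    intro h
    obtain ⟨e, he, h1⟩ := ih (fun p hp => h p (List.mem_cons_of_mem _ hp))
    obtain ⟨e', he', h2⟩ := act14_RL' (h x (by simp)) x.1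
    refine ⟨e + e', ?_, fun z => ?_⟩
    · calc |e + e'| ≤ |e| + |e'| := abs_add_le _ _
        _ ≤ 2 * L.length + 2 := add_le_add he he'
        _ = 2 * (x :: L).length := by
          rw [List.length_cons]
          push_cast
          ring
    · rw [List.map_cons, List.prod_cons, map_mul, Equiv.Perm.mul_apply, h1, h2, add_assoc]

/-! ### The words -/

/-- the conjugated element, in the free group -/
def gw (n : ℕ) : FreeGroup (Fin 14) :=
  (fg 10)⁻¹ ^ n * fg 12 ^ n * fg 1 * (fg 12)⁻¹ ^ n * fg 10 ^ n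

/-- the word -/
def ww (n : ℕ) : FreeGroup (Fin 14) := fs * gw n * fs⁻¹ * (gw n)⁻¹

/-- the conjugated element -/
def gk (n : ℕ) : K2 := (kg 10)⁻¹ ^ n * kg 12 ^ n * kg 1 * (kg 12)⁻¹ ^ n * kg 10 ^ n

theorem act14_gw (n : ℕ) : act14 (gw n) = RT (gk n) := by
  unfold gw gk
  simp only [map_mul, map_pow, map_inv, act14_fg]

theorem gk_mem (n : ℕ) : gk n ∈ N2 := by
  have hc : (kg 10)⁻¹ ^ n * kg 12 ^ n ∈ F1 := by
    apply mem_F1_of_chi
    · exact mul_mem (pow_mem (inv_mem (kg_mem_C1 (by decide))) n)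
        (pow_mem (kg_mem_C1 (by decide)) n)
    · rw [map_mul, map_pow, map_pow, map_inv, chi_ge (by decide), chi_ge (by decide), ← mul_pow]
      simp
  have h := (F1_le_nrm hc (kg 1)).mp (kg_mem_N2 (by decide))
  have e : gk n = (kg 10)⁻¹ ^ n * kg 12 ^ n * kg 1 * ((kg 10)⁻¹ ^ n * kg 12 ^ n)⁻¹ := by
    unfold gk
    simp [mul_assoc]
  rw [e]
  exact h

/-- exponents -/
def ee : ℕ → ℕ
  | 0 => 0
  | n + 1 => ee n + (n + 2)

theorem ee_eq (n : ℕ) : 2 * ee n = n * (n + 3) := by
  induction n with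
  | zero => rfl
  | succ n ih =>
    rw [ee]
    rw [mul_add, ih]
    ring

theorem PS_pow (n : ℕ) (f : Sq) : (PS ^ n) f n = mu ^ ee n * f 0 := by
  induction n with
  | zero => simp [ee]
  | succ n ih =>
    rw [pow_succ', Equiv.Perm.mul_apply, PS_apply]
    have h : ((n + 1 : ℕ) : ℤ) - 1 = (n : ℤ) := by push_cast; ring
    rw [h, ih, ← mul_assoc]
    congr 1
    have h2 : ((n + 1 : ℕ) : ℤ) + 1 = ((n + 2 : ℕ) : ℤ) := by push_cast; ring
    rw [h2, zpow_natCast, ee, pow_add]
    ring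

theorem PU_inv_pow (n : ℕ) (f : Sq) (i : ℤ) : (PU⁻¹ ^ n) f i = f (i + n) := by
  induction n generalizing f i with
  | zero => simp
  | succ n ih =>
    rw [pow_succ', Equiv.Perm.mul_apply, PU_inv_apply, ih]
    congr 1
    push_cast
    ring

theorem lin_zero_pow {P : Equiv.Perm Sq} (h : P 0 = 0) (n : ℕ) : (P ^ n) 0 = 0 := by
  induction n with
  | zero => simp
  | succ n ih => rw [pow_succ', Equiv.Perm.mul_apply, ih, h]

theorem om_gk (n : ℕ) : om (gk n) = mu ^ ee n := by
  unfold om gk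
  simp only [map_mul, map_pow, map_inv, Psi_kg, pf_10, pf_12, Equiv.Perm.mul_apply]
  have h1 : PU 0 = 0 := by
    funext i
    rw [PU_apply]
    rfl
  have h2 : PS⁻¹ 0 = 0 := by
    funext i
    rw [PS_inv_apply]
    simp
  rw [lin_zero_pow h1, lin_zero_pow h2, PU_inv_pow, zero_add, PS_pow, pf_lt (by decide), Tr_apply]
  simp [val, wz]

theorem hh_gk (n : ℕ) : hh (gk n)⁻¹ = -mu ^ ee n := by
  unfold hh
  rw [if_pos (inv_mem (gk_mem n)), om_inv (gk_mem n), om_gk]

theorem act14_ww (n : ℕ) (z : ℝ) : act14 (ww n) (hh, z) = (hh, z + mu ^ ee n) := by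
  unfold ww
  rw [act14_comm (act14_gw n), hh_one, hh_gk]
  simp

theorem pi14_gw (n : ℕ) : pi14 (gw n) = thB N2 (gk n) := by
  unfold gw gk
  simp only [map_mul, map_pow, map_inv, pi14_fg]

theorem ww_ker (n : ℕ) : ww n ∈ phi.ker := by
  rw [phi_ker]
  have h1 : pi14 (ww n) = 1 := by
    unfold ww
    rw [map_mul, map_mul, map_mul, map_inv, map_inv, pi14_gw, pi14_fs,
      (thB_comm N2 _ (gk_mem n)).symm.eq]
    simp
  have h3 := backE_pi14 (ww n)
  rw [h1, map_one] at h3
  exact (QuotientGroup.eq_one_iff (ww n)).mp h3.symm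

theorem norm_pow_le {X : Type} [DecidableEq X] (x : FreeGroup X) (n : ℕ) :
    (x ^ n).norm ≤ n * x.norm := by
  induction n with
  | zero => simp
  | succ n ih =>
    rw [pow_succ]
    have := FreeGroup.norm_mul_le (x ^ n) x
    rw [add_mul, one_mul]
    omega

theorem norm_fg (i : Fin 13) : (fg i).norm = 1 := FreeGroup.norm_of _

theorem norm_gw (n : ℕ) : (gw n).norm ≤ 4 * n + 1 := by
  unfold gw
  have h1 := norm_pow_le (fg 10)⁻¹ n
  have h2 := norm_pow_le (fg 12) n
  have h3 := norm_pow_le (fg 12)⁻¹ n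
  have h4 := norm_pow_le (fg 10) n
  rw [FreeGroup.norm_inv_eq, norm_fg] at h1 h3
  rw [norm_fg] at h2 h4
  have h5 := norm_fg 1
  have k1 := FreeGroup.norm_mul_le ((fg 10)⁻¹ ^ n) (fg 12 ^ n)
  have k2 := FreeGroup.norm_mul_le ((fg 10)⁻¹ ^ n * fg 12 ^ n) (fg 1)
  have k3 := FreeGroup.norm_mul_le ((fg 10)⁻¹ ^ n * fg 12 ^ n * fg 1) ((fg 12)⁻¹ ^ n)
  have k4 := FreeGroup.norm_mul_le ((fg 10)⁻¹ ^ n * fg 12 ^ n * fg 1 * (fg 12)⁻¹ ^ n) (fg 10 ^ n)
  omega

theorem norm_ww (n : ℕ) : (ww n).norm ≤ 8 * n + 4 := by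
  unfold ww
  have h1 := norm_gw n
  have h2 : fs.norm = 1 := FreeGroup.norm_of _
  have k1 := FreeGroup.norm_mul_le fs (gw n)
  have k2 := FreeGroup.norm_mul_le (fs * gw n) fs⁻¹
  have k3 := FreeGroup.norm_mul_le (fs * gw n * fs⁻¹) (gw n)⁻¹
  rw [FreeGroup.norm_inv_eq] at k2 k3
  omega

theorem growth (C : ℕ) : ∃ n : ℕ, 2 * ((C : ℝ) + 1) ^ (8 * n + 5) < mu ^ ee n := by
  obtain ⟨K, hK⟩ := pow_unbounded_of_one_lt ((C : ℝ) + 1) (show (1 : ℝ) < 3 / 2 by norm_num)
  refine ⟨16 * K + 20, ?_⟩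
  set n := 16 * K + 20 with hn
  have h1 : 2 + K * (8 * n + 5) < ee n := by
    have h2 := ee_eq n
    have h3 : 2 * (2 + K * (8 * n + 5)) < n * (n + 3) := by
      rw [hn]
      nlinarith
    omega
  have hC : (0 : ℝ) ≤ (C : ℝ) + 1 := by positivity
  calc 2 * ((C : ℝ) + 1) ^ (8 * n + 5) ≤ (3 / 2) ^ 2 * ((3 / 2) ^ K) ^ (8 * n + 5) := by
        apply mul_le_mul (by norm_num) (pow_le_pow_left₀ hC hK.le _) (by positivity)
          (by positivity)
    _ = (3 / 2) ^ (2 + K * (8 * n + 5)) := by rw [← pow_mul, ← pow_add]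
    _ < (3 / 2) ^ ee n := pow_lt_pow_right₀ (by norm_num) h1
    _ ≤ mu ^ ee n := pow_le_pow_left₀ (by norm_num) mu_gt.le _

/-- the Dehn function is not bounded by an exponential -/
theorem lower (C : ℕ) : ∃ w ∈ phi.ker,
    ¬ ∃ L : List (FreeGroup (Fin 14) × FreeGroup (Fin 14)),
      L.length ≤ C ^ (w.toWord.length + 1) ∧
      (∀ p ∈ L, p.2 ∈ RL ∨ p.2⁻¹ ∈ RL) ∧
      (L.map (fun p => p.1 * p.2 * p.1⁻¹)).prod = w := by
  obtain ⟨n, hn⟩ := growth C
  refine ⟨ww n, ww_ker n, ?_⟩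
  rintro ⟨L, h1, h2, h3⟩
  obtain ⟨e, he, h4⟩ := act14_prod L h2
  have h5 := h4 0
  rw [h3, act14_ww] at h5
  have h6 : mu ^ ee n = e := by
    have := congrArg Prod.snd h5
    simpa using this
  have h7 : (ww n).toWord.length + 1 ≤ 8 * n + 5 := by
    have := norm_ww n
    unfold FreeGroup.norm at this
    omega
  have h8 : (L.length : ℝ) ≤ ((C : ℝ) + 1) ^ (8 * n + 5) := by
    calc (L.length : ℝ) ≤ ((C ^ ((ww n).toWord.length + 1) : ℕ) : ℝ) := by exact_mod_cast h1
      _ = (C : ℝ) ^ ((ww n).toWord.length + 1) := by push_cast; rfl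
      _ ≤ ((C : ℝ) + 1) ^ ((ww n).toWord.length + 1) :=
        pow_le_pow_left₀ (by positivity) (by linarith) _
      _ ≤ ((C : ℝ) + 1) ^ (8 * n + 5) := pow_le_pow_right₀ (by
        have : (0 : ℝ) ≤ C := by positivity
        linarith) h7
  have h9 : |e| = mu ^ ee n := by
    rw [← h6]
    exact abs_of_pos (pow_pos mu_pos _)
  rw [h9] at he
  linarith

end Pool.Agent.W387
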