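import Mathlib

/-!
Trivial HNN extensions: `TH Z` is obtained from `G` by adding a letter commuting with `Z`.
-/

set_option autoImplicit false

namespace Pool.Agent.W387

variable {G : Type} [Group G]

/-- the action of `G` on the free group on `G ⧸ Z` -/
def thAct (Z : Subgroup G) : G →* MulAut (FreeGroup (G ⧸ Z)) where
  toFun := fun g => FreeGroup.freeGroupCongr (MulAction.toPerm g)
  map_one' := by
    ext x
    induction x using FreeGroup.induction_on with
    | C1 => simp
    | of x => simp
    | inv_of x _ => simp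
    | mul x y hx hy => simp_all
  map_mul' := fun g h => by
    ext x
    induction x using FreeGroup.induction_on with
    | C1 => simp
    | of x => simp [mul_smul]
    | inv_of x _ => simp [mul_smul]
    | mul x y hx hy => simp_all

@[simp] theorem thAct_of (Z : Subgroup G) (g : G) (x : G ⧸ Z) :
    thAct Z g (FreeGroup.of x) = FreeGroup.of (g • x) := by
  simp [thAct]

/-- the trivial HNN extension -/
abbrev TH (Z : Subgroup G) : Type := FreeGroup (G ⧸ Z) ⋊[thAct Z] G

/-- the stable letter -/
def thT (Z : Subgroup G) : TH Z := SemidirectProduct.inl (FreeGroup.of ((1 : G) : G ⧸ Z))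

/-- the base -/
def thB (Z : Subgroup G) : G →* TH Z := SemidirectProduct.inr

theorem thB_conj (Z : Subgroup G) (g : G) :
    thB Z g * thT Z * (thB Z g)⁻¹ = SemidirectProduct.inl (FreeGroup.of ((g : G) : G ⧸ Z)) := by
  unfold thB thT
  rw [← map_inv, ← SemidirectProduct.inl_aut, thAct_of]
  congr 2
  show ((g * 1 : G) : G ⧸ Z) = _
  rw [mul_one]

theorem thB_comm (Z : Subgroup G) (z : G) (hz : z ∈ Z) : Commute (thB Z z) (thT Z) := by
  have h := thB_conj Z z
  have h2 : ((z : G) : G ⧸ Z) = ((1 : G) : G ⧸ Z) := by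
    rw [QuotientGroup.eq]
    simpa using hz
  rw [h2] at h
  exact mul_inv_eq_iff_eq_mul.mp h

section lift

variable {K : Type} [Group K]

/-- homomorphisms out of a trivial HNN extension -/
def thLift (Z : Subgroup G) (f : G →* K) (t : K) (h : ∀ z ∈ Z, Commute (f z) t) : TH Z →* K :=
  SemidirectProduct.lift
    (FreeGroup.lift (fun q : G ⧸ Z => Quotient.liftOn' q (fun g => f g * t * (f g)⁻¹) (by
      intro a b hab
      rw [QuotientGroup.leftRel_apply] at hab
      have h1 := h _ hab
      rw [map_mul, map_inv] at h1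
      have h2 : f b = f a * ((f a)⁻¹ * f b) := by simp
      show f a * t * (f a)⁻¹ = f b * t * (f b)⁻¹
      have h3 : ((f a)⁻¹ * f b) * t * ((f a)⁻¹ * f b)⁻¹ = t := by
        rw [h1.eq]
        group
      calc f a * t * (f a)⁻¹ = f a * (((f a)⁻¹ * f b) * t * ((f a)⁻¹ * f b)⁻¹) * (f a)⁻¹ := by
            rw [h3]
        _ = f b * t * (f b)⁻¹ := by group)))
    f
    (by
      intro g
      ext q
      induction q using QuotientGroup.induction_on with
      | H x =>
      have h4 : (g • ((x : G) : G ⧸ Z)) = ((g * x : G) : G ⧸ Z) := rfl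
      simp only [MonoidHom.comp_apply, MulEquiv.coe_toMonoidHom, thAct_of, FreeGroup.lift_apply_of,
        MulAut.conj_apply, h4]
      show f (g * x) * t * (f (g * x))⁻¹ = f g * (f x * t * (f x)⁻¹) * (f g)⁻¹
      rw [map_mul]
      group)

@[simp] theorem thLift_B (Z : Subgroup G) (f : G →* K) (t : K) (h : ∀ z ∈ Z, Commute (f z) t)
    (g : G) : thLift Z f t h (thB Z g) = f g := by
  unfold thLift thB
  simp

@[simp] theorem thLift_T (Z : Subgroup G) (f : G →* K) (t : K) (h : ∀ z ∈ Z, Commute (f z) t) :
    thLift Z f t h (thT Z) = t := by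
  unfold thLift thT
  rw [SemidirectProduct.lift_inl, FreeGroup.lift_apply_of]
  show f 1 * t * (f 1)⁻¹ = t
  simp

end lift

section map

variable {G' : Type} [Group G']

/-- the map of cosets -/
def cosMap (Z : Subgroup G) (Z' : Subgroup G') (f : G →* G') (h : ∀ z ∈ Z, f z ∈ Z') :
    G ⧸ Z → G' ⧸ Z' :=
  Quotient.map' f (by
    intro a b hab
    rw [QuotientGroup.leftRel_apply] at hab ⊢
    have := h _ hab
    rwa [map_mul, map_inv] at this)

theorem cosMap_inj (Z : Subgroup G) (Z' : Subgroup G') (f : G →* G') (h : ∀ z ∈ Z, f z ∈ Z')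
    (h' : ∀ z, f z ∈ Z' → z ∈ Z) : Function.Injective (cosMap Z Z' f h) := by
  intro a b
  induction a using QuotientGroup.induction_on with
  | H a =>
  induction b using QuotientGroup.induction_on with
  | H b =>
  intro hab
  have h1 : ((f a : G') : G' ⧸ Z') = ((f b : G') : G' ⧸ Z') := hab
  rw [QuotientGroup.eq] at h1 ⊢
  apply h'
  rwa [map_mul, map_inv]

/-- functoriality of trivial HNN extensions -/
def thMap (Z : Subgroup G) (Z' : Subgroup G') (f : G →* G') (h : ∀ z ∈ Z, f z ∈ Z') :
    TH Z →* TH Z' :=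
  SemidirectProduct.map (FreeGroup.map (cosMap Z Z' f h)) f (by
    intro g
    ext q
    induction q using QuotientGroup.induction_on with
    | H x =>
    simp only [MonoidHom.comp_apply, MulEquiv.coe_toMonoidHom, thAct_of, FreeGroup.map.of]
    congr 1
    show ((f (g * x) : G') : G' ⧸ Z') = ((f g * f x : G') : G' ⧸ Z')
    rw [map_mul])

@[simp] theorem thMap_B (Z : Subgroup G) (Z' : Subgroup G') (f : G →* G')
    (h : ∀ z ∈ Z, f z ∈ Z') (g : G) : thMap Z Z' f h (thB Z g) = thB Z' (f g) := by
  unfold thMap thB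
  simp

@[simp] theorem thMap_T (Z : Subgroup G) (Z' : Subgroup G') (f : G →* G')
    (h : ∀ z ∈ Z, f z ∈ Z') : thMap Z Z' f h (thT Z) = thT Z' := by
  unfold thMap thT
  rw [SemidirectProduct.map_inl, FreeGroup.map.of]
  congr 2
  show ((f 1 : G') : G' ⧸ Z') = ((1 : G') : G' ⧸ Z')
  rw [map_one]

theorem thMap_inj (Z : Subgroup G) (Z' : Subgroup G') (f : G →* G') (h : ∀ z ∈ Z, f z ∈ Z')
    (h' : ∀ z, f z ∈ Z' → z ∈ Z) (hf : Function.Injective f) :
    Function.Injective (thMap Z Z' f h) := by
  intro x y hxy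
  have h1 := congrArg SemidirectProduct.left hxy
  have h2 := congrArg SemidirectProduct.right hxy
  unfold thMap at h1 h2
  rw [SemidirectProduct.map_left, SemidirectProduct.map_left] at h1
  rw [SemidirectProduct.map_right, SemidirectProduct.map_right] at h2
  apply SemidirectProduct.ext
  · exact FreeGroup.map_injective (cosMap_inj Z Z' f h h') h1
  · exact hf h2

end map

theorem th_ext {Z : Subgroup G} {K : Type} [Group K] {f g : TH Z →* K}
    (h1 : ∀ x, f (thB Z x) = g (thB Z x)) (h2 : f (thT Z) = g (thT Z)) : f = g := by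
  apply SemidirectProduct.hom_ext
  · ext q
    induction q using QuotientGroup.induction_on with
    | H x =>
    simp only [MonoidHom.comp_apply]
    rw [← thB_conj, map_mul, map_mul, map_inv, map_mul, map_mul, map_inv, h1, h2]
  · ext x
    exact h1 x

end Pool.Agent.W387
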