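import Pool.Agent.W387.Data

/-!
Algebra of the relations.
-/

set_option autoImplicit false

namespace Pool.Agent.W387

theorem poly_lt : ∀ k : Fin 12, (poly k).j.val < 10 ∧ (poly k).al.val < 10 ∧ (poly k).be.val < 10 ∧
    (poly k).c.val < 10 ∧ (poly k).be'.val < 10 ∧ (poly k).al'.val < 10 := by
  decide

theorem polyL_lt (p : Poly) (hp : p ∈ polyL) : p.j.val < 10 ∧ p.al.val < 10 ∧ p.be.val < 10 ∧
    p.c.val < 10 ∧ p.be'.val < 10 ∧ p.al'.val < 10 := by
  obtain ⟨k, hk, rfl⟩ := List.mem_iff_getElem.mp hp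
  have hk' : k < 12 := by simpa [polyL] using hk
  exact poly_lt ⟨k, hk'⟩

theorem defL_lt : ∀ d ∈ defL, d.1.val < 10 ∧ d.2.1.val < 10 ∧ d.2.2.1.val < 10 ∧
    d.2.2.2.val < 10 := by
  intro d hd
  simp only [defL, List.mem_cons, List.not_mem_nil, or_false] at hd
  rcases hd with rfl | rfl | rfl | rfl | rfl | rfl | rfl <;> decide

theorem gword_ge : ∀ g : Fin 4, ∀ l ∈ gword g, 10 ≤ l.1.val := by
  decide

/-- exponent sum -/
def esum (l : List Lt) : ℤ := (l.map fun x => if x.2 then (1 : ℤ) else -1).sum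

theorem esum_gword : ∀ g : Fin 4, esum (gword g) = 0 := by
  decide

section

variable {K : Type} [Group K]

theorem Rels.of_trivial {f : Fin 13 → K} (h1 : f 10 * f 11 = f 11 * f 10)
    (h2 : f 10 * f 12 = f 12 * f 11) (h3 : ∀ i : Fin 13, i.val < 10 → f i = 1) : Rels f where
  uv := h1
  us := h2
  defs := fun d hd => by
    obtain ⟨k1, k2, k3, k4⟩ := defL_lt d hd
    rw [h3 _ k1, h3 _ k2, h3 _ k3, h3 _ k4]
    simp
  polys := fun p hp => by
    obtain ⟨k1, k2, k3, k4, k5, k6⟩ := polyL_lt p hp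
    unfold PRel pv
    rw [h3 _ k1, h3 _ k2, h3 _ k3, h3 _ k4, h3 _ k5, h3 _ k6]
    simp

/-- changing the action of the conjugators -/
theorem Rels.congr {f g : Fin 13 → K} (hf : Rels f) (h1 : g 10 * g 11 = g 11 * g 10)
    (h2 : g 10 * g 12 = g 12 * g 11) (h3 : ∀ i : Fin 13, i.val < 10 → g i = f i)
    (h4 : ∀ p ∈ polyL, gv g p.g * f p.j * (gv g p.g)⁻¹ = gv f p.g * f p.j * (gv f p.g)⁻¹) :
    Rels g where
  uv := h1
  us := h2
  defs := fun d hd => by
    obtain ⟨k1, k2, k3, k4⟩ := defL_lt d hd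
    rw [h3 _ k1, h3 _ k2, h3 _ k3, h3 _ k4]
    exact hf.defs d hd
  polys := fun p hp => by
    obtain ⟨k1, k2, k3, k4, k5, k6⟩ := polyL_lt p hp
    have h := hf.polys p hp
    unfold PRel pv at h ⊢
    rw [h3 _ k1, h3 _ k2, h3 _ k3, h3 _ k4, h3 _ k5, h3 _ k6, h4 p hp]
    exact h

theorem commute_wv {f : Fin 13 → K} {c : K} {l : List Lt} (h : ∀ x ∈ l, Commute c (f x.1)) :
    Commute c (wv f l) := by
  unfold wv
  apply Commute.list_prod_right
  intro y hy
  obtain ⟨x, hx, rfl⟩ := List.mem_map.mp hy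
  obtain ⟨i, s⟩ := x
  cases s
  · exact (h _ hx).inv_right
  · exact h _ hx

/-- twisting of an assignment -/
def tw (f p : Fin 13 → K) (t : K) (i : Fin 13) : K := if i.val < 10 then f i else p i * f i * t

theorem tw_lt {f p : Fin 13 → K} {t : K} {i : Fin 13} (h : i.val < 10) : tw f p t i = f i := by
  unfold tw
  rw [if_pos h]

theorem tw_ge {f p : Fin 13 → K} {t : K} {i : Fin 13} (h : 10 ≤ i.val) :
    tw f p t i = p i * f i * t := by
  unfold tw
  rw [if_neg (by omega)]

theorem wv_tw {f p : Fin 13 → K} {t : K}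
    (hpf : ∀ i j : Fin 13, 10 ≤ i.val → Commute (p i) (f j))
    (hpt : ∀ i : Fin 13, 10 ≤ i.val → Commute (p i) t)
    (htf : ∀ i : Fin 13, 10 ≤ i.val → Commute t (f i)) (l : List Lt) (hl : ∀ x ∈ l, 10 ≤ x.1.val) :
    wv (tw f p t) l = wv p l * wv f l * t ^ esum l := by
  induction l with
  | nil => simp [wv, esum]
  | cons x l ih =>
    have hx := hl x (by simp)
    have hl' : ∀ y ∈ l, 10 ≤ y.1.val := fun y hy => hl y (by simp [hy])
    have ih' := ih hl'
    have c1 : ∀ i : Fin 13, Commute (wv p l) (f i) := fun i =>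
      (commute_wv (fun y hy => (hpf y.1 i (hl' y hy)).symm)).symm
    have c2 : Commute (wv p l) t := (commute_wv (fun y hy => (hpt y.1 (hl' y hy)).symm)).symm
    have c3 : Commute (wv f l) t := (commute_wv (fun y hy => (htf y.1 (hl' y hy)))).symm
    have e1 : ∀ f : Fin 13 → K, wv f (x :: l) = lv f x * wv f l := fun f => by simp [wv]
    rw [e1, e1, e1, ih']
    obtain ⟨i, s⟩ := x
    cases s
    · have e2 : esum ((i, false) :: l) = -1 + esum l := by simp [esum]
      rw [lv_false, lv_false, lv_false, tw_ge hx, e2, zpow_add, zpow_neg_one]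
      have k1 : t⁻¹ * wv p l = wv p l * t⁻¹ := (c2.inv_right.eq).symm
      have k2 : t⁻¹ * wv f l = wv f l * t⁻¹ := (c3.inv_right.eq).symm
      have k3 : (f i)⁻¹ * wv p l = wv p l * (f i)⁻¹ := ((c1 i).inv_right.eq).symm
      have k4 : t⁻¹ * (f i)⁻¹ * (p i)⁻¹ = (p i)⁻¹ * (f i)⁻¹ * t⁻¹ := by
        have m1 : (f i)⁻¹ * (p i)⁻¹ = (p i)⁻¹ * (f i)⁻¹ := ((hpf i i hx).inv_inv.eq).symm
        have m2 : t⁻¹ * (p i)⁻¹ = (p i)⁻¹ * t⁻¹ := ((hpt i hx).inv_inv.eq).symm
        have m3 : t⁻¹ * (f i)⁻¹ = (f i)⁻¹ * t⁻¹ := ((htf i hx).inv_inv.eq)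
        rw [mul_assoc, m1, ← mul_assoc, m2, mul_assoc, m3, ← mul_assoc]
      calc (p i * f i * t)⁻¹ * (wv p l * wv f l * t ^ esum l)
          = t⁻¹ * (f i)⁻¹ * (p i)⁻¹ * (wv p l * wv f l * t ^ esum l) := by group
        _ = (p i)⁻¹ * (f i)⁻¹ * (t⁻¹ * wv p l) * wv f l * t ^ esum l := by rw [k4]; group
        _ = (p i)⁻¹ * ((f i)⁻¹ * wv p l) * (t⁻¹ * wv f l) * t ^ esum l := by rw [k1]; group
        _ = (p i)⁻¹ * wv p l * ((f i)⁻¹ * wv f l) * (t⁻¹ * t ^ esum l) := by rw [k2, k3]; group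
    · have e2 : esum ((i, true) :: l) = 1 + esum l := by simp [esum]
      rw [lv_true, lv_true, lv_true, tw_ge hx, e2, zpow_add, zpow_one]
      have k1 : t * wv p l = wv p l * t := (c2.eq).symm
      have k2 : t * wv f l = wv f l * t := (c3.eq).symm
      have k3 : f i * wv p l = wv p l * f i := ((c1 i).eq).symm
      calc p i * f i * t * (wv p l * wv f l * t ^ esum l)
          = p i * f i * (t * wv p l) * wv f l * t ^ esum l := by group
        _ = p i * (f i * wv p l) * (t * wv f l) * t ^ esum l := by rw [k1]; group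
        _ = p i * wv p l * (f i * wv f l) * (t * t ^ esum l) := by rw [k2, k3]; group

theorem Rels.tw {f p : Fin 13 → K} {t : K} (hf : Rels f) (hp1 : p 10 * p 11 = p 11 * p 10)
    (hp2 : p 10 * p 12 = p 12 * p 11)
    (hpf : ∀ i j : Fin 13, 10 ≤ i.val → Commute (p i) (f j))
    (hpt : ∀ i : Fin 13, 10 ≤ i.val → Commute (p i) t)
    (htf : ∀ i : Fin 13, 10 ≤ i.val → Commute t (f i)) : Rels (tw f p t) := by
  have two : ∀ i j i' j' : Fin 13, 10 ≤ i.val → 10 ≤ j.val → 10 ≤ i'.val → 10 ≤ j'.val →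
      f i * f j = f i' * f j' → p i * p j = p i' * p j' →
      Pool.Agent.W387.tw f p t i * Pool.Agent.W387.tw f p t j =
        Pool.Agent.W387.tw f p t i' * Pool.Agent.W387.tw f p t j' := by
    intro i j i' j' hi hj hi' hj' h1 h2
    have h3 : ∀ i j : Fin 13, 10 ≤ i.val → 10 ≤ j.val →
        Pool.Agent.W387.tw f p t i * Pool.Agent.W387.tw f p t j =
          (p i * p j) * (f i * f j) * t ^ (2 : ℤ) := by
      intro i j hi hj
      have h4 := wv_tw hpf hpt htf [(i, true), (j, true)] (by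
        intro x hx
        simp only [List.mem_cons, List.not_mem_nil, or_false] at hx
        rcases hx with rfl | rfl
        · exact hi
        · exact hj)
      have h5 : esum [(i, true), (j, true)] = 2 := by simp [esum]
      rw [h5] at h4
      simpa [wv] using h4
    rw [h3 i j hi hj, h3 i' j' hi' hj', h1, h2]
  apply hf.congr
  · exact two 10 11 11 10 (by decide) (by decide) (by decide) (by decide) hf.uv hp1
  · exact two 10 12 12 11 (by decide) (by decide) (by decide) (by decide) hf.us hp2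
  · exact fun i hi => tw_lt hi
  · intro q hq
    have h1 : gv (Pool.Agent.W387.tw f p t) q.g = gv p q.g * gv f q.g := by
      have h2 := wv_tw hpf hpt htf (gword q.g) (gword_ge q.g)
      rw [esum_gword, zpow_zero, mul_one] at h2
      exact h2
    rw [h1]
    have h3 : Commute (gv p q.g) (gv f q.g * f q.j * (gv f q.g)⁻¹) := by
      have h4 : ∀ c : K, (∀ i : Fin 13, 10 ≤ i.val → Commute c (p i)) → Commute c (gv p q.g) :=
        fun c hc => commute_wv (fun x hx => hc x.1 (gword_ge q.g x hx))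
      apply Commute.symm
      apply h4
      intro i hi
      have h5 : Commute (p i) (gv f q.g) := commute_wv (fun x _ => hpf i x.1 hi)
      exact ((h5.mul_right (hpf i q.j hi)).mul_right h5.inv_right).symm
    calc gv p q.g * gv f q.g * f q.j * (gv p q.g * gv f q.g)⁻¹
        = gv p q.g * (gv f q.g * f q.j * (gv f q.g)⁻¹) * (gv p q.g)⁻¹ := by group
      _ = gv f q.g * f q.j * (gv f q.g)⁻¹ := by rw [h3.eq]; group

end

end Pool.Agent.W387
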