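import Pool.Agent.W387.SqGrp

/-!
Joins of square systems.
-/

set_option autoImplicit false

namespace Pool.Agent.W387

namespace SqSys

variable {A B : Type}

/-- the squares of a join -/
def jsq (S : SqSys A) (S' : SqSys B) (T : A → Bool) : A ⊕ B → A ⊕ B → Option ((A ⊕ B) × (A ⊕ B))
  | .inl a, .inl b => (S.sq a b).map (fun r => (.inl r.1, .inl r.2))
  | .inr a, .inr b => (S'.sq a b).map (fun r => (.inr r.1, .inr r.2))
  | .inl a, .inr b => if T a then some (.inr b, .inl a) else none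
  | .inr b, .inl a => if T a then some (.inl a, .inr b) else none

variable {S : SqSys A} {S' : SqSys B} {T : A → Bool}

theorem jsq_ll {a b : A} {p q : A ⊕ B} : jsq S S' T (.inl a) (.inl b) = some (p, q) ↔
    ∃ p' q', S.sq a b = some (p', q') ∧ p = .inl p' ∧ q = .inl q' := by
  simp only [jsq, Option.map_eq_some_iff, Prod.mk.injEq, Prod.exists]
  constructor
  · rintro ⟨p', q', h, h1, h2⟩
    exact ⟨p', q', h, h1.symm, h2.symm⟩
  · rintro ⟨p', q', h, h1, h2⟩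
    exact ⟨p', q', h, h1.symm, h2.symm⟩

theorem jsq_rr {a b : B} {p q : A ⊕ B} : jsq S S' T (.inr a) (.inr b) = some (p, q) ↔
    ∃ p' q', S'.sq a b = some (p', q') ∧ p = .inr p' ∧ q = .inr q' := by
  simp only [jsq, Option.map_eq_some_iff, Prod.mk.injEq, Prod.exists]
  constructor
  · rintro ⟨p', q', h, h1, h2⟩
    exact ⟨p', q', h, h1.symm, h2.symm⟩
  · rintro ⟨p', q', h, h1, h2⟩
    exact ⟨p', q', h, h1.symm, h2.symm⟩

theorem jsq_lr {a : A} {b : B} {p q : A ⊕ B} : jsq S S' T (.inl a) (.inr b) = some (p, q) ↔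
    T a = true ∧ p = .inr b ∧ q = .inl a := by
  simp only [jsq]
  by_cases h : T a = true
  · simp only [h, if_true, Option.some.injEq, Prod.mk.injEq, true_and]
    constructor
    · rintro ⟨h1, h2⟩
      exact ⟨h1.symm, h2.symm⟩
    · rintro ⟨h1, h2⟩
      exact ⟨h1.symm, h2.symm⟩
  · simp [h]

theorem jsq_rl {a : A} {b : B} {p q : A ⊕ B} : jsq S S' T (.inr b) (.inl a) = some (p, q) ↔
    T a = true ∧ p = .inl a ∧ q = .inr b := by
  simp only [jsq]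
  by_cases h : T a = true
  · simp only [h, if_true, Option.some.injEq, Prod.mk.injEq, true_and]
    constructor
    · rintro ⟨h1, h2⟩
      exact ⟨h1.symm, h2.symm⟩
    · rintro ⟨h1, h2⟩
      exact ⟨h1.symm, h2.symm⟩
  · simp [h]

variable (S S' T) in
/-- the join of two square systems along a locally convex part of the first one -/
def join (hT1 : ∀ a, T (S.inv a) = T a)
    (hT2 : ∀ a b p q, S.sq a b = some (p, q) → T a = true → T b = true →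
      T p = true ∧ T q = true) : SqSys (A ⊕ B) where
  inv := Sum.map S.inv S'.inv
  inv_inv := by
    rintro (a | a)
    · simp [S.inv_inv]
    · simp [S'.inv_inv]
  sq := jsq S S' T
  symm := by
    rintro (a | a) (b | b) p q h
    · obtain ⟨p', q', k, rfl, rfl⟩ := jsq_ll.mp h
      exact jsq_ll.mpr ⟨_, _, S.symm k, rfl, rfl⟩
    · obtain ⟨k, rfl, rfl⟩ := jsq_lr.mp h
      exact jsq_rl.mpr ⟨k, rfl, rfl⟩
    · obtain ⟨k, rfl, rfl⟩ := jsq_rl.mp h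
      exact jsq_lr.mpr ⟨k, rfl, rfl⟩
    · obtain ⟨p', q', k, rfl, rfl⟩ := jsq_rr.mp h
      exact jsq_rr.mpr ⟨_, _, S'.symm k, rfl, rfl⟩
  rot := by
    rintro (a | a) (b | b) p q h
    · obtain ⟨p', q', k, rfl, rfl⟩ := jsq_ll.mp h
      exact jsq_ll.mpr ⟨_, _, S.rot k, rfl, rfl⟩
    · obtain ⟨k, rfl, rfl⟩ := jsq_lr.mp h
      exact jsq_lr.mpr ⟨by rw [hT1]; exact k, rfl, rfl⟩
    · obtain ⟨k, rfl, rfl⟩ := jsq_rl.mp h
      exact jsq_rl.mpr ⟨k, rfl, rfl⟩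
    · obtain ⟨p', q', k, rfl, rfl⟩ := jsq_rr.mp h
      exact jsq_rr.mpr ⟨_, _, S'.rot k, rfl, rfl⟩
  irrefl := by
    rintro (a | a)
    · simp [jsq, S.irrefl]
    · simp [jsq, S'.irrefl]
  cube := by
    rintro (a | a) (b | b) (c | c) b1 a1 c1 b2 c2 a2 h1 h2 h3
    · obtain ⟨b1, a1, g1, rfl, rfl⟩ := jsq_ll.mp h1
      obtain ⟨c1, b2, g2, rfl, rfl⟩ := jsq_ll.mp h2
      obtain ⟨c2, a2, g3, rfl, rfl⟩ := jsq_ll.mp h3
      obtain ⟨a3, b3, c3, k1, k2, k3⟩ := S.cube g1 g2 g3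
      exact ⟨_, _, _, jsq_ll.mpr ⟨_, _, k1, rfl, rfl⟩, jsq_ll.mpr ⟨_, _, k2, rfl, rfl⟩,
        jsq_ll.mpr ⟨_, _, k3, rfl, rfl⟩⟩
    · obtain ⟨b1, a1, g1, rfl, rfl⟩ := jsq_ll.mp h1
      obtain ⟨g2, rfl, rfl⟩ := jsq_lr.mp h2
      obtain ⟨g3, rfl, rfl⟩ := jsq_lr.mp h3
      obtain ⟨t1, t2⟩ := hT2 _ _ _ _ g1 g3 g2
      exact ⟨_, _, _, jsq_lr.mpr ⟨t1, rfl, rfl⟩, jsq_lr.mpr ⟨t2, rfl, rfl⟩,
        jsq_ll.mpr ⟨_, _, g1, rfl, rfl⟩⟩
    · obtain ⟨g1, rfl, rfl⟩ := jsq_lr.mp h1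
      obtain ⟨g2, rfl, rfl⟩ := jsq_rl.mp h2
      obtain ⟨c2, a2, g3, rfl, rfl⟩ := jsq_ll.mp h3
      obtain ⟨t1, t2⟩ := hT2 _ _ _ _ g3 g1 g2
      exact ⟨_, _, _, jsq_rl.mpr ⟨t1, rfl, rfl⟩, jsq_ll.mpr ⟨_, _, g3, rfl, rfl⟩,
        jsq_lr.mpr ⟨t2, rfl, rfl⟩⟩
    · obtain ⟨g1, rfl, rfl⟩ := jsq_lr.mp h1
      obtain ⟨c1, b2, g2, rfl, rfl⟩ := jsq_rr.mp h2
      obtain ⟨g3, rfl, rfl⟩ := jsq_lr.mp h3
      exact ⟨_, _, _, jsq_rr.mpr ⟨_, _, g2, rfl, rfl⟩, jsq_lr.mpr ⟨g1, rfl, rfl⟩,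
        jsq_lr.mpr ⟨g1, rfl, rfl⟩⟩
    · obtain ⟨g1, rfl, rfl⟩ := jsq_rl.mp h1
      obtain ⟨c1, b2, g2, rfl, rfl⟩ := jsq_ll.mp h2
      obtain ⟨g3, rfl, rfl⟩ := jsq_rl.mp h3
      obtain ⟨t1, t2⟩ := hT2 _ _ _ _ g2 g1 g3
      exact ⟨_, _, _, jsq_ll.mpr ⟨_, _, g2, rfl, rfl⟩, jsq_rl.mpr ⟨t1, rfl, rfl⟩,
        jsq_rl.mpr ⟨t2, rfl, rfl⟩⟩
    · obtain ⟨g1, rfl, rfl⟩ := jsq_rl.mp h1
      obtain ⟨g2, rfl, rfl⟩ := jsq_lr.mp h2
      obtain ⟨c2, a2, g3, rfl, rfl⟩ := jsq_rr.mp h3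
      exact ⟨_, _, _, jsq_lr.mpr ⟨g1, rfl, rfl⟩, jsq_rr.mpr ⟨_, _, g3, rfl, rfl⟩,
        jsq_rl.mpr ⟨g1, rfl, rfl⟩⟩
    · obtain ⟨b1, a1, g1, rfl, rfl⟩ := jsq_rr.mp h1
      obtain ⟨g2, rfl, rfl⟩ := jsq_rl.mp h2
      obtain ⟨g3, rfl, rfl⟩ := jsq_rl.mp h3
      exact ⟨_, _, _, jsq_rl.mpr ⟨g2, rfl, rfl⟩, jsq_rl.mpr ⟨g2, rfl, rfl⟩,
        jsq_rr.mpr ⟨_, _, g1, rfl, rfl⟩⟩
    · obtain ⟨b1, a1, g1, rfl, rfl⟩ := jsq_rr.mp h1
      obtain ⟨c1, b2, g2, rfl, rfl⟩ := jsq_rr.mp h2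
      obtain ⟨c2, a2, g3, rfl, rfl⟩ := jsq_rr.mp h3
      obtain ⟨a3, b3, c3, k1, k2, k3⟩ := S'.cube g1 g2 g3
      exact ⟨_, _, _, jsq_rr.mpr ⟨_, _, k1, rfl, rfl⟩, jsq_rr.mpr ⟨_, _, k2, rfl, rfl⟩,
        jsq_rr.mpr ⟨_, _, k3, rfl, rfl⟩⟩

section joinLift

variable {hT1 : ∀ a, T (S.inv a) = T a}
    {hT2 : ∀ a b p q, S.sq a b = some (p, q) → T a = true → T b = true →
      T p = true ∧ T q = true} {K : Type} [Group K]

/-- homomorphisms out of the group of a join -/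
def joinLift (f : S.Grp →* K) (f' : S'.Grp →* K)
    (h : ∀ a b, T a = true → f (S.gn a) * f' (S'.gn b) = f' (S'.gn b) * f (S.gn a)) :
    (join S S' T hT1 hT2).Grp →* K :=
  lift (Sum.elim (fun a => f (S.gn a)) (fun b => f' (S'.gn b)))
    (by
      rintro (a | a)
      · show f (S.gn (S.inv a)) = _
        rw [gn_inv, map_inv]
        rfl
      · show f' (S'.gn (S'.inv a)) = _
        rw [gn_inv, map_inv]
        rfl)
    (by
      rintro (a | a) (b | b) p q hs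
      · obtain ⟨p', q', ks, rfl, rfl⟩ := (jsq_ll (S := S) (S' := S') (T := T)).mp hs
        show f (S.gn a) * f (S.gn p') = f (S.gn b) * f (S.gn q')
        rw [← map_mul, ← map_mul, gn_sq ks]
      · obtain ⟨ks, rfl, rfl⟩ := (jsq_lr (S := S) (S' := S') (T := T)).mp hs
        exact h a b ks
      · obtain ⟨ks, rfl, rfl⟩ := (jsq_rl (S := S) (S' := S') (T := T)).mp hs
        exact (h b a ks).symm
      · obtain ⟨p', q', ks, rfl, rfl⟩ := (jsq_rr (S := S) (S' := S') (T := T)).mp hs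
        show f' (S'.gn a) * f' (S'.gn p') = f' (S'.gn b) * f' (S'.gn q')
        rw [← map_mul, ← map_mul, gn_sq ks])

@[simp] theorem joinLift_inl (f : S.Grp →* K) (f' : S'.Grp →* K)
    (h : ∀ a b, T a = true → f (S.gn a) * f' (S'.gn b) = f' (S'.gn b) * f (S.gn a)) (a : A) :
    joinLift f f' h ((join S S' T hT1 hT2).gn (.inl a)) = f (S.gn a) := by
  unfold joinLift
  rw [lift_gn]
  rfl

@[simp] theorem joinLift_inr (f : S.Grp →* K) (f' : S'.Grp →* K)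
    (h : ∀ a b, T a = true → f (S.gn a) * f' (S'.gn b) = f' (S'.gn b) * f (S.gn a)) (a : B) :
    joinLift f f' h ((join S S' T hT1 hT2).gn (.inr a)) = f' (S'.gn a) := by
  unfold joinLift
  rw [lift_gn]
  rfl

variable (S S' T) in
/-- inclusion of the first group in the group of the join -/
def jl (hT1 : ∀ a, T (S.inv a) = T a)
    (hT2 : ∀ a b p q, S.sq a b = some (p, q) → T a = true → T b = true →
      T p = true ∧ T q = true) : S.Grp →* (join S S' T hT1 hT2).Grp :=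
  lift (fun a => (join S S' T hT1 hT2).gn (.inl a))
    (fun a => gn_inv (S := join S S' T hT1 hT2) (.inl a))
    (fun _ _ _ _ h => gn_sq (S := join S S' T hT1 hT2) ((jsq_ll (S := S) (S' := S') (T := T)).mpr ⟨_, _, h, rfl, rfl⟩))

variable (S S' T) in
/-- inclusion of the second group in the group of the join -/
def jr (hT1 : ∀ a, T (S.inv a) = T a)
    (hT2 : ∀ a b p q, S.sq a b = some (p, q) → T a = true → T b = true →
      T p = true ∧ T q = true) : S'.Grp →* (join S S' T hT1 hT2).Grp :=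
  lift (fun a => (join S S' T hT1 hT2).gn (.inr a))
    (fun a => gn_inv (S := join S S' T hT1 hT2) (.inr a))
    (fun _ _ _ _ h => gn_sq (S := join S S' T hT1 hT2) ((jsq_rr (S := S) (S' := S') (T := T)).mpr ⟨_, _, h, rfl, rfl⟩))

@[simp] theorem jl_gn (a : A) : jl S S' T hT1 hT2 (S.gn a) = (join S S' T hT1 hT2).gn (.inl a) := by
  unfold jl
  exact lift_gn _ _ _ a

@[simp] theorem jr_gn (a : B) : jr S S' T hT1 hT2 (S'.gn a) = (join S S' T hT1 hT2).gn (.inr a) := by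
  unfold jr
  exact lift_gn _ _ _ a

theorem j_comm (a : A) (b : B) (h : T a = true) :
    jl S S' T hT1 hT2 (S.gn a) * jr S S' T hT1 hT2 (S'.gn b) =
      jr S S' T hT1 hT2 (S'.gn b) * jl S S' T hT1 hT2 (S.gn a) := by
  rw [jl_gn, jr_gn]
  exact gn_sq (S := join S S' T hT1 hT2) ((jsq_lr (S := S) (S' := S') (T := T)).mpr ⟨h, rfl, rfl⟩)

end joinLift

end SqSys

end Pool.Agent.W387
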