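import Pool.Agent.W387.OfList
import Pool.Agent.W387.Join

/-!
The explicit group and the explicit square complex.
-/

set_option autoImplicit false

namespace Pool.Agent.W387

/-- signed letters; the letters `0`–`9` are `a₀`–`a₉`, the letters `10`, `11`, `12` are `u`, `v`,
`s` -/
abbrev Lt : Type := Fin 13 × Bool

/-- a polygon `g a_j g⁻¹ = (a_al a_be a_c ^ n a_be' a_al')^{±1}` -/
structure Poly where
  /-- conjugator -/
  g : Fin 4
  /-- the conjugated letter -/
  j : Fin 13
  /-- first letter -/
  al : Fin 13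
  /-- second letter -/
  be : Fin 13
  /-- middle letter -/
  c : Fin 13
  /-- fourth letter -/
  be' : Fin 13
  /-- fifth letter -/
  al' : Fin 13
  /-- sign -/
  sg : Bool

/-- the twelve polygons -/
def polyL : List Poly :=
  [⟨0, 0, 3, 6, 9, 1, 5, true⟩, ⟨1, 0, 0, 7, 0, 9, 7, true⟩,
   ⟨2, 0, 6, 8, 0, 1, 9, true⟩, ⟨3, 0, 6, 5, 9, 5, 1, true⟩,
   ⟨0, 1, 4, 8, 7, 6, 2, true⟩, ⟨1, 1, 5, 3, 7, 2, 6, true⟩,
   ⟨2, 1, 7, 1, 7, 5, 0, false⟩, ⟨3, 1, 9, 3, 9, 4, 1, false⟩,
   ⟨0, 2, 1, 6, 0, 8, 5, false⟩, ⟨1, 2, 2, 5, 7, 9, 0, false⟩,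
   ⟨2, 2, 7, 4, 9, 2, 8, false⟩, ⟨3, 2, 4, 2, 9, 8, 2, false⟩]

/-- the polygons -/
def poly (k : Fin 12) : Poly := polyL[k.val]'(by have := k.2; simp [polyL])

theorem poly_mem (k : Fin 12) : poly k ∈ polyL := List.getElem_mem _

/-- the seven squares `a_t a_r a_b a_l = 1` -/
def defL : List (Fin 13 × Fin 13 × Fin 13 × Fin 13) :=
  [(0, 2, 1, 3), (3, 2, 0, 4), (2, 4, 0, 5), (3, 5, 4, 6), (3, 1, 2, 7), (6, 4, 7, 8), (6, 1, 8, 9)]

/-- words of the conjugators -/
def gword : Fin 4 → List Lt
  | 0 => [(12, true), (10, false)]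
  | 1 => [(10, true), (12, false)]
  | 2 => [(12, true), (12, true), (10, false), (10, false)]
  | 3 => [(10, true), (10, true), (12, false), (12, false)]

/-- words of the inverses of the conjugators -/
def ginv : Fin 4 → List Lt
  | 0 => [(10, true), (12, false)]
  | 1 => [(12, true), (10, false)]
  | 2 => [(10, true), (10, true), (12, false), (12, false)]
  | 3 => [(12, true), (12, true), (10, false), (10, false)]

/-- lengths of the strips -/
def glen (g : Fin 4) : ℕ := 2 * (gword g).length + 3

/-- top of a strip -/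
def top (p : Poly) : List Lt :=
  (if p.sg then (p.al, false) else (p.al', true)) :: (gword p.g ++ (p.j, true) :: (ginv p.g ++
    [if p.sg then (p.al', false) else (p.al, true)]))

/-- first vertical of a strip -/
def d0 (p : Poly) : Lt := if p.sg then (p.be, true) else (p.be', false)

/-- last vertical of a strip -/
def dn (p : Poly) : Lt := if p.sg then (p.be', false) else (p.be, true)

/-- bottom of a strip -/
def bt (p : Poly) : Lt := (p.c, p.sg)

theorem length_top (p : Poly) : (top p).length = glen p.g := by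
  have h : ∀ g : Fin 4, (ginv g).length = (gword g).length := by decide
  simp only [top, glen, List.length_cons, List.length_append, List.length_nil, h]
  omega

section group

variable {K : Type} [Group K]

/-- value of a letter -/
def lv (f : Fin 13 → K) (l : Lt) : K := if l.2 then f l.1 else (f l.1)⁻¹

@[simp] theorem lv_true (f : Fin 13 → K) (i : Fin 13) : lv f (i, true) = f i := rfl

@[simp] theorem lv_false (f : Fin 13 → K) (i : Fin 13) : lv f (i, false) = (f i)⁻¹ := rfl

/-- value of a word -/
def wv (f : Fin 13 → K) (l : List Lt) : K := (l.map (lv f)).prod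

/-- value of the conjugators -/
def gv (f : Fin 13 → K) (g : Fin 4) : K := wv f (gword g)

@[simp] theorem gv_zero (f : Fin 13 → K) : gv f 0 = f 12 * (f 10)⁻¹ := by
  simp [gv, wv, gword]

@[simp] theorem gv_one (f : Fin 13 → K) : gv f 1 = f 10 * (f 12)⁻¹ := by
  simp [gv, wv, gword]

@[simp] theorem gv_two (f : Fin 13 → K) : gv f 2 = f 12 * f 12 * (f 10)⁻¹ * (f 10)⁻¹ := by
  simp [gv, wv, gword, mul_assoc]

@[simp] theorem gv_three (f : Fin 13 → K) : gv f 3 = f 10 * f 10 * (f 12)⁻¹ * (f 12)⁻¹ := by
  simp [gv, wv, gword, mul_assoc]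

theorem wv_ginv (f : Fin 13 → K) (g : Fin 4) : wv f (ginv g) = (gv f g)⁻¹ := by
  fin_cases g <;> simp [gv, wv, gword, ginv, mul_assoc]

/-- right hand side of a polygon -/
def pv (f : Fin 13 → K) (p : Poly) : K :=
  f p.al * f p.be * f p.c ^ glen p.g * f p.be' * f p.al'

/-- the polygon relation -/
def PRel (f : Fin 13 → K) (p : Poly) : Prop :=
  gv f p.g * f p.j * (gv f p.g)⁻¹ = if p.sg then pv f p else (pv f p)⁻¹

/-- the defining relations of the group -/
structure Rels (f : Fin 13 → K) : Prop where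
  uv : f 10 * f 11 = f 11 * f 10
  us : f 10 * f 12 = f 12 * f 11
  defs : ∀ d ∈ defL, f d.1 * f d.2.1 * f d.2.2.1 * f d.2.2.2 = 1
  polys : ∀ p ∈ polyL, PRel f p

/-- the relators -/
def relL (f : Fin 13 → K) : List K :=
  [f 10 * f 11 * (f 11 * f 10)⁻¹, f 10 * f 12 * (f 12 * f 11)⁻¹] ++
    defL.map (fun d => f d.1 * f d.2.1 * f d.2.2.1 * f d.2.2.2) ++
    polyL.map (fun p => gv f p.g * f p.j * (gv f p.g)⁻¹ * (if p.sg then pv f p else (pv f p)⁻¹)⁻¹)

theorem relL_one (f : Fin 13 → K) : (∀ r ∈ relL f, r = 1) ↔ Rels f := by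
  constructor
  · intro h
    refine ⟨?_, ?_, ?_, ?_⟩
    · exact mul_inv_eq_one.mp (h _ (by simp [relL]))
    · exact mul_inv_eq_one.mp (h _ (by simp [relL]))
    · intro d hd
      refine h _ ?_
      simp only [relL, List.mem_append, List.mem_map]
      exact Or.inl (Or.inr ⟨d, hd, rfl⟩)
    · intro p hp
      refine mul_inv_eq_one.mp (h _ ?_)
      simp only [relL, List.mem_append, List.mem_map]
      exact Or.inr ⟨p, hp, rfl⟩
  · intro h r hr
    simp only [relL, List.mem_append, List.mem_map, List.mem_cons, List.not_mem_nil, or_false] at hr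
    rcases hr with ((rfl | rfl) | ⟨d, hd, rfl⟩) | ⟨p, hp, rfl⟩
    · exact mul_inv_eq_one.mpr h.uv
    · exact mul_inv_eq_one.mpr h.us
    · exact h.defs d hd
    · exact mul_inv_eq_one.mpr (h.polys p hp)

variable {K' : Type} [Group K']

theorem map_lv (h : K →* K') (f : Fin 13 → K) (l : Lt) : h (lv f l) = lv (h ∘ f) l := by
  obtain ⟨i, s⟩ := l
  cases s <;> simp

theorem map_wv (h : K →* K') (f : Fin 13 → K) (l : List Lt) : h (wv f l) = wv (h ∘ f) l := by
  unfold wv
  rw [map_list_prod, List.map_map]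
  congr 2
  funext x
  exact map_lv h f x

theorem map_gv (h : K →* K') (f : Fin 13 → K) (g : Fin 4) : h (gv f g) = gv (h ∘ f) g :=
  map_wv h f _

theorem map_pv (h : K →* K') (f : Fin 13 → K) (p : Poly) : h (pv f p) = pv (h ∘ f) p := by
  simp [pv]

theorem map_relL (h : K →* K') (f : Fin 13 → K) : (relL f).map h = relL (h ∘ f) := by
  unfold relL
  rw [List.map_append, List.map_append, List.map_map, List.map_map]
  congr 1
  · congr 1
    · simp
    · congr 1
      funext d
      simp
  · congr 1
    funext p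
    simp only [Function.comp_apply, map_mul, map_inv, map_gv]
    congr 2
    split_ifs
    · exact map_pv h f p
    · rw [map_inv, map_pv]

theorem Rels.map {f : Fin 13 → K} (hf : Rels f) (h : K →* K') : Rels (h ∘ f) := by
  rw [← relL_one, ← map_relL]
  intro r hr
  obtain ⟨r', hr', rfl⟩ := List.mem_map.mp hr
  rw [(relL_one f).mpr hf r' hr', map_one]

/-- strip relations -/
theorem strip_iff (f : Fin 13 → K) (p : Poly) :
    wv f (top p) * lv f (dn p) = lv f (d0 p) * lv f (bt p) ^ glen p.g ↔ PRel f p := by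
  obtain ⟨g, j, al, be, c, be', al', sg⟩ := p
  have h1 : wv f (top ⟨g, j, al, be, c, be', al', sg⟩) =
      lv f (if sg then (al, false) else (al', true)) * (gv f g * f j * (gv f g)⁻¹) *
        lv f (if sg then (al', false) else (al, true)) := by
    rw [← wv_ginv]
    simp [wv, top, gv, mul_assoc]
  rw [h1]
  unfold PRel pv dn d0 bt
  generalize gv f g * f j * (gv f g)⁻¹ = w
  cases sg
  · simp only [Bool.false_eq_true, if_false, lv_true, lv_false]
    constructor
    · intro h
      have : w = (f al')⁻¹ * (f al' * w * f al * f be) * (f be)⁻¹ * (f al)⁻¹ := by group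
      rw [this, h]
      group
    · intro h
      rw [h]
      group
  · simp only [if_true, lv_true, lv_false]
    constructor
    · intro h
      have : w = f al * ((f al)⁻¹ * w * (f al')⁻¹ * (f be')⁻¹) * f be' * f al' := by group
      rw [this, h]
      group
    · intro h
      rw [h]
      group

theorem strip_of_squares (c : K) : ∀ (l : List K) (F : ℕ → K),
    (∀ (i : ℕ) (h : i < l.length), l[i] * F (i + 1) = F i * c) →
    l.prod * F l.length = F 0 * c ^ l.length := by
  intro l
  induction l with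
  | nil =>
    intro F _
    simp
  | cons a l ih =>
    intro F h
    have h1 := ih (fun i => F (i + 1)) (fun i hi => by
      have := h (i + 1) (by simpa using hi)
      simpa using this)
    have h2 := h 0 (by simp)
    simp only [List.getElem_cons_zero, zero_add] at h2 h1
    rw [List.prod_cons, List.length_cons, mul_assoc, h1, ← mul_assoc, h2, pow_succ', mul_assoc]

theorem squares_of_strip (l : List K) (d c : K) (i : ℕ) (h : i < l.length) :
    l[i] * (((l.take (i + 1)).prod)⁻¹ * d * c ^ (i + 1)) = ((l.take i).prod)⁻¹ * d * c ^ i * c := by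
  rw [List.take_add_one, List.getElem?_eq_getElem h]
  simp only [Option.toList_some, List.prod_append, List.prod_singleton, mul_inv_rev, pow_succ]
  group

end group

/-- the group -/
abbrev K2 : Type := PresentedGroup {r | r ∈ relL (FreeGroup.of : Fin 13 → FreeGroup (Fin 13))}

/-- the generators -/
def kg (i : Fin 13) : K2 := PresentedGroup.of i

theorem kg_rels : Rels kg := by
  rw [← relL_one]
  have h1 : kg = PresentedGroup.mk {r | r ∈ relL (FreeGroup.of : Fin 13 → FreeGroup (Fin 13))} ∘
    FreeGroup.of := rfl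
  rw [h1, ← map_relL]
  intro r hr
  obtain ⟨r', hr', rfl⟩ := List.mem_map.mp hr
  exact PresentedGroup.one_of_mem hr'

section K2lift

variable {K : Type} [Group K]

/-- homomorphisms out of the group -/
def K2lift (f : Fin 13 → K) (hf : Rels f) : K2 →* K :=
  PresentedGroup.toGroup (f := f) (by
    intro r hr
    have h2 : (FreeGroup.lift f : FreeGroup (Fin 13) →* K) ∘ FreeGroup.of = f := by
      funext i
      simp
    have h3 := (relL_one f).mpr hf
    rw [← h2, ← map_relL] at h3
    exact h3 _ (List.mem_map.mpr ⟨r, hr, rfl⟩))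

@[simp] theorem K2lift_kg (f : Fin 13 → K) (hf : Rels f) (i : Fin 13) : K2lift f hf (kg i) = f i :=
  PresentedGroup.toGroup.of _

theorem K2_ext {f g : K2 →* K} (h : ∀ i, f (kg i) = g (kg i)) : f = g :=
  PresentedGroup.ext h

end K2lift

/-! ### The square complex -/

/-- the darts -/
abbrev Dart : Type := (Fin 13 ⊕ (Fin 12 × Fin 10)) × Bool

/-- inversion of darts -/
def dinv (d : Dart) : Dart := (d.1, !d.2)

theorem dinv_dinv (d : Dart) : dinv (dinv d) = d := by
  simp [dinv]

/-- code of a dart -/
def code : Dart → ℕ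
  | (.inl i, s) => 2 * i.val + s.toNat
  | (.inr (k, i), s) => 26 + 2 * (10 * k.val + i.val) + s.toNat

theorem toNat_inj' (a b : Bool) (h : a.toNat = b.toNat) : a = b := by
  cases a <;> cases b <;> simp_all

theorem code_inj : Function.Injective code := by
  rintro ⟨(i | ⟨k, i⟩), s⟩ ⟨(i' | ⟨k', i'⟩), s'⟩ h
  · simp only [code] at h
    have h1 : s.toNat < 2 := Bool.toNat_lt s
    have h2 : s'.toNat < 2 := Bool.toNat_lt s'
    have h3 : i.val = i'.val := by omega
    have h4 : s.toNat = s'.toNat := by omega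
    rw [Fin.ext h3, toNat_inj' _ _ h4]
  · simp only [code] at h
    have h1 : s.toNat < 2 := Bool.toNat_lt s
    omega
  · simp only [code] at h
    have h1 : s'.toNat < 2 := Bool.toNat_lt s'
    omega
  · simp only [code] at h
    have h1 : s.toNat < 2 := Bool.toNat_lt s
    have h2 : s'.toNat < 2 := Bool.toNat_lt s'
    have h3 : k.val = k'.val := by omega
    have h5 : i.val = i'.val := by omega
    have h4 : s.toNat = s'.toNat := by omega
    rw [Fin.ext h3, Fin.ext h5, toNat_inj' _ _ h4]

theorem code_lt (d : Dart) : code d < 266 := by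
  obtain ⟨(i | ⟨k, i⟩), s⟩ := d
  · simp only [code]
    have h1 : s.toNat < 2 := Bool.toNat_lt s
    omega
  · simp only [code]
    have h1 : s.toNat < 2 := Bool.toNat_lt s
    omega

/-- base darts -/
def bd (l : Lt) : Dart := (.inl l.1, l.2)

/-- verticals of a strip -/
def vd (k : Fin 12) (i : ℕ) : Dart :=
  if i = 0 then bd (d0 (poly k))
  else if i < glen (poly k).g then (.inr (k, Fin.ofNat 10 (i - 1)), true)
  else bd (dn (poly k))

/-- squares of a strip -/
def stripSq (k : Fin 12) : List (Dart × Dart × Dart × Dart) :=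
  (List.range (glen (poly k).g)).map fun i =>
    (bd ((top (poly k)).getD i (0, true)), vd k (i + 1), vd k i, bd (bt (poly k)))

/-- the list of all squares -/
def sqL : List (Dart × Dart × Dart × Dart) :=
  [(bd (10, true), bd (11, true), bd (11, true), bd (10, true)),
    (bd (10, true), bd (12, true), bd (12, true), bd (11, true))] ++
  defL.map (fun d => (bd (d.1, true), bd (d.2.1, true), bd (d.2.2.2, false), bd (d.2.2.1, false))) ++
  (List.finRange 12).flatMap stripSq

set_option maxRecDepth 100000 in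
theorem sqL_chk : SqSys.chk 266
    ((SqSys.entries dinv sqL).map fun e => (code e.1.1, code e.1.2)) = true := by
  decide +kernel

theorem sqL_spec : ((SqSys.entries dinv sqL).map Prod.fst).Nodup ∧
    (∀ e ∈ SqSys.entries dinv sqL, e.1.1 ≠ e.1.2) ∧
    (∀ a b c : Dart, (a, b) ∈ (SqSys.entries dinv sqL).map Prod.fst →
      (b, c) ∈ (SqSys.entries dinv sqL).map Prod.fst →
      (a, c) ∈ (SqSys.entries dinv sqL).map Prod.fst → False) :=
  SqSys.chk_spec code code_inj 266 code_lt sqL sqL_chk

/-- the square system -/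
def Y : SqSys Dart := SqSys.ofList dinv_dinv sqL sqL_spec.1 sqL_spec.2.1 sqL_spec.2.2

theorem top_getD (p : Poly) (i : ℕ) (h : i < (top p).length) : (top p).getD i (0, true) = (top p)[i] := by
  rw [List.getD_eq_getElem?_getD, List.getElem?_eq_getElem h]
  rfl

theorem mem_sqL_strip {k : Fin 12} {i : ℕ} (h : i < glen (poly k).g) :
    (bd ((top (poly k)).getD i (0, true)), vd k (i + 1), vd k i, bd (bt (poly k))) ∈ sqL := by
  unfold sqL
  refine List.mem_append_right _ (List.mem_flatMap.mpr ⟨k, List.mem_finRange k, ?_⟩)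
  exact List.mem_map.mpr ⟨i, List.mem_range.mpr h, rfl⟩

theorem sqL_cases {P : Dart → Dart → Dart → Dart → Prop}
    (h1 : P (bd (10, true)) (bd (11, true)) (bd (11, true)) (bd (10, true)))
    (h2 : P (bd (10, true)) (bd (12, true)) (bd (12, true)) (bd (11, true)))
    (h3 : ∀ d ∈ defL, P (bd (d.1, true)) (bd (d.2.1, true)) (bd (d.2.2.2, false))
      (bd (d.2.2.1, false)))
    (h4 : ∀ (k : Fin 12) (i : ℕ), i < glen (poly k).g →
      P (bd ((top (poly k)).getD i (0, true))) (vd k (i + 1)) (vd k i) (bd (bt (poly k))))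
    (x y X Y : Dart) (h : (x, y, X, Y) ∈ sqL) : P x y X Y := by
  unfold sqL at h
  rcases List.mem_append.mp h with h | h
  · rcases List.mem_append.mp h with h | h
    · simp only [List.mem_cons, Prod.mk.injEq, List.not_mem_nil, or_false] at h
      rcases h with ⟨rfl, rfl, rfl, rfl⟩ | ⟨rfl, rfl, rfl, rfl⟩
      · exact h1
      · exact h2
    · obtain ⟨d, hd, h⟩ := List.mem_map.mp h
      simp only [Prod.mk.injEq] at h
      obtain ⟨rfl, rfl, rfl, rfl⟩ := h
      exact h3 d hd
  · obtain ⟨k, _, h⟩ := List.mem_flatMap.mp h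
    obtain ⟨i, hi, h⟩ := List.mem_map.mp h
    simp only [Prod.mk.injEq] at h
    obtain ⟨rfl, rfl, rfl, rfl⟩ := h
    exact h4 k i (List.mem_range.mp hi)

section Ylift

variable {K : Type} [Group K]

/-- value of the verticals -/
def fv (f : Fin 13 → K) (k : Fin 12) (i : ℕ) : K :=
  ((((top (poly k)).map (lv f)).take i).prod)⁻¹ * lv f (d0 (poly k)) * lv f (bt (poly k)) ^ i

/-- value of the darts -/
def fd (f : Fin 13 → K) : Dart → K
  | (.inl i, s) => lv f (i, s)
  | (.inr (k, i), true) => fv f k (i.val + 1)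
  | (.inr (k, i), false) => (fv f k (i.val + 1))⁻¹

theorem fd_bd (f : Fin 13 → K) (l : Lt) : fd f (bd l) = lv f l := rfl

theorem fd_dinv (f : Fin 13 → K) (d : Dart) : fd f (dinv d) = (fd f d)⁻¹ := by
  obtain ⟨(i | ⟨k, i⟩), s⟩ := d
  · cases s <;> simp [dinv, fd]
  · cases s <;> simp [dinv, fd]

theorem fd_vd (f : Fin 13 → K) (hf : Rels f) (k : Fin 12) (i : ℕ) (hi : i ≤ glen (poly k).g) :
    fd f (vd k i) = fv f k i := by
  have hlen : glen (poly k).g ≤ 11 := by
    have : ∀ g : Fin 4, glen g ≤ 11 := by decide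
    exact this _
  unfold vd
  split_ifs with h1 h2
  · subst h1
    rw [fd_bd]
    simp [fv]
  · simp only [fd, Fin.ofNat]
    rw [Nat.mod_eq_of_lt (by omega)]
    congr 1
    omega
  · have h3 : i = glen (poly k).g := by omega
    subst h3
    rw [fd_bd]
    have h4 := (strip_iff f (poly k)).mpr (hf.polys _ (poly_mem k))
    unfold fv
    rw [List.take_of_length_le (by rw [List.length_map, length_top]), mul_assoc, ← h4]
    unfold wv
    simp

theorem fd_sq (f : Fin 13 → K) (hf : Rels f) (x y X Z : Dart) (h : (x, y, X, Z) ∈ sqL) :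
    fd f x * fd f y = fd f X * fd f Z := by
  refine sqL_cases (P := fun x y X Z => fd f x * fd f y = fd f X * fd f Z) ?_ ?_ ?_ ?_ x y X Z h
  · exact hf.uv
  · exact hf.us
  · intro d hd
    have h1 := hf.defs d hd
    simp only [fd_bd, lv_true, lv_false]
    rw [mul_assoc, mul_eq_one_iff_eq_inv] at h1
    rw [h1]
    group
  · intro k i hi
    rw [fd_vd f hf k i hi.le, fd_vd f hf k (i + 1) hi, fd_bd, fd_bd]
    have hi' : i < (top (poly k)).length := by
      rw [length_top]
      exact hi
    rw [top_getD _ _ hi']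
    have h1 := squares_of_strip ((top (poly k)).map (lv f)) (lv f (d0 (poly k)))
      (lv f (bt (poly k))) i (by simpa using hi')
    rw [List.getElem_map] at h1
    exact h1

/-- homomorphisms out of the group of the square complex -/
def Ylift (f : Fin 13 → K) (hf : Rels f) : Y.Grp →* K :=
  SqSys.lift (fd f) (fd_dinv f) (SqSys.ofList_rel (fd f) (fd_dinv f) (fd_sq f hf))

theorem Ylift_gn (f : Fin 13 → K) (hf : Rels f) (d : Dart) : Ylift f hf (Y.gn d) = fd f d :=
  SqSys.lift_gn _ _ _ d

end Ylift

/-- the base generators in the group of the square complex -/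
def yg (i : Fin 13) : Y.Grp := Y.gn (bd (i, true))

theorem lv_yg (l : Lt) : lv yg l = Y.gn (bd l) := by
  obtain ⟨i, s⟩ := l
  cases s
  · have h := SqSys.gn_inv (S := Y) (bd (i, true))
    exact h.symm
  · rfl

theorem yg_sq {x y X Z : Dart} (h : (x, y, X, Z) ∈ sqL) :
    Y.gn x * Y.gn y = Y.gn X * Y.gn Z := SqSys.gn_sq (S := Y) (SqSys.ofList_sq h)

theorem yg_rels : Rels yg where
  uv := yg_sq (by simp [sqL])
  us := yg_sq (by simp [sqL])
  defs := fun d hd => by
    have h1 : Y.gn (bd (d.1, true)) * Y.gn (bd (d.2.1, true)) =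
        Y.gn (bd (d.2.2.2, false)) * Y.gn (bd (d.2.2.1, false)) := by
      apply yg_sq
      unfold sqL
      exact List.mem_append_left _ (List.mem_append_right _ (List.mem_map.mpr ⟨d, hd, rfl⟩))
    rw [← lv_yg, ← lv_yg, ← lv_yg, ← lv_yg] at h1
    simp only [lv_true, lv_false] at h1
    rw [h1]
    group
  polys := fun p hp => by
    obtain ⟨k, hk, rfl⟩ := List.mem_iff_getElem.mp hp
    have hk' : k < 12 := by simpa [polyL] using hk
    show PRel yg (poly ⟨k, hk'⟩)
    generalize (⟨k, hk'⟩ : Fin 12) = k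
    rw [← strip_iff]
    have h1 := strip_of_squares (lv yg (bt (poly k))) ((top (poly k)).map (lv yg))
      (fun i => Y.gn (vd k i)) (fun i hi => by
        rw [List.length_map] at hi
        rw [List.getElem_map, lv_yg, lv_yg, ← top_getD _ _ hi]
        apply yg_sq
        apply mem_sqL_strip
        rw [← length_top]
        exact hi)
    rw [List.length_map, length_top] at h1
    have e0 : Y.gn (vd k 0) = lv yg (d0 (poly k)) := by
      rw [lv_yg]
      simp [vd]
    have en : Y.gn (vd k (glen (poly k).g)) = lv yg (dn (poly k)) := by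
      rw [lv_yg]
      simp only [vd, lt_self_iff_false, if_false]
      rw [if_neg]
      have : ∀ g : Fin 4, glen g ≠ 0 := by decide
      exact this _
    simp only [e0, en] at h1
    exact h1

end Pool.Agent.W387
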