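import Pool.Agent.W387.Alg
import Pool.Agent.W387.TH

/-!
Subgroups of the explicit group, and the embedding of the trivial HNN extension.
-/

set_option autoImplicit false

namespace Pool.Agent.W387

section general

variable {G : Type} [Group G]

theorem mem_norm_closure {S : Set G} {g : G} (h1 : ∀ s ∈ S, g * s * g⁻¹ ∈ Subgroup.closure S)
    (h2 : ∀ s ∈ S, g⁻¹ * s * g ∈ Subgroup.closure S) :
    ∀ n, n ∈ Subgroup.closure S ↔ g * n * g⁻¹ ∈ Subgroup.closure S := by
  have aux : ∀ g : G, (∀ s ∈ S, g * s * g⁻¹ ∈ Subgroup.closure S) →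
      ∀ n ∈ Subgroup.closure S, g * n * g⁻¹ ∈ Subgroup.closure S := by
    intro g h n hn
    induction hn using Subgroup.closure_induction with
    | mem x hx => exact h x hx
    | one => simp
    | mul x y _ _ hx hy =>
      have e : g * (x * y) * g⁻¹ = (g * x * g⁻¹) * (g * y * g⁻¹) := by group
      rw [e]
      exact mul_mem hx hy
    | inv x _ hx =>
      have e : g * x⁻¹ * g⁻¹ = (g * x * g⁻¹)⁻¹ := by group
      rw [e]
      exact inv_mem hx
  intro n
  constructor
  · exact aux g h1 n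
  · intro h
    have h3 := aux g⁻¹ (fun s hs => by rw [inv_inv]; exact h2 s hs) _ h
    have e : g⁻¹ * (g * n * g⁻¹) * g⁻¹⁻¹ = n := by group
    rwa [e] at h3

/-- the normaliser of a subgroup -/
def nrm (N : Subgroup G) : Subgroup G where
  carrier := {g | ∀ n, n ∈ N ↔ g * n * g⁻¹ ∈ N}
  one_mem' := fun n => by simp
  mul_mem' := fun {a b} ha hb n => by
    rw [hb n, ha (b * n * b⁻¹)]
    have e : a * (b * n * b⁻¹) * a⁻¹ = a * b * n * (a * b)⁻¹ := by group
    rw [e]
  inv_mem' := fun {a} ha n => by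
    rw [ha (a⁻¹ * n * a⁻¹⁻¹)]
    have e : a * (a⁻¹ * n * a⁻¹⁻¹) * a⁻¹ = n := by group
    rw [e]

theorem mem_nrm {N : Subgroup G} {g : G} : g ∈ nrm N ↔ ∀ n, n ∈ N ↔ g * n * g⁻¹ ∈ N := Iff.rfl

/-- the product of a subgroup with a subgroup of its normaliser -/
def prodSub (N F : Subgroup G) (h : F ≤ nrm N) : Subgroup G where
  carrier := {k | ∃ n ∈ N, ∃ f ∈ F, k = n * f}
  one_mem' := ⟨1, one_mem _, 1, one_mem _, by simp⟩
  mul_mem' := by
    rintro _ _ ⟨n, hn, f, hf, rfl⟩ ⟨n', hn', f', hf', rfl⟩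
    refine ⟨n * (f * n' * f⁻¹), mul_mem hn ((h hf n').mp hn'), f * f', mul_mem hf hf', by group⟩
  inv_mem' := by
    rintro _ ⟨n, hn, f, hf, rfl⟩
    refine ⟨f⁻¹ * n⁻¹ * f⁻¹⁻¹, (h (inv_mem hf) n⁻¹).mp (inv_mem hn), f⁻¹, inv_mem hf, by group⟩

theorem mem_prodSub {N F : Subgroup G} {h : F ≤ nrm N} {k : G} :
    k ∈ prodSub N F h ↔ ∃ n ∈ N, ∃ f ∈ F, k = n * f := Iff.rfl

end general

/-- the retraction killing the `a`s -/
def rho : K2 →* K2 := K2lift (fun i => if i.val < 10 then 1 else kg i)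
  (Rels.of_trivial kg_rels.uv kg_rels.us (fun i hi => by simp [hi]))

theorem rho_lt {i : Fin 13} (h : i.val < 10) : rho (kg i) = 1 := by
  unfold rho
  rw [K2lift_kg, if_pos h]

theorem rho_ge {i : Fin 13} (h : 10 ≤ i.val) : rho (kg i) = kg i := by
  unfold rho
  rw [K2lift_kg, if_neg (by omega)]

/-- exponent sum in `u`, `v`, `s` -/
def chi : K2 →* Multiplicative ℤ :=
  K2lift (fun i => if i.val < 10 then 1 else Multiplicative.ofAdd 1)
    (Rels.of_trivial rfl rfl (fun i hi => by simp [hi]))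

theorem chi_lt {i : Fin 13} (h : i.val < 10) : chi (kg i) = 1 := by
  unfold chi
  rw [K2lift_kg, if_pos h]

theorem chi_ge {i : Fin 13} (h : 10 ≤ i.val) : chi (kg i) = Multiplicative.ofAdd 1 := by
  unfold chi
  rw [K2lift_kg, if_neg (by omega)]

/-- the subgroup generated by `u`, `v`, `s` -/
def C1 : Subgroup K2 := Subgroup.closure {kg 10, kg 11, kg 12}

theorem kg_mem_C1 {i : Fin 13} (h : 10 ≤ i.val) : kg i ∈ C1 := by
  apply Subgroup.subset_closure
  have h2 : i = 10 ∨ i = 11 ∨ i = 12 := by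
    revert i
    decide
  rcases h2 with rfl | rfl | rfl <;> simp

/-- the subgroup generated by the `a`s -/
def N2 : Subgroup K2 := Subgroup.closure {kg 0, kg 1, kg 2}

theorem kg_mem_N2 {i : Fin 13} (h : i.val < 10) : kg i ∈ N2 := by
  have k0 : kg 0 ∈ N2 := Subgroup.subset_closure (by simp)
  have k1 : kg 1 ∈ N2 := Subgroup.subset_closure (by simp)
  have k2 : kg 2 ∈ N2 := Subgroup.subset_closure (by simp)
  have step : ∀ a b c d : Fin 13, (a, b, c, d) ∈ defL → kg a ∈ N2 → kg b ∈ N2 → kg c ∈ N2 →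
      kg d ∈ N2 := by
    intro a b c d h ha hb hc
    have h1 := kg_rels.defs _ h
    simp only at h1
    rw [eq_inv_of_mul_eq_one_right h1]
    exact inv_mem (mul_mem (mul_mem ha hb) hc)
  have k3 := step 0 2 1 3 (by simp [defL]) k0 k2 k1
  have k4 := step 3 2 0 4 (by simp [defL]) k3 k2 k0
  have k5 := step 2 4 0 5 (by simp [defL]) k2 k4 k0
  have k6 := step 3 5 4 6 (by simp [defL]) k3 k5 k4
  have k7 := step 3 1 2 7 (by simp [defL]) k3 k1 k2
  have k8 := step 6 4 7 8 (by simp [defL]) k6 k4 k7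
  have k9 := step 6 1 8 9 (by simp [defL]) k6 k1 k8
  have h2 : i = 0 ∨ i = 1 ∨ i = 2 ∨ i = 3 ∨ i = 4 ∨ i = 5 ∨ i = 6 ∨ i = 7 ∨ i = 8 ∨ i = 9 := by
    revert i
    decide
  rcases h2 with rfl | rfl | rfl | rfl | rfl | rfl | rfl | rfl | rfl | rfl <;> assumption

/-- the element `x` -/
def xx : K2 := gv kg 2

/-- the element `y` -/
def yy : K2 := gv kg 0

theorem xx_eq : xx = kg 12 * kg 12 * (kg 10)⁻¹ * (kg 10)⁻¹ := gv_two _

theorem yy_eq : yy = kg 12 * (kg 10)⁻¹ := gv_zero _

theorem gv_three_eq : gv kg 3 = xx⁻¹ := by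
  rw [gv_three, xx_eq]
  simp [mul_assoc]

theorem gv_one_eq : gv kg 1 = yy⁻¹ := by
  rw [gv_one, yy_eq]
  simp

/-- the subgroup generated by `x` and `y` -/
def F1 : Subgroup K2 := Subgroup.closure {xx, yy}

theorem xx_mem : xx ∈ F1 := Subgroup.subset_closure (by simp)

theorem yy_mem : yy ∈ F1 := Subgroup.subset_closure (by simp)

theorem F1_le_C1 : F1 ≤ C1 := by
  unfold F1
  rw [Subgroup.closure_le]
  have h10 : kg 10 ∈ C1 := kg_mem_C1 (by decide)
  have h12 : kg 12 ∈ C1 := kg_mem_C1 (by decide)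
  intro g hg
  simp only [Set.mem_insert_iff, Set.mem_singleton_iff] at hg
  rcases hg with rfl | rfl
  · rw [xx_eq]
    exact mul_mem (mul_mem (mul_mem h12 h12) (inv_mem h10)) (inv_mem h10)
  · rw [yy_eq]
    exact mul_mem h12 (inv_mem h10)

theorem conj_mem_N2 (g : Fin 4) (j : Fin 13) (hj : j.val < 3) :
    gv kg g * kg j * (gv kg g)⁻¹ ∈ N2 := by
  have h1 : ∃ k : Fin 12, (poly k).g = g ∧ (poly k).j = j := by
    have h2 : ∀ (g : Fin 4) (j : Fin 13), j.val < 3 → ∃ k : Fin 12, (poly k).g = g ∧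
        (poly k).j = j := by decide
    exact h2 g j hj
  obtain ⟨k, rfl, rfl⟩ := h1
  have h3 := kg_rels.polys _ (poly_mem k)
  unfold PRel at h3
  rw [h3]
  obtain ⟨k1, k2, k3, k4, k5, k6⟩ := poly_lt k
  have h4 : pv kg (poly k) ∈ N2 := by
    unfold pv
    exact mul_mem (mul_mem (mul_mem (mul_mem (kg_mem_N2 k2) (kg_mem_N2 k3))
      (pow_mem (kg_mem_N2 k4) _)) (kg_mem_N2 k5)) (kg_mem_N2 k6)
  split_ifs
  · exact h4
  · exact inv_mem h4

theorem F1_le_nrm : F1 ≤ nrm N2 := by
  unfold F1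
  rw [Subgroup.closure_le]
  have key : ∀ g g' : Fin 4, gv kg g' = (gv kg g)⁻¹ → gv kg g ∈ nrm N2 := by
    intro g g' h
    apply mem_norm_closure
    · intro s hs
      simp only [Set.mem_insert_iff, Set.mem_singleton_iff] at hs
      rcases hs with rfl | rfl | rfl
      · exact conj_mem_N2 g 0 (by decide)
      · exact conj_mem_N2 g 1 (by decide)
      · exact conj_mem_N2 g 2 (by decide)
    · intro s hs
      have h2 : gv kg g = (gv kg g')⁻¹ := by rw [h, inv_inv]
      rw [← h, h2]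
      simp only [Set.mem_insert_iff, Set.mem_singleton_iff] at hs
      rcases hs with rfl | rfl | rfl
      · exact conj_mem_N2 g' 0 (by decide)
      · exact conj_mem_N2 g' 1 (by decide)
      · exact conj_mem_N2 g' 2 (by decide)
  intro g hg
  simp only [Set.mem_insert_iff, Set.mem_singleton_iff] at hg
  rcases hg with rfl | rfl
  · exact key 2 3 gv_three_eq
  · exact key 0 1 gv_one_eq

/-- the subgroup `B` -/
def B2 : Subgroup K2 := prodSub N2 F1 F1_le_nrm

theorem N2_le_B2 : N2 ≤ B2 := fun n hn => ⟨n, hn, 1, one_mem _, by simp⟩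

theorem F1_le_B2 : F1 ≤ B2 := fun n hn => ⟨1, one_mem _, n, hn, by simp⟩

theorem rho_N2 {n : K2} (h : n ∈ N2) : rho n = 1 := by
  unfold N2 at h
  induction h using Subgroup.closure_induction with
  | mem x hx =>
    simp only [Set.mem_insert_iff, Set.mem_singleton_iff] at hx
    rcases hx with rfl | rfl | rfl
    · exact rho_lt (by decide)
    · exact rho_lt (by decide)
    · exact rho_lt (by decide)
  | one => simp
  | mul x y _ _ hx hy => rw [map_mul, hx, hy, mul_one]
  | inv x _ hx => rw [map_inv, hx, inv_one]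

theorem rho_C1 {c : K2} (h : c ∈ C1) : rho c = c := by
  unfold C1 at h
  induction h using Subgroup.closure_induction with
  | mem x hx =>
    simp only [Set.mem_insert_iff, Set.mem_singleton_iff] at hx
    rcases hx with rfl | rfl | rfl
    · exact rho_ge (by decide)
    · exact rho_ge (by decide)
    · exact rho_ge (by decide)
  | one => simp
  | mul x y _ _ hx hy => rw [map_mul, hx, hy]
  | inv x _ hx => rw [map_inv, hx]

theorem B2_inf_C1 {b : K2} (hb : b ∈ B2) (hc : b ∈ C1) : b ∈ F1 := by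
  obtain ⟨n, hn, f, hf, rfl⟩ := hb
  have h1 := rho_C1 hc
  rw [map_mul, rho_N2 hn, one_mul, rho_C1 (F1_le_C1 hf)] at h1
  rw [← h1]
  exact hf

theorem chi_F1 {f : K2} (h : f ∈ F1) : chi f = 1 := by
  unfold F1 at h
  have h10 : chi (kg 10) = Multiplicative.ofAdd 1 := chi_ge (by decide)
  have h12 : chi (kg 12) = Multiplicative.ofAdd 1 := chi_ge (by decide)
  induction h using Subgroup.closure_induction with
  | mem x hx =>
    simp only [Set.mem_insert_iff, Set.mem_singleton_iff] at hx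
    rcases hx with rfl | rfl
    · rw [xx_eq]
      simp only [map_mul, map_inv, h10, h12]
      rfl
    · rw [yy_eq]
      simp only [map_mul, map_inv, h10, h12]
      rfl
  | one => simp
  | mul x y _ _ hx hy => rw [map_mul, hx, hy, mul_one]
  | inv x _ hx => rw [map_inv, hx, inv_one]

/-! `u` normalises `F1` -/

theorem kg12_eq : kg 12 = yy * kg 10 := by
  rw [yy_eq]
  group

/-- the element `v u⁻¹` -/
def h1 : K2 := kg 11 * (kg 10)⁻¹

theorem v_eq : kg 11 = (kg 12)⁻¹ * kg 10 * kg 12 := by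
  rw [mul_assoc, kg_rels.us]
  simp

theorem h1_eq : h1 = yy⁻¹ * yy⁻¹ * xx := by
  have h2 := kg_rels.uv
  rw [v_eq] at h2
  unfold h1
  rw [v_eq, yy_eq, xx_eq]
  calc (kg 12)⁻¹ * kg 10 * kg 12 * (kg 10)⁻¹
      = ((kg 12)⁻¹ * kg 10 * kg 12 * kg 10) * (kg 10)⁻¹ * (kg 10)⁻¹ := by simp
    _ = (kg 10 * ((kg 12)⁻¹ * kg 10 * kg 12)) * (kg 10)⁻¹ * (kg 10)⁻¹ := by rw [h2]
    _ = _ := by simp [mul_assoc]

theorem h1_mem : h1 ∈ F1 := by
  rw [h1_eq]
  exact mul_mem (mul_mem (inv_mem yy_mem) (inv_mem yy_mem)) xx_mem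

theorem xx_eq' : xx = yy * yy * h1 := by
  rw [h1_eq]
  simp [mul_assoc]

theorem conj_h1 : kg 10 * h1 * (kg 10)⁻¹ = h1 := by
  unfold h1
  rw [← mul_assoc, kg_rels.uv]
  simp

theorem conj_h1' : (kg 10)⁻¹ * h1 * kg 10 = h1 := by
  have h := conj_h1
  calc (kg 10)⁻¹ * h1 * kg 10 = (kg 10)⁻¹ * (kg 10 * h1 * (kg 10)⁻¹) * kg 10 := by rw [h]
    _ = h1 := by simp [mul_assoc]

theorem conj_y : kg 10 * yy * (kg 10)⁻¹ = yy⁻¹ * xx := by
  rw [yy_eq, xx_eq]
  simp [mul_assoc]

theorem conj_y' : (kg 10)⁻¹ * yy * kg 10 = yy * h1⁻¹ := by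
  unfold h1
  rw [v_eq, yy_eq]
  simp [mul_assoc]

theorem kg10_mem_nrm : kg 10 ∈ nrm F1 := by
  unfold F1
  apply mem_norm_closure
  · intro s hs
    simp only [Set.mem_insert_iff, Set.mem_singleton_iff] at hs
    have hy : kg 10 * yy * (kg 10)⁻¹ ∈ F1 := by
      rw [conj_y]
      exact mul_mem (inv_mem yy_mem) xx_mem
    rcases hs with rfl | rfl
    · have e : kg 10 * xx * (kg 10)⁻¹ = (kg 10 * yy * (kg 10)⁻¹) * (kg 10 * yy * (kg 10)⁻¹) *
          (kg 10 * h1 * (kg 10)⁻¹) := by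
        rw [xx_eq']
        simp [mul_assoc]
      rw [e, conj_h1]
      exact mul_mem (mul_mem hy hy) h1_mem
    · exact hy
  · intro s hs
    simp only [Set.mem_insert_iff, Set.mem_singleton_iff] at hs
    have hy : (kg 10)⁻¹ * yy * kg 10 ∈ F1 := by
      rw [conj_y']
      exact mul_mem yy_mem (inv_mem h1_mem)
    rcases hs with rfl | rfl
    · have e : (kg 10)⁻¹ * xx * kg 10 = ((kg 10)⁻¹ * yy * kg 10) * ((kg 10)⁻¹ * yy * kg 10) *
          ((kg 10)⁻¹ * h1 * kg 10) := by
        rw [xx_eq']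
        simp [mul_assoc]
      rw [e, conj_h1']
      exact mul_mem (mul_mem hy hy) h1_mem
    · exact hy

theorem C1_decomp {c : K2} (h : c ∈ C1) : ∃ f ∈ F1, ∃ k : ℤ, c = f * kg 10 ^ k := by
  unfold C1 at h
  induction h using Subgroup.closure_induction with
  | mem x hx =>
    simp only [Set.mem_insert_iff, Set.mem_singleton_iff] at hx
    rcases hx with rfl | rfl | rfl
    · exact ⟨1, one_mem _, 1, by simp⟩
    · exact ⟨h1, h1_mem, 1, by unfold h1; simp⟩
    · exact ⟨yy, yy_mem, 1, by rw [yy_eq]; simp⟩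
  | one => exact ⟨1, one_mem _, 0, by simp⟩
  | mul x y _ _ hx hy =>
    obtain ⟨f, hf, k, rfl⟩ := hx
    obtain ⟨f', hf', k', rfl⟩ := hy
    refine ⟨f * (kg 10 ^ k * f' * (kg 10 ^ k)⁻¹),
      mul_mem hf ((zpow_mem kg10_mem_nrm k f').mp hf'), k + k', ?_⟩
    rw [zpow_add]
    simp only [mul_assoc, inv_mul_cancel_left]
  | inv x _ hx =>
    obtain ⟨f, hf, k, rfl⟩ := hx
    refine ⟨kg 10 ^ (-k) * f⁻¹ * (kg 10 ^ (-k))⁻¹,
      (zpow_mem kg10_mem_nrm (-k) f⁻¹).mp (inv_mem hf), -k, ?_⟩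
    rw [inv_mul_cancel_right, mul_inv_rev, zpow_neg]

theorem mem_F1_of_chi {c : K2} (h : c ∈ C1) (hc : chi c = 1) : c ∈ F1 := by
  obtain ⟨f, hf, k, rfl⟩ := C1_decomp h
  have h10 : chi (kg 10) = Multiplicative.ofAdd 1 := chi_ge (by decide)
  rw [map_mul, chi_F1 hf, one_mul, map_zpow, h10] at hc
  have h2 : k = 0 := by
    have h3 := congrArg Multiplicative.toAdd hc
    simpa using h3
  subst h2
  simpa using hf

/-- the group `H` -/
abbrev H2 : Type := TH C1

/-- second component of the embedding -/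
def iota2 : K2 →* H2 :=
  K2lift (tw (fun i => thB C1 (kg i)) 1 (thT C1))
    (Rels.tw (kg_rels.map (thB C1)) rfl rfl (fun _ _ _ => Commute.one_left _)
      (fun _ _ => Commute.one_left _) (fun _ hi => (thB_comm C1 _ (kg_mem_C1 hi)).symm))

theorem iota2_lt {i : Fin 13} (h : i.val < 10) : iota2 (kg i) = thB C1 (kg i) := by
  unfold iota2
  rw [K2lift_kg, tw_lt h]

theorem iota2_ge {i : Fin 13} (h : 10 ≤ i.val) : iota2 (kg i) = thB C1 (kg i) * thT C1 := by
  unfold iota2
  rw [K2lift_kg, tw_ge h]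
  simp

theorem iota2_right (k : K2) : (iota2 k).right = k := by
  have h : SemidirectProduct.rightHom.comp iota2 = MonoidHom.id K2 := by
    apply K2_ext
    intro i
    by_cases hi : i.val < 10
    · simp [iota2_lt hi, thB]
    · simp [iota2_ge (not_lt.mp hi), thB, thT]
  exact DFunLike.congr_fun h k

theorem iota2_N2 {n : K2} (h : n ∈ N2) : iota2 n = thB C1 n := by
  unfold N2 at h
  induction h using Subgroup.closure_induction with
  | mem x hx =>
    simp only [Set.mem_insert_iff, Set.mem_singleton_iff] at hx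
    rcases hx with rfl | rfl | rfl
    · exact iota2_lt (by decide)
    · exact iota2_lt (by decide)
    · exact iota2_lt (by decide)
  | one => simp
  | mul x y _ _ hx hy => rw [map_mul, map_mul, hx, hy]
  | inv x _ hx => rw [map_inv, map_inv, hx]

theorem iota2_F1 {f : K2} (h : f ∈ F1) : iota2 f = thB C1 f := by
  have c10 : iota2 (kg 10) = thB C1 (kg 10) * thT C1 := iota2_ge (by decide)
  have c12 : iota2 (kg 12) = thB C1 (kg 12) * thT C1 := iota2_ge (by decide)
  have k10 : Commute (thB C1 (kg 10)) (thT C1) := thB_comm C1 _ (kg_mem_C1 (by decide))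
  have k12 : Commute (thB C1 (kg 12)) (thT C1) := thB_comm C1 _ (kg_mem_C1 (by decide))
  unfold F1 at h
  induction h using Subgroup.closure_induction with
  | mem x hx =>
    simp only [Set.mem_insert_iff, Set.mem_singleton_iff] at hx
    rcases hx with rfl | rfl
    · have e := wv_tw (f := fun i => thB C1 (kg i)) (p := 1) (t := thT C1)
        (fun _ _ _ => Commute.one_left _) (fun _ _ => Commute.one_left _)
        (fun _ hi => (thB_comm C1 _ (kg_mem_C1 hi)).symm) (gword 2) (gword_ge 2)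
      rw [esum_gword, zpow_zero, mul_one] at e
      have e2 : wv (1 : Fin 13 → TH C1) (gword 2) = 1 := by simp [wv, gword]
      rw [e2, one_mul] at e
      unfold xx gv
      rw [map_wv, map_wv]
      have e3 : (iota2 ∘ kg : Fin 13 → TH C1) = tw (fun i => thB C1 (kg i)) 1 (thT C1) := by
        funext i
        exact K2lift_kg _ _ i
      rw [e3]
      exact e
    · have e := wv_tw (f := fun i => thB C1 (kg i)) (p := 1) (t := thT C1)
        (fun _ _ _ => Commute.one_left _) (fun _ _ => Commute.one_left _)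
        (fun _ hi => (thB_comm C1 _ (kg_mem_C1 hi)).symm) (gword 0) (gword_ge 0)
      rw [esum_gword, zpow_zero, mul_one] at e
      have e2 : wv (1 : Fin 13 → TH C1) (gword 0) = 1 := by simp [wv, gword]
      rw [e2, one_mul] at e
      unfold yy gv
      rw [map_wv, map_wv]
      have e3 : (iota2 ∘ kg : Fin 13 → TH C1) = tw (fun i => thB C1 (kg i)) 1 (thT C1) := by
        funext i
        exact K2lift_kg _ _ i
      rw [e3]
      exact e
  | one => simp
  | mul x y _ _ hx hy => rw [map_mul, map_mul, hx, hy]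
  | inv x _ hx => rw [map_inv, map_inv, hx]

theorem iota2_B2 {b : K2} (h : b ∈ B2) : iota2 b = thB C1 b := by
  obtain ⟨n, hn, f, hf, rfl⟩ := h
  rw [map_mul, map_mul, iota2_N2 hn, iota2_F1 hf]

/-- the cocycle -/
def del (k : K2) : FreeGroup (K2 ⧸ C1) := (iota2 k).left

theorem del_mul (k k' : K2) : del (k * k') = del k * thAct C1 k (del k') := by
  unfold del
  rw [map_mul, SemidirectProduct.mul_left, iota2_right]

theorem del_B2 {b : K2} (h : b ∈ B2) : del b = 1 := by
  unfold del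
  rw [iota2_B2 h]
  simp [thB]

theorem del_lv {i : Fin 13} (h : 10 ≤ i.val) (s : Bool) :
    del (lv kg (i, s)) = FreeGroup.mk [(((1 : K2) : K2 ⧸ C1), s)] := by
  have h1 : del (kg i) = FreeGroup.of ((1 : K2) : K2 ⧸ C1) := by
    unfold del
    rw [iota2_ge h]
    unfold thB thT
    rw [SemidirectProduct.mul_left, SemidirectProduct.left_inr, SemidirectProduct.left_inl,
      SemidirectProduct.right_inr, thAct_of, one_mul]
    congr 1
    show ((kg i * 1 : K2) : K2 ⧸ C1) = ((1 : K2) : K2 ⧸ C1)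
    rw [QuotientGroup.eq]
    simpa using (kg_mem_C1 h)
  cases s
  · rw [lv_false]
    have h2 := del_mul (kg i)⁻¹ (kg i)
    rw [inv_mul_cancel, h1, thAct_of] at h2
    have h3 : del (1 : K2) = 1 := del_B2 (one_mem _)
    rw [h3] at h2
    have h4 : ((kg i)⁻¹ • ((1 : K2) : K2 ⧸ C1)) = ((1 : K2) : K2 ⧸ C1) := by
      show (((kg i)⁻¹ * 1 : K2) : K2 ⧸ C1) = ((1 : K2) : K2 ⧸ C1)
      rw [QuotientGroup.eq]
      simpa using (kg_mem_C1 h)
    rw [h4] at h2
    rw [eq_inv_of_mul_eq_one_left h2.symm]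
    rfl
  · rw [lv_true, h1]
    rfl

/-- translation of words -/
def trw (g : K2) (W : List ((K2 ⧸ C1) × Bool)) : List ((K2 ⧸ C1) × Bool) :=
  W.map (fun x => (g • x.1, x.2))

theorem thAct_mk (g : K2) (W : List ((K2 ⧸ C1) × Bool)) :
    thAct C1 g (FreeGroup.mk W) = FreeGroup.mk (trw g W) := by
  induction W with
  | nil => exact map_one _
  | cons x W ih =>
    obtain ⟨q, s⟩ := x
    have e1 : ∀ (x : (K2 ⧸ C1) × Bool) (W : List ((K2 ⧸ C1) × Bool)),
        FreeGroup.mk (x :: W) = FreeGroup.mk [x] * FreeGroup.mk W := fun x W => by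
      rw [FreeGroup.mul_mk, List.singleton_append]
    have e2 : trw g ((q, s) :: W) = (g • q, s) :: trw g W := rfl
    have e4 : thAct C1 g (FreeGroup.mk [(q, s)]) = FreeGroup.mk [(g • q, s)] := by
      cases s
      · have e3 : ∀ q : K2 ⧸ C1, FreeGroup.mk [(q, false)] = (FreeGroup.of q)⁻¹ := fun q => rfl
        rw [e3, e3, map_inv, thAct_of]
      · exact thAct_of C1 g q
    rw [e1, map_mul, ih, e2, e1 (g • q, s), e4]

theorem trw_red (g : K2) (W : List ((K2 ⧸ C1) × Bool)) (h : FreeGroup.IsReduced W) :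
    FreeGroup.IsReduced (trw g W) := by
  unfold FreeGroup.IsReduced trw
  rw [List.isChain_map]
  refine List.IsChain.imp ?_ h
  intro a b hab h1
  exact hab (MulAction.injective g h1)

theorem trw_trw (g g' : K2) (W : List ((K2 ⧸ C1) × Bool)) : trw g (trw g' W) = trw (g * g') W := by
  unfold trw
  rw [List.map_map]
  congr 1
  funext x
  simp [mul_smul]

theorem mk_red_one {X : Type} {W : List (X × Bool)} (h : FreeGroup.IsReduced W)
    (h1 : FreeGroup.mk W = 1) : W = [] := by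
  have h2 : FreeGroup.mk W = FreeGroup.mk [] := h1
  obtain ⟨L, h3, h4⟩ := FreeGroup.Red.exact.mp h2
  rw [FreeGroup.Red.nil_iff] at h4
  subst h4
  exact (h.red_iff_eq.mp h3).symm

/-- representations of elements -/
inductive Rep : K2 → List ((K2 ⧸ C1) × Bool) → Prop
  | nil (b : K2) (hb : b ∈ B2) : Rep b []
  | cons (b : K2) (hb : b ∈ B2) (i : Fin 13) (hi : 10 ≤ i.val) (s : Bool) (k : K2)
      (W : List ((K2 ⧸ C1) × Bool)) (h : Rep k W)
      (hr : FreeGroup.IsReduced (((b : K2 ⧸ C1), s) :: trw (b * lv kg (i, s)) W)) :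
      Rep (b * lv kg (i, s) * k) (((b : K2 ⧸ C1), s) :: trw (b * lv kg (i, s)) W)

theorem Rep.red {k : K2} {W : List ((K2 ⧸ C1) × Bool)} (h : Rep k W) : FreeGroup.IsReduced W := by
  cases h with
  | nil b hb => exact FreeGroup.IsReduced.nil
  | cons b hb i hi s k W h hr => exact hr

theorem Rep.del {k : K2} {W : List ((K2 ⧸ C1) × Bool)} (h : Rep k W) :
    del k = FreeGroup.mk W := by
  induction h with
  | nil b hb => exact del_B2 hb
  | cons b hb i hi s k W h hr ih =>
    rw [del_mul, del_mul, del_B2 hb, one_mul, ih, thAct_mk, del_lv hi, thAct_mk,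
      FreeGroup.mul_mk]
    congr 1
    show [(b • ((1 : K2) : K2 ⧸ C1), s)] ++ trw (b * lv kg (i, s)) W = _
    have e : b • ((1 : K2) : K2 ⧸ C1) = (b : K2 ⧸ C1) := by
      show ((b * 1 : K2) : K2 ⧸ C1) = (b : K2 ⧸ C1)
      rw [mul_one]
    rw [e]
    rfl

theorem Rep.mul_left {k : K2} {W : List ((K2 ⧸ C1) × Bool)} (h : Rep k W) {b : K2}
    (hb : b ∈ B2) : Rep (b * k) (trw b W) := by
  cases h with
  | nil b' hb' => exact Rep.nil _ (mul_mem hb hb')
  | cons b' hb' i hi s k W h hr =>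
    have e1 : b * (b' * lv kg (i, s) * k) = (b * b') * lv kg (i, s) * k := by
      simp [mul_assoc]
    have e2 : trw b (((b' : K2 ⧸ C1), s) :: trw (b' * lv kg (i, s)) W) =
        (((b * b' : K2) : K2 ⧸ C1), s) :: trw (b * b' * lv kg (i, s)) W := by
      rw [mul_assoc b b', ← trw_trw b (b' * lv kg (i, s))]
      rfl
    have hr2 := trw_red b _ hr
    rw [e2] at hr2
    rw [e1, e2]
    exact Rep.cons _ (mul_mem hb hb') i hi s k W h hr2

theorem lv_mem_C1 {i : Fin 13} (hi : 10 ≤ i.val) (s : Bool) : lv kg (i, s) ∈ C1 := by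
  cases s
  · exact inv_mem (kg_mem_C1 hi)
  · exact kg_mem_C1 hi

theorem chi_lv {i : Fin 13} (hi : 10 ≤ i.val) (s : Bool) :
    chi (lv kg (i, s)) = Multiplicative.ofAdd (if s then 1 else -1) := by
  cases s
  · rw [lv_false, map_inv, chi_ge hi]
    rfl
  · rw [lv_true, chi_ge hi]
    rfl

theorem Rep.letter {k : K2} {W : List ((K2 ⧸ C1) × Bool)} (h : Rep k W) {j : Fin 13}
    (hj : 10 ≤ j.val) (t : Bool) : ∃ W', Rep (lv kg (j, t) * k) W' := by
  -- the generic case
  have gen : FreeGroup.IsReduced ((((1 : K2) : K2 ⧸ C1), t) :: trw (lv kg (j, t)) W) →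
      ∃ W', Rep (lv kg (j, t) * k) W' := by
    intro hr
    have h2 := Rep.cons 1 (one_mem _) j hj t k W h (by rwa [one_mul])
    rw [one_mul] at h2
    exact ⟨_, h2⟩
  have hred := trw_red (lv kg (j, t)) W h.red
  cases h with
  | nil b hb =>
    apply gen
    exact FreeGroup.IsReduced.singleton
  | cons b hb i hi s k W h hr =>
    by_cases hc : b ∈ C1 ∧ t ≠ s
    · obtain ⟨hc, hts⟩ := hc
      have hbF : b ∈ F1 := B2_inf_C1 hb hc
      have h3 : lv kg (j, t) * b * lv kg (i, s) ∈ F1 := by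
        apply mem_F1_of_chi
        · exact mul_mem (mul_mem (lv_mem_C1 hj t) hc) (lv_mem_C1 hi s)
        · rw [map_mul, map_mul, chi_F1 hbF, chi_lv hj, chi_lv hi, mul_one]
          cases t <;> cases s <;> simp_all
      have h4 := h.mul_left (F1_le_B2 h3)
      have e : lv kg (j, t) * b * lv kg (i, s) * k = lv kg (j, t) * (b * lv kg (i, s) * k) := by
        simp [mul_assoc]
      rw [e] at h4
      exact ⟨_, h4⟩
    · apply gen
      have e2 : trw (lv kg (j, t)) (((b : K2 ⧸ C1), s) :: trw (b * lv kg (i, s)) W) =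
          (lv kg (j, t) • (b : K2 ⧸ C1), s) ::
            trw (lv kg (j, t)) (trw (b * lv kg (i, s)) W) := rfl
      rw [e2] at hred ⊢
      rw [FreeGroup.isReduced_cons_cons]
      refine ⟨?_, hred⟩
      intro h5
      by_contra h6
      apply hc
      refine ⟨?_, h6⟩
      have h7 : ((1 : K2) : K2 ⧸ C1) = ((lv kg (j, t) * b : K2) : K2 ⧸ C1) := h5
      rw [QuotientGroup.eq, inv_one, one_mul] at h7
      have h8 := mul_mem (inv_mem (lv_mem_C1 hj t)) h7
      rwa [inv_mul_cancel_left] at h8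

theorem exists_rep (k : K2) : ∃ W, Rep k W := by
  suffices h : ∀ (w : FreeGroup (Fin 13)) (k : K2), (∃ W, Rep k W) →
      ∃ W, Rep (PresentedGroup.mk _ w * k) W by
    obtain ⟨w, rfl⟩ := PresentedGroup.mk_surjective _ k
    have := h w 1 ⟨[], Rep.nil 1 (one_mem _)⟩
    rwa [mul_one] at this
  have let' : ∀ (i : Fin 13) (s : Bool) (k : K2), (∃ W, Rep k W) →
      ∃ W, Rep (lv kg (i, s) * k) W := by
    rintro i s k ⟨W, h⟩
    by_cases hi : i.val < 10
    · refine ⟨_, h.mul_left (N2_le_B2 ?_)⟩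
      cases s
      · exact inv_mem (kg_mem_N2 hi)
      · exact kg_mem_N2 hi
    · exact h.letter (not_lt.mp hi) s
  intro w
  induction w using FreeGroup.induction_on with
  | C1 => intro k hk; simpa using hk
  | of i => intro k hk; exact let' i true k hk
  | inv_of i _ =>
    intro k hk
    rw [map_inv]
    exact let' i false k hk
  | mul x y hx hy =>
    intro k hk
    rw [map_mul, mul_assoc]
    exact hx _ (hy _ hk)

theorem mem_B2_of_del {k : K2} (h : del k = 1) : k ∈ B2 := by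
  obtain ⟨W, hW⟩ := exists_rep k
  have h1 := hW.del
  rw [h] at h1
  have h2 := mk_red_one hW.red h1.symm
  subst h2
  cases hW with
  | nil b hb => exact hb

theorem mem_N2 {k : K2} (h1 : rho k = 1) (h2 : (iota2 k).left = 1) : k ∈ N2 := by
  obtain ⟨n, hn, f, hf, rfl⟩ := mem_B2_of_del h2
  rw [map_mul, rho_N2 hn, one_mul, rho_C1 (F1_le_C1 hf)] at h1
  rw [h1, mul_one]
  exact hn

/-- the embedding -/
def iota : K2 →* K2 × H2 := rho.prod iota2

theorem iota_inj : Function.Injective iota := by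
  intro k k' h
  have h1 : iota2 k = iota2 k' := congrArg Prod.snd h
  have h2 := congrArg SemidirectProduct.right h1
  rwa [iota2_right, iota2_right] at h2

/-- the edge group of the model -/
def ZM : Subgroup (K2 × H2) := (MonoidHom.inr K2 H2).range.comap (MonoidHom.id _) ⊓
  ((thB C1).range.comap (MonoidHom.snd K2 H2))

theorem mem_ZM {x : K2 × H2} : x ∈ ZM ↔ x.1 = 1 ∧ x.2.left = 1 := by
  unfold ZM
  constructor
  · rintro ⟨⟨y, hy⟩, ⟨z, hz⟩⟩
    refine ⟨?_, ?_⟩
    · have := congrArg Prod.fst hy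
      exact this.symm
    · have h3 : thB C1 z = x.2 := hz
      rw [← h3]
      simp [thB]
  · rintro ⟨h1, h2⟩
    refine ⟨⟨x.2, ?_⟩, ⟨x.2.right, ?_⟩⟩
    · exact Prod.ext h1.symm rfl
    · show thB C1 x.2.right = x.2
      apply SemidirectProduct.ext
      · simp [thB, h2]
      · simp [thB]

theorem iota_mem_ZM {k : K2} : iota k ∈ ZM ↔ k ∈ N2 := by
  rw [mem_ZM]
  constructor
  · rintro ⟨h1, h2⟩
    exact mem_N2 h1 h2
  · intro h
    refine ⟨rho_N2 h, ?_⟩
    show (iota2 k).left = 1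
    rw [iota2_N2 h]
    simp [thB]

/-- the model group -/
abbrev Model : Type := TH ZM

/-- the embedding of the trivial HNN extension in the model -/
def Xi : TH N2 →* Model := thMap N2 ZM iota (fun _ h => iota_mem_ZM.mpr h)

theorem Xi_inj : Function.Injective Xi :=
  thMap_inj N2 ZM iota _ (fun _ h => iota_mem_ZM.mp h) iota_inj

end Pool.Agent.W387
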