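import Mathlib

/-!
Integer metrics satisfying the quadrangle condition without `K_{2,3}` have unique medians.
-/

set_option autoImplicit false

namespace Pool.Agent.W387

/-- an integer valued graph metric, bipartite, satisfying the quadrangle condition, without
`K_{2,3}` -/
structure MedD (V : Type) (d : V → V → ℕ) : Prop where
  self : ∀ x, d x x = 0
  eq : ∀ x y, d x y = 0 → x = y
  comm : ∀ x y, d x y = d y x
  tri : ∀ x y z, d x z ≤ d x y + d y z
  step : ∀ x y, x ≠ y → ∃ p, d x p = 1 ∧ d p y + 1 = d x y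
  bip : ∀ u v w, d v w = 1 → d u v ≠ d u w
  qc : ∀ u v w z, d v z = 1 → d w z = 1 → v ≠ w → d u v + 1 = d u z → d u w + 1 = d u z →
    ∃ x, d x v = 1 ∧ d x w = 1 ∧ d u x + 1 = d u v
  k23 : ∀ u v x y z, u ≠ v → x ≠ y → y ≠ z → x ≠ z → d u x = 1 → d u y = 1 → d u z = 1 →
    d v x = 1 → d v y = 1 → d v z = 1 → False

/-- `m` is a median of `x`, `y`, `z` -/
def IsMed {V : Type} (d : V → V → ℕ) (x y z m : V) : Prop :=
  d x m + d m y = d x y ∧ d y m + d m z = d y z ∧ d x m + d m z = d x z

namespace MedD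

variable {V : Type} {d : V → V → ℕ}

theorem exists_med (H : MedD V d) : ∀ (k : ℕ) (x y z : V), d x y = k → ∃ m, IsMed d x y z m := by
  intro k
  induction k with
  | zero =>
    intro x y z h
    have := H.eq x y h
    subst this
    refine ⟨x, ?_, ?_, ?_⟩ <;> simp [H.self]
  | succ k ih =>
    intro x y z h
    have hxy : x ≠ y := by
      rintro rfl
      rw [H.self] at h
      omega
    -- if there is a neighbour in both directions
    have good : ∀ p, d x p = 1 → d p y + 1 = d x y → d p z + 1 = d x z → ∃ m, IsMed d x y z m := by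
      intro p h1 h2 h3
      obtain ⟨m, hm1, hm2, hm3⟩ := ih p y z (by omega)
      refine ⟨m, ?_, hm2, ?_⟩
      · have := H.tri x p m
        have := H.tri x m y
        omega
      · have := H.tri x p m
        have := H.tri x m z
        omega
    obtain ⟨p, hp1, hp2⟩ := H.step x y hxy
    by_cases hz : d p z + 1 = d x z
    · exact good p hp1 hp2 hz
    · have hb := H.bip z x p hp1
      have c1 := H.comm z x
      have c2 := H.comm z p
      have t1 := H.tri x p z
      have t2 := H.tri p x z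
      have c3 := H.comm p x
      have hz' : d p z = d x z + 1 := by omega
      obtain ⟨m, hm1, hm2, hm3⟩ := ih p y z (by omega)
      by_cases hm : p = m
      · subst hm
        rw [H.self] at hm3 hm1
        refine ⟨x, ?_, ?_, ?_⟩
        · rw [H.self]
          omega
        · have := H.comm y x
          have := H.comm y p
          omega
        · rw [H.self]
          omega
      · obtain ⟨q, hq1, hq2⟩ := H.step p m hm
        have e1 : d q y + 1 = d p y := by
          have := H.tri q m y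
          have := H.tri p q y
          omega
        have e2 : d q z + 1 = d p z := by
          have := H.tri q m z
          have := H.tri p q z
          omega
        have hxq : x ≠ q := by
          rintro rfl
          omega
        obtain ⟨r, hr1, hr2, hr3⟩ := H.qc z x q p hp1 (by rw [H.comm]; exact hq1) hxq
          (by omega) (by have := H.comm z q; omega)
        apply good r
        · rw [H.comm]
          exact hr1
        · have := H.tri r q y
          have := H.tri x r y
          have := H.comm x r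
          omega
        · have := H.comm z r
          omega

theorem dichotomy (H : MedD V d) (x m m' : V) :
    (∃ p, d x p = 1 ∧ d p m + 1 = d x m ∧ d p m' + 1 = d x m') ∨ d x m + d x m' = d m m' := by
  obtain ⟨t, h1, h2, h3⟩ := H.exists_med _ x m m' rfl
  by_cases h : x = t
  · subst h
    right
    have := H.comm x m
    omega
  · left
    obtain ⟨p, hp1, hp2⟩ := H.step x t h
    refine ⟨p, hp1, ?_, ?_⟩
    · have := H.tri p t m
      have := H.tri x p m
      omega
    · have := H.tri p t m'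
      have := H.tri x p m'
      omega

theorem isMed_swap1 (H : MedD V d) {x y z m : V} (h : IsMed d x y z m) : IsMed d y x z m := by
  obtain ⟨h1, h2, h3⟩ := h
  refine ⟨?_, h3, h2⟩
  rw [H.comm y m, H.comm m x, H.comm y x]
  omega

theorem isMed_swap2 (H : MedD V d) {x y z m : V} (h : IsMed d x y z m) : IsMed d z y x m := by
  obtain ⟨h1, h2, h3⟩ := h
  refine ⟨?_, ?_, ?_⟩
  · rw [H.comm z m, H.comm m y, H.comm z y]
    omega
  · rw [H.comm y m, H.comm m x, H.comm y x]
    omega
  · rw [H.comm z m, H.comm m x, H.comm z x]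
    omega

theorem isMed_step (H : MedD V d) {x y z m p : V} (h : IsMed d x y z m) (h1 : d x p = 1)
    (h2 : d p m + 1 = d x m) : IsMed d p y z m := by
  obtain ⟨k1, k2, k3⟩ := h
  refine ⟨?_, k2, ?_⟩
  · have := H.tri p m y
    have := H.tri x p y
    omega
  · have := H.tri p m z
    have := H.tri x p z
    omega

theorem normal (H : MedD V d) (m m' : V) (hne : m ≠ m') : ∀ (n : ℕ) (x y z : V),
    d x m + d y m + d z m = n → IsMed d x y z m → IsMed d x y z m' →
    ∃ x y z r, 1 ≤ r ∧ d m m' = r + r ∧ IsMed d x y z m ∧ IsMed d x y z m' ∧ d x m = r ∧ d y m = r ∧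
      d z m = r ∧ d x m' = r ∧ d y m' = r ∧ d z m' = r := by
  intro n
  induction n using Nat.strong_induction_on with
  | _ n ih =>
  intro x y z hn h h'
  have hpos : d m m' ≠ 0 := fun h => hne (H.eq _ _ h)
  rcases H.dichotomy x m m' with ⟨p, hp1, hp2, hp3⟩ | hx
  · exact ih _ (by omega) p y z rfl (H.isMed_step h hp1 hp2) (H.isMed_step h' hp1 hp3)
  · rcases H.dichotomy y m m' with ⟨p, hp1, hp2, hp3⟩ | hy
    · exact ih (d p m + d x m + d z m) (by omega) p x z rfl
        (H.isMed_step (H.isMed_swap1 h) hp1 hp2) (H.isMed_step (H.isMed_swap1 h') hp1 hp3)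
    · rcases H.dichotomy z m m' with ⟨p, hp1, hp2, hp3⟩ | hz
      · exact ih (d p m + d y m + d x m) (by omega) p y x rfl
          (H.isMed_step (H.isMed_swap2 h) hp1 hp2) (H.isMed_step (H.isMed_swap2 h') hp1 hp3)
      · have h1 := h
        have h2 := h'
        obtain ⟨k1, k2, k3⟩ := h
        obtain ⟨l1, l2, l3⟩ := h'
        have c1 := H.comm m y
        have c2 := H.comm m z
        have c3 := H.comm m' y
        have c4 := H.comm m' z
        refine ⟨x, y, z, d x m, ?_, ?_, h1, h2, rfl, ?_, ?_, ?_, ?_, ?_⟩ <;> omega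

theorem no_two (H : MedD V d) (m m' : V) (hne : m ≠ m') (x y z : V) (h : IsMed d x y z m)
    (h' : IsMed d x y z m') (h2 : d m m' = 2) : False := by
  obtain ⟨x, y, z, r, hr, e, k, k', h1, h2, h3, h4, h5, h6⟩ := H.normal m m' hne _ x y z rfl h h'
  have hr1 : r = 1 := by omega
  subst hr1
  obtain ⟨k1, k2, k3⟩ := k
  have c1 := H.comm m x
  have c2 := H.comm m y
  have c3 := H.comm m z
  have c4 := H.comm m' x
  have c5 := H.comm m' y
  have c6 := H.comm m' z
  have n1 : x ≠ y := by
    rintro rfl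
    rw [H.self] at k1
    omega
  have n2 : y ≠ z := by
    rintro rfl
    rw [H.self] at k2
    omega
  have n3 : x ≠ z := by
    rintro rfl
    rw [H.self] at k3
    omega
  exact H.k23 m m' x y z hne n1 n2 n3 (by omega) (by omega) (by omega) (by omega) (by omega)
    (by omega)

theorem unique (H : MedD V d) (m m' x y z : V) (h : IsMed d x y z m) (h' : IsMed d x y z m') :
    m = m' := by
  by_contra hne
  obtain ⟨x, y, z, r, hr, e, k, k', h1, h2, h3, h4, h5, h6⟩ := H.normal m m' hne _ x y z rfl h h'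
  have hk := k
  obtain ⟨k1, k2, k3⟩ := k
  obtain ⟨l1, l2, l3⟩ := k'
  have c2 := H.comm m y
  have c3 := H.comm m z
  have c1 := H.comm m x
  have c4 := H.comm m' x
  have c5 := H.comm m' y
  have c6 := H.comm m' z
  have hmx : m ≠ x := by
    rintro rfl
    rw [H.self] at h1
    omega
  obtain ⟨u, hu1, hu2⟩ := H.step m x hmx
  have cu1 := H.comm u m
  have cu2 := H.comm u x
  have cu3 := H.comm u m'
  have cu4 := H.comm u y
  have cu5 := H.comm u z
  have cm := H.comm m m'
  -- distances from `u`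
  have a1 : d u m' + 1 = r + r := by
    have t1 := H.tri m u m'
    have t2 := H.tri u x m'
    clear k1 k2 k3 l1 l2 l3 c2 c3 c4 c5 c6 cu4 cu5 h2 h3 h5 h6
    omega
  have a2 : d u y = r + 1 := by
    have t1 := H.tri x u y
    have t2 := H.tri u m y
    clear k2 k3 l1 l2 l3 c3 c4 c5 c6 cu3 cu5 h3 h5 h6 a1
    omega
  have a3 : d u z = r + 1 := by
    have t1 := H.tri x u z
    have t2 := H.tri u m z
    clear k1 k2 l1 l2 l3 c2 c4 c5 c6 cu3 cu4 h2 h5 h6 a1 a2
    omega
  obtain ⟨p, p1, p2, p3⟩ := H.exists_med _ u y m' rfl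
  obtain ⟨q, q1, q2, q3⟩ := H.exists_med _ u z m' rfl
  have cp1 := H.comm p y
  have cp2 := H.comm p m'
  have cp3 := H.comm p u
  have cq1 := H.comm q z
  have cq2 := H.comm q m'
  have cq3 := H.comm q u
  have e1 : d y z = r + r := by omega
  have e2 : d x y = r + r := by omega
  have e3 : d x z = r + r := by omega
  clear k1 k2 k3 l1 l2 l3 cu3 cu4 cu5
  have b : d u p = r ∧ d p y = 1 ∧ d p m' + 1 = r := by
    clear q1 q2 q3 cq1 cq2 cq3 a3 e1 e2 e3 c3 c6 h3 h6 hu2 hu1 cu1 cu2 c1 h1 h2
    omega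
  obtain ⟨b1, b2, b3⟩ := b
  have b : d u q = r ∧ d q z = 1 ∧ d q m' + 1 = r := by
    clear p1 p2 p3 cp1 cp2 cp3 a2 e1 e2 e3 c2 c5 h2 h5 hu2 hu1 cu1 cu2 c1 h1 h3 b1 b2 b3
    omega
  obtain ⟨b4, b5, b6⟩ := b
  clear p1 p2 p3 q1 q2 q3
  have b7 : d p q + 2 = r + r := by
    have t1 := H.tri p m' q
    have t2 := H.tri y p z
    have t3 := H.tri p q z
    clear hu1 hu2 cu1 cu2 c1 c2 c3 c4 c5 c6 h1 h2 h3 h4 h5 h6 e2 e3 a1 a2 a3 e
    omega
  obtain ⟨n, n1, n2, n3⟩ := H.exists_med _ u p q rfl
  have cn1 := H.comm n u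
  have cn2 := H.comm n p
  have cn3 := H.comm n q
  have dd : d u n = 1 ∧ d n p + 1 = r ∧ d n q + 1 = r := by
    clear hu1 hu2 cu1 cu2 c1 c2 c3 c4 c5 c6 h1 h2 h3 h4 h5 h6 e2 e3 a1 a2 a3 e e1
    omega
  obtain ⟨d1, d2, d3⟩ := dd
  clear n1 n2 n3
  have hmn : m ≠ n := by
    rintro rfl
    have t1 := H.tri m p m'
    clear hu1 hu2 cu1 cu2 c1 c2 c3 c4 c5 c6 h1 h2 h3 h4 h5 h6 e2 e3 a1 a2 a3 b7 e1 b4 b5 b6 cn1 cn3
    clear cq1 cq2 cq3 d3
    omega
  have cn4 := H.comm n x
  have cn5 := H.comm n y
  have cn6 := H.comm n z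
  have cn7 := H.comm n m
  have hn : IsMed d x y z n := by
    have t1 := H.tri x u n
    have t2 := H.tri n p y
    have t3 := H.tri n q z
    have t4 := H.tri x n y
    have t5 := H.tri x n z
    have t6 := H.tri y n z
    clear h4 h5 h6 c4 c5 c6 cm a1 a2 a3 b1 b4 b3 b6 b7 hk e
    have g1 : d x n ≤ r := by
      clear t2 t3 t4 t5 t6
      omega
    have g2 : d n y ≤ r := by
      clear t1 t3 t4 t5 t6
      omega
    have g3 : d n z ≤ r := by
      clear t1 t2 t4 t5 t6
      omega
    clear t1 t2 t3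
    refine ⟨?_, ?_, ?_⟩
    · clear t5 t6 g3
      omega
    · clear t4 t5 g1
      omega
    · clear t4 t6 g2
      omega
  have hd : d m n = 2 := by
    have t1 := H.tri m u n
    have t2 := H.bip m u n d1
    have t3 : d m n ≠ 0 := fun h => hmn (H.eq _ _ h)
    clear h2 h3 h4 h5 h6 c2 c3 c4 c5 c6 cm a1 a2 a3 b1 b4 b3 b6 b7 hk e hn e1 e2 e3
    omega
  exact H.no_two m n hmn x y z hk hn hd

theorem existsUnique (H : MedD V d) (x y z : V) : ∃! m, IsMed d x y z m := by
  obtain ⟨m, hm⟩ := H.exists_med _ x y z rfl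
  exact ⟨m, hm, fun m' hm' => H.unique m' m x y z hm' hm⟩

end MedD

end Pool.Agent.W387
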