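import Pool.Agent.W387.SqGrp

/-!
Square systems from lists of squares, and joins of square systems.
-/

set_option autoImplicit false

namespace Pool.Agent.W387

namespace SqSys

section ofList

variable {A : Type} [DecidableEq A] (inv : A → A)

/-- the eight corners of the square `x y = X Y` -/
def corners (s : A × A × A × A) : List ((A × A) × (A × A)) :=
  let x := s.1
  let y := s.2.1
  let X := s.2.2.1
  let Y := s.2.2.2
  [((x, X), (y, Y)), ((X, x), (Y, y)), ((inv x, y), (X, inv Y)), ((y, inv x), (inv Y, X)),
    ((inv X, Y), (x, inv y)), ((Y, inv X), (inv y, x)), ((inv y, inv Y), (inv x, inv X)),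
    ((inv Y, inv y), (inv X, inv x))]

/-- all corners -/
def entries (L : List (A × A × A × A)) : List ((A × A) × (A × A)) := L.flatMap (corners inv)

/-- membership in the list of keys, decided by a bitmask -/
def keyOK : List ℕ → ℕ → Bool
  | [], _ => true
  | k :: l, acc => !(acc.testBit k) && keyOK l (acc ||| (1 <<< k))

theorem keyOK_spec : ∀ (l : List ℕ) (acc : ℕ), keyOK l acc = true →
    l.Nodup ∧ ∀ k ∈ l, acc.testBit k = false := by
  intro l
  induction l with
  | nil =>
    intro acc _
    exact ⟨List.nodup_nil, fun k hk => by simp at hk⟩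
  | cons k l ih =>
    intro acc h
    simp only [keyOK, Bool.and_eq_true, Bool.not_eq_eq_eq_not, Bool.not_true] at h
    obtain ⟨h1, h2⟩ := ih _ h.2
    have h3 : ∀ m, (acc ||| (1 <<< k)).testBit m = (acc.testBit m || decide (k = m)) := by
      intro m
      rw [Nat.testBit_or, Nat.one_shiftLeft, Nat.testBit_two_pow]
    refine ⟨List.nodup_cons.mpr ⟨?_, h1⟩, ?_⟩
    · intro hk
      have := h2 k hk
      rw [h3] at this
      simp at this
    · intro m hm
      rcases List.mem_cons.mp hm with rfl | hm
      · exact h.1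
      · have := h2 m hm
        rw [h3] at this
        simp only [Bool.or_eq_false_iff] at this
        exact this.1

/-- bitmask of a list of numbers -/
def mask : List ℕ → ℕ
  | [] => 0
  | k :: l => (1 <<< k) ||| mask l

theorem mask_spec (l : List ℕ) (k : ℕ) : (mask l).testBit k = true ↔ k ∈ l := by
  induction l with
  | nil => simp [mask]
  | cons m l ih =>
    simp only [mask]
    rw [Nat.testBit_or, Nat.one_shiftLeft, Nat.testBit_two_pow, Bool.or_eq_true, ih, List.mem_cons]
    simp only [decide_eq_true_eq]
    constructor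
    · rintro (h | h)
      · exact Or.inl h.symm
      · exact Or.inr h
    · rintro (h | h)
      · exact Or.inl h.symm
      · exact Or.inr h

/-- no triangles: decided with bitmasks. `N` is a bound for the codes of darts -/
def triOK (N M : ℕ) : List (ℕ × ℕ) → Bool
  | [] => true
  | e :: l => (((M >>> (N * e.1)) &&& (M >>> (N * e.2))) % 2 ^ N == 0) && (e.1 != e.2) && triOK N M l

theorem triOK_spec (N M : ℕ) (l : List (ℕ × ℕ)) (h : triOK N M l = true) :
    ∀ e ∈ l, e.1 ≠ e.2 ∧ ∀ c, c < N → M.testBit (N * e.1 + c) = true →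
      M.testBit (N * e.2 + c) = true → False := by
  induction l with
  | nil =>
    intro e he
    simp at he
  | cons e l ih =>
    simp only [triOK, Bool.and_eq_true, beq_iff_eq, bne_iff_ne, ne_eq] at h
    obtain ⟨⟨h1, h2⟩, h3⟩ := h
    intro e' he'
    rcases List.mem_cons.mp he' with rfl | he'
    · refine ⟨h2, fun c hc k1 k2 => ?_⟩
      have h4 := congrArg (fun z => z.testBit c) h1
      simp only [Nat.testBit_mod_two_pow, Nat.testBit_and, Nat.testBit_shiftRight, k1, k2, hc,
        decide_true, Bool.and_true, Nat.zero_testBit] at h4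
      cases h4
    · exact ih h3 e' he'

variable {inv}

omit [DecidableEq A] in
theorem corners_symm {s : A × A × A × A} {a b p q : A} (h : ((a, b), (p, q)) ∈ corners inv s) :
    ((b, a), (q, p)) ∈ corners inv s := by
  obtain ⟨x, y, X, Y⟩ := s
  simp only [corners, List.mem_cons, Prod.mk.injEq, List.not_mem_nil, or_false] at h ⊢
  rcases h with h | h | h | h | h | h | h | h <;> obtain ⟨⟨rfl, rfl⟩, rfl, rfl⟩ := h <;> simp

omit [DecidableEq A] in
theorem corners_rot (hinv : ∀ a, inv (inv a) = a) {s : A × A × A × A} {a b p q : A}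
    (h : ((a, b), (p, q)) ∈ corners inv s) :
    ((inv a, p), (b, inv q)) ∈ corners inv s := by
  obtain ⟨x, y, X, Y⟩ := s
  simp only [corners, List.mem_cons, Prod.mk.injEq, List.not_mem_nil, or_false] at h ⊢
  rcases h with h | h | h | h | h | h | h | h <;> obtain ⟨⟨rfl, rfl⟩, rfl, rfl⟩ := h <;>
    simp [hinv]

theorem lookup_mem {K V : Type} [BEq K] [LawfulBEq K] : ∀ (l : List (K × V)) (k : K) (v : V),
    l.lookup k = some v → (k, v) ∈ l := by
  intro l
  induction l with
  | nil =>
    intro k v h
    simp at h
  | cons e l ih =>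
    intro k v h
    rw [List.lookup_cons] at h
    by_cases hk : k = e.1
    · subst hk
      simp only [beq_self_eq_true, Option.some.injEq] at h
      subst h
      simp
    · have : (k == e.1) = false := by simpa using hk
      rw [this] at h
      exact List.mem_cons_of_mem _ (ih k v h)

theorem mem_lookup {K V : Type} [BEq K] [LawfulBEq K] : ∀ (l : List (K × V)) (k : K) (v : V),
    (l.map Prod.fst).Nodup → (k, v) ∈ l → l.lookup k = some v := by
  intro l
  induction l with
  | nil =>
    intro k v _ h
    simp at h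
  | cons e l ih =>
    intro k v hn h
    rw [List.lookup_cons]
    rw [List.map_cons, List.nodup_cons] at hn
    rcases List.mem_cons.mp h with h | h
    · subst h
      simp
    · by_cases hk : k = e.1
      · exfalso
        apply hn.1
        rw [← hk]
        exact List.mem_map.mpr ⟨(k, v), h, rfl⟩
      · have : (k == e.1) = false := by simpa using hk
        rw [this]
        simp only [Bool.false_eq_true, if_false]
        exact ih k v hn.2 h

/-- the square system defined by a list of squares whose links have no double edges and no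
triangles -/
def ofList (hinv : ∀ a, inv (inv a) = a) (L : List (A × A × A × A))
    (hn : ((entries inv L).map Prod.fst).Nodup)
    (hirr : ∀ e ∈ entries inv L, e.1.1 ≠ e.1.2)
    (htri : ∀ a b c : A, (a, b) ∈ (entries inv L).map Prod.fst →
      (b, c) ∈ (entries inv L).map Prod.fst → (a, c) ∈ (entries inv L).map Prod.fst → False) :
    SqSys A where
  inv := inv
  inv_inv := hinv
  sq := fun a b => (entries inv L).lookup (a, b)
  symm := fun {a b p q} h => by
    have h1 := lookup_mem _ _ _ h
    apply mem_lookup _ _ _ hn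
    obtain ⟨s, hs, h2⟩ := List.mem_flatMap.mp h1
    exact List.mem_flatMap.mpr ⟨s, hs, corners_symm h2⟩
  rot := fun {a b p q} h => by
    have h1 := lookup_mem _ _ _ h
    apply mem_lookup _ _ _ hn
    obtain ⟨s, hs, h2⟩ := List.mem_flatMap.mp h1
    exact List.mem_flatMap.mpr ⟨s, hs, corners_rot hinv h2⟩
  irrefl := fun a => by
    cases h : (entries inv L).lookup (a, a) with
    | none => rfl
    | some v => exact absurd rfl (hirr ((a, a), v) (lookup_mem _ _ _ h))
  cube := fun {a b c b1 a1 c1 b2 c2 a2} h1 h2 h3 => by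
    exfalso
    have mem : ∀ {k : A × A} {v : A × A}, (entries inv L).lookup k = some v →
        k ∈ (entries inv L).map Prod.fst := fun {k v} h =>
      List.mem_map.mpr ⟨(k, v), lookup_mem _ _ _ h, rfl⟩
    exact htri a b c (mem h1) (mem h2) (mem h3)

theorem ofList_sq {hinv : ∀ a, inv (inv a) = a} {L : List (A × A × A × A)}
    {hn : ((entries inv L).map Prod.fst).Nodup}
    {hirr : ∀ e ∈ entries inv L, e.1.1 ≠ e.1.2}
    {htri : ∀ a b c : A, (a, b) ∈ (entries inv L).map Prod.fst →
      (b, c) ∈ (entries inv L).map Prod.fst → (a, c) ∈ (entries inv L).map Prod.fst → False}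
    {x y X Y : A} (h : (x, y, X, Y) ∈ L) :
    (ofList hinv L hn hirr htri).sq x X = some (y, Y) := by
  apply mem_lookup _ _ _ hn
  refine List.mem_flatMap.mpr ⟨_, h, ?_⟩
  simp [corners]

theorem ofList_rel {hinv : ∀ a, inv (inv a) = a} {L : List (A × A × A × A)}
    {hn : ((entries inv L).map Prod.fst).Nodup}
    {hirr : ∀ e ∈ entries inv L, e.1.1 ≠ e.1.2}
    {htri : ∀ a b c : A, (a, b) ∈ (entries inv L).map Prod.fst →
      (b, c) ∈ (entries inv L).map Prod.fst → (a, c) ∈ (entries inv L).map Prod.fst → False}
    {K : Type} [Group K] (f : A → K) (hf : ∀ a, f (inv a) = (f a)⁻¹)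
    (h : ∀ x y X Y, (x, y, X, Y) ∈ L → f x * f y = f X * f Y) (a b p q : A)
    (hs : (ofList hinv L hn hirr htri).sq a b = some (p, q)) : f a * f p = f b * f q := by
  obtain ⟨⟨x, y, X, Y⟩, hs, h2⟩ := List.mem_flatMap.mp (lookup_mem _ _ _ hs)
  have h3 := h x y X Y hs
  have h4 : f y = (f x)⁻¹ * (f X * f Y) := by
    rw [← h3]
    simp
  simp only [corners, List.mem_cons, Prod.mk.injEq, List.not_mem_nil, or_false] at h2
  rcases h2 with h | h | h | h | h | h | h | h <;> obtain ⟨⟨rfl, rfl⟩, rfl, rfl⟩ := h <;>
    simp only [hf, h4] <;> group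

end ofList

section check

variable {A : Type} {inv : A → A}

/-- the computable check -/
def chk (N : ℕ) (l : List (ℕ × ℕ)) : Bool :=
  keyOK (l.map fun e => N * e.1 + e.2) 0 && triOK N (mask (l.map fun e => N * e.1 + e.2)) l

theorem chk_spec (code : A → ℕ) (hcode : Function.Injective code) (N : ℕ)
    (hN : ∀ a, code a < N) (L : List (A × A × A × A))
    (h : chk N ((entries inv L).map fun e => (code e.1.1, code e.1.2)) = true) :
    ((entries inv L).map Prod.fst).Nodup ∧ (∀ e ∈ entries inv L, e.1.1 ≠ e.1.2) ∧
    (∀ a b c : A, (a, b) ∈ (entries inv L).map Prod.fst →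
      (b, c) ∈ (entries inv L).map Prod.fst → (a, c) ∈ (entries inv L).map Prod.fst → False) := by
  unfold chk at h
  rw [Bool.and_eq_true] at h
  obtain ⟨h1, h2⟩ := h
  have k1 := (keyOK_spec _ _ h1).1
  have k2 := triOK_spec _ _ _ h2
  have hc : ∀ x y : A × A, N * code x.1 + code x.2 = N * code y.1 + code y.2 → x = y := by
    intro x y hxy
    have e1 : code x.1 = code y.1 := by
      have h3 := congrArg (fun z => z / N) hxy
      have hNpos : 0 < N := lt_of_le_of_lt (Nat.zero_le _) (hN x.1)
      simp only [Nat.mul_add_div hNpos, Nat.div_eq_of_lt (hN x.2), Nat.div_eq_of_lt (hN y.2),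
        add_zero] at h3
      exact h3
    have e2 : code x.2 = code y.2 := by
      rw [e1] at hxy
      omega
    exact Prod.ext (hcode e1) (hcode e2)
  have hmem : ∀ a b : A, (a, b) ∈ (entries inv L).map Prod.fst →
      (mask (((entries inv L).map fun e => (code e.1.1, code e.1.2)).map
        fun e => N * e.1 + e.2)).testBit (N * code a + code b) = true := by
    intro a b hab
    rw [mask_spec]
    obtain ⟨e, he, h3⟩ := List.mem_map.mp hab
    refine List.mem_map.mpr ⟨(code a, code b), List.mem_map.mpr ⟨e, he, ?_⟩, rfl⟩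
    rw [h3]
  refine ⟨?_, ?_, ?_⟩
  · rw [List.map_map] at k1
    have : ((fun e : ℕ × ℕ => N * e.1 + e.2) ∘ fun e : (A × A) × (A × A) =>
        (code e.1.1, code e.1.2)) = (fun x : A × A => N * code x.1 + code x.2) ∘ Prod.fst := rfl
    rw [this, ← List.map_map] at k1
    exact k1.of_map
  · intro e he h3
    exact (k2 (code e.1.1, code e.1.2) (List.mem_map.mpr ⟨e, he, rfl⟩)).1 (congrArg code h3)
  · intro a b c hab hbc hac
    obtain ⟨e, he, h3⟩ := List.mem_map.mp hab
    have h4 := (k2 (code a, code b) (List.mem_map.mpr ⟨e, he, by rw [h3]⟩)).2 (code c) (hN c)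
    exact h4 (hmem a c hac) (hmem b c hbc)

end check

end SqSys

end Pool.Agent.W387
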