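import Pool.Agent.W387.SqSys

/-!
The group of a square system and its normal forms.
-/

set_option autoImplicit false

namespace Pool.Agent.W387

namespace SqSys

variable {A : Type} {S : SqSys A}

theorem backs {a b p q : A} (h : S.sq a b = some (p, q)) :
    S.sq (S.inv p) (S.inv q) = some (S.inv a, S.inv b) := by
  have h1 := S.rot (S.symm (S.rot h))
  exact h1

variable (S) in
/-- classes of reduced words -/
def stR : Setoid {m : List A // S.Red m} where
  r := fun u v => S.E u.1 v.1
  iseqv := ⟨fun u => E.refl u.1, fun h => h.symm, fun h h' => h.trans h'⟩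

variable (S) in
/-- the set of classes of reduced words -/
def Om : Type := Quotient S.stR

/-- the class of a reduced word -/
def cl (m : List A) (h : S.Red m) : S.Om := Quotient.mk S.stR ⟨m, h⟩

theorem cl_eq {m m' : List A} (h : S.Red m) (h' : S.Red m') (e : S.E m m') : cl m h = cl m' h' :=
  Quotient.sound (s := S.stR) e

theorem of_cl_eq {m m' : List A} {h : S.Red m} {h' : S.Red m'} (e : cl m h = cl m' h') : S.E m m' :=
  Quotient.exact (s := S.stR) e

theorem Om.ind' {P : S.Om → Prop} (h : ∀ m (hm : S.Red m), P (cl m hm)) (q : S.Om) : P q :=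
  Quotient.ind (fun x => h x.1 x.2) q

theorem exists_tail {a : A} {m : List A} (h : S.Red m) (hn : ¬ S.Red (a :: m)) :
    ∃ m', S.E m (S.inv a :: m') := redStep _ m a rfl h hn

open Classical in
/-- the action of a letter on representatives -/
noncomputable def actF (a : A) (m : {m : List A // S.Red m}) : S.Om :=
  if h : S.Red (a :: m.1) then cl (a :: m.1) h
  else cl (Classical.choose (exists_tail m.2 h))
    ((m.2.congr (Classical.choose_spec (exists_tail m.2 h))).tail)

theorem actF_congr (a : A) (m m' : {m : List A // S.Red m}) (e : S.E m.1 m'.1) :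
    actF a m = actF a m' := by
  unfold actF
  by_cases h : S.Red (a :: m.1)
  · have h' : S.Red (a :: m'.1) := h.congr (e.cons a)
    rw [dif_pos h, dif_pos h']
    exact cl_eq _ _ (e.cons a)
  · have h' : ¬ S.Red (a :: m'.1) := fun h2 => h (h2.congr (e.symm.cons a))
    rw [dif_neg h, dif_neg h']
    apply cl_eq
    have h3 := Classical.choose_spec (exists_tail m.2 h)
    have h4 := Classical.choose_spec (exists_tail m'.2 h')
    exact cancel ((h3.symm.trans e).trans h4)

/-- the action of a letter on classes of reduced words -/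
noncomputable def act (a : A) : S.Om → S.Om :=
  Quotient.lift (s := S.stR) (actF a) (fun m m' e => actF_congr a m m' e)

theorem act_red {a : A} {m : List A} (hm : S.Red m) (h : S.Red (a :: m)) :
    act a (cl m hm) = cl (a :: m) h := by
  show actF a ⟨m, hm⟩ = _
  unfold actF
  rw [dif_pos h]

theorem red_tail' {a : A} {m m' : List A} (hm : S.Red m) (e : S.E m (a :: m')) : S.Red m' :=
  (hm.congr e).tail

theorem act_tail {a : A} {m m' : List A} (hm : S.Red m) (e : S.E m (S.inv a :: m')) :
    act a (cl m hm) = cl m' (red_tail' hm e) := by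
  show actF a ⟨m, hm⟩ = _
  have h : ¬ S.Red (a :: m) := fun h => h _ (e.cons a) (HasBack.here a m')
  unfold actF
  rw [dif_neg h]
  apply cl_eq
  have h3 := Classical.choose_spec (exists_tail hm h)
  exact cancel (h3.symm.trans e)

theorem act_inv (a : A) (q : S.Om) : act a (act (S.inv a) q) = q := by
  induction q using Om.ind' with
  | h m hm =>
  by_cases h : S.Red (S.inv a :: m)
  · rw [act_red hm h, act_tail h (E.refl _)]
  · obtain ⟨m', e⟩ := exists_tail hm h
    rw [act_tail hm e]
    rw [S.inv_inv] at e
    have h2 : S.Red (a :: m') := hm.congr e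
    rw [act_red _ h2]
    exact cl_eq _ _ e.symm

theorem act_sq_aux {a b p q : A} (h : S.sq a b = some (p, q)) {m : List A} (hm : S.Red m)
    (hp : ¬ S.Red (p :: m)) (hq : S.Red (q :: m)) :
    act a (act p (cl m hm)) = act b (act q (cl m hm)) := by
  obtain ⟨m', e⟩ := exists_tail hm hp
  rw [act_tail hm e, act_red hm hq]
  have e2 : S.E (q :: m) (S.inv b :: a :: m') :=
    (e.cons q).trans (E.of (Fl.head m' (S.symm (S.rot (S.symm h)))))
  rw [act_tail hq e2]
  exact act_red _ _

theorem act_sq {a b p q : A} (h : S.sq a b = some (p, q)) (x : S.Om) :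
    act a (act p x) = act b (act q x) := by
  induction x using Om.ind' with
  | h m hm =>
  by_cases hp : S.Red (p :: m)
  · by_cases hq : S.Red (q :: m)
    · have aux : ∀ {a b p q : A}, S.sq a b = some (p, q) → S.Red (p :: m) → S.Red (q :: m) →
          S.Red (a :: p :: m) := by
        intro a b p q h hp hq
        by_contra hn
        obtain ⟨m', e⟩ := exists_tail hp hn
        have h1 := S.rot h
        rcases key _ _ _ _ _ rfl e with ⟨h2, _⟩ | ⟨r, e', f, h2, h3, _⟩
        · rw [← h2, S.irrefl] at h1
          cases h1
        · rw [S.symm h1] at h2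
          simp only [Option.some.injEq, Prod.mk.injEq] at h2
          rw [← h2.1] at h3
          exact hq _ (h3.cons q) (HasBack.here q r)
      have h1 := aux h hp hq
      have h2 := aux (S.symm h) hq hp
      rw [act_red hm hp, act_red hm hq, act_red hp h1, act_red hq h2]
      exact cl_eq _ _ (E.of (Fl.head m h))
    · exact (act_sq_aux (S.symm h) hm hq hp).symm
  · by_cases hq : S.Red (q :: m)
    · exact act_sq_aux h hm hp hq
    · obtain ⟨m', e⟩ := exists_tail hm hp
      obtain ⟨m'', e'⟩ := exists_tail hm hq
      rw [act_tail hm e, act_tail hm e']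
      have hb := backs h
      rcases key _ _ _ _ _ rfl (e.symm.trans e') with ⟨h2, _⟩ | ⟨r, g, f, h2, h3, h4⟩
      · rw [h2, S.irrefl] at hb
        cases hb
      · rw [hb] at h2
        simp only [Option.some.injEq, Prod.mk.injEq] at h2
        rw [← h2.1] at h3
        rw [← h2.2] at h4
        rw [act_tail _ h3, act_tail _ h4]

variable (S) in
/-- relators -/
def rels : Set (FreeGroup A) :=
  {r | (∃ a, r = FreeGroup.of a * FreeGroup.of (S.inv a)) ∨
    ∃ a b p q, S.sq a b = some (p, q) ∧
      r = FreeGroup.of a * FreeGroup.of p * (FreeGroup.of b * FreeGroup.of q)⁻¹}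

variable (S) in
/-- the group of the square system -/
abbrev Grp : Type := PresentedGroup S.rels

variable (S) in
/-- the group element of a dart -/
def gn (a : A) : S.Grp := PresentedGroup.of a

theorem gn_inv (a : A) : S.gn (S.inv a) = (S.gn a)⁻¹ := by
  have h : PresentedGroup.mk S.rels (FreeGroup.of a * FreeGroup.of (S.inv a)) = 1 :=
    PresentedGroup.one_of_mem (Or.inl ⟨a, rfl⟩)
  rw [map_mul] at h
  exact (inv_eq_of_mul_eq_one_right h).symm

theorem gn_sq {a b p q : A} (h : S.sq a b = some (p, q)) : S.gn a * S.gn p = S.gn b * S.gn q := by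
  have h : PresentedGroup.mk S.rels
      (FreeGroup.of a * FreeGroup.of p * (FreeGroup.of b * FreeGroup.of q)⁻¹) = 1 :=
    PresentedGroup.one_of_mem (Or.inr ⟨a, b, p, q, h, rfl⟩)
  rw [map_mul, map_mul, map_inv, map_mul] at h
  exact mul_inv_eq_one.mp h

/-- homomorphisms out of the group of a square system -/
def lift {K : Type} [Group K] (f : A → K) (h1 : ∀ a, f (S.inv a) = (f a)⁻¹)
    (h2 : ∀ a b p q, S.sq a b = some (p, q) → f a * f p = f b * f q) : S.Grp →* K :=
  PresentedGroup.toGroup (f := f) (rels := S.rels) (by
    rintro r (⟨a, rfl⟩ | ⟨a, b, p, q, h, rfl⟩)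
    · simp [h1]
    · simp only [map_mul, map_inv, FreeGroup.lift_apply_of]
      rw [h2 a b p q h]
      simp)

@[simp] theorem lift_gn {K : Type} [Group K] (f : A → K) (h1 : ∀ a, f (S.inv a) = (f a)⁻¹)
    (h2 : ∀ a b p q, S.sq a b = some (p, q) → f a * f p = f b * f q) (a : A) :
    lift f h1 h2 (S.gn a) = f a := by
  unfold lift gn
  exact PresentedGroup.toGroup.of _

theorem grp_induction {P : S.Grp → Prop} (h1 : P 1) (h2 : ∀ a g, P g → P (S.gn a * g)) (g : S.Grp) :
    P g := by
  have key : ∀ (w : FreeGroup A) (g : S.Grp), P g → P (PresentedGroup.mk S.rels w * g) := by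
    intro w
    induction w using FreeGroup.induction_on with
    | C1 => intro g hg; simpa using hg
    | of a => intro g hg; exact h2 a g hg
    | inv_of a ih =>
      intro g hg
      have := h2 (S.inv a) g hg
      rw [gn_inv] at this
      rw [map_inv]
      exact this
    | mul x y hx hy =>
      intro g hg
      rw [map_mul, mul_assoc]
      exact hx _ (hy _ hg)
  obtain ⟨w, rfl⟩ := PresentedGroup.mk_surjective S.rels g
  simpa using key w 1 h1

/-- the permutation of the set of reduced classes defined by a dart -/
noncomputable def prm (a : A) : Equiv.Perm S.Om where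
  toFun := act a
  invFun := act (S.inv a)
  left_inv := fun q => by
    have := act_inv (S.inv a) q
    rwa [S.inv_inv] at this
  right_inv := act_inv a

theorem prm_apply (a : A) (q : S.Om) : prm a q = act a q := rfl

variable (S) in
/-- the action of the group on reduced classes -/
noncomputable def toPerm : S.Grp →* Equiv.Perm S.Om :=
  lift prm (fun a => by
    rw [eq_inv_iff_mul_eq_one]
    ext q
    have := act_inv (S.inv a) q
    rw [S.inv_inv] at this
    exact this)
    (fun a b p q h => by
      ext x
      exact act_sq h x)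

@[simp] theorem toPerm_gn (a : A) : S.toPerm (S.gn a) = prm a := by
  unfold toPerm
  simp

/-- evaluation of words -/
def evL (l : List A) : S.Grp := (l.map S.gn).prod

@[simp] theorem evL_nil : evL (S := S) [] = 1 := rfl

@[simp] theorem evL_cons (a : A) (l : List A) : evL (S := S) (a :: l) = S.gn a * evL l := by
  simp [evL]

theorem evL_E {l l' : List A} (h : S.E l l') : evL (S := S) l = evL l' := by
  induction h with
  | refl => rfl
  | tail _ h2 ih =>
    rw [ih]
    clear ih
    rename_i h1
    clear h1
    induction h2 with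
    | head l h => simp only [evL_cons, ← mul_assoc, gn_sq h]
    | cons c _ ih => simp [ih]

/-- evaluation of reduced classes -/
def ev : S.Om → S.Grp := Quotient.lift (s := S.stR) (fun m => evL m.1) (fun _ _ h => evL_E h)

@[simp] theorem ev_cl (m : List A) (h : S.Red m) : ev (cl m h) = evL m := rfl

variable (S) in
/-- the class of the empty word -/
def base : S.Om := cl [] red_nil

@[simp] theorem ev_base : ev S.base = 1 := rfl

theorem ev_act (a : A) (q : S.Om) : ev (act a q) = S.gn a * ev q := by
  induction q using Om.ind' with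
  | h m hm =>
  by_cases h : S.Red (a :: m)
  · rw [act_red hm h]
    simp
  · obtain ⟨m', e⟩ := exists_tail hm h
    rw [act_tail hm e, ev_cl, ev_cl, evL_E e, evL_cons, gn_inv]
    simp

theorem ev_toPerm (g : S.Grp) (q : S.Om) : ev (S.toPerm g q) = g * ev q := by
  induction g using grp_induction with
  | h1 => simp
  | h2 a g ih =>
    rw [map_mul, Equiv.Perm.mul_apply, toPerm_gn, prm_apply, ev_act, ih, mul_assoc]

/-- the reduced class of a group element -/
noncomputable def nf (g : S.Grp) : S.Om := S.toPerm g S.base

theorem ev_nf (g : S.Grp) : ev (nf g) = g := by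
  unfold nf
  rw [ev_toPerm]
  simp

theorem nf_gn_mul (a : A) (g : S.Grp) : nf (S.gn a * g) = act a (nf g) := by
  unfold nf
  rw [map_mul, Equiv.Perm.mul_apply, toPerm_gn, prm_apply]

theorem nf_one : nf (1 : S.Grp) = S.base := by
  unfold nf
  simp

theorem nf_evL (m : List A) (h : S.Red m) : nf (evL (S := S) m) = cl m h := by
  induction m with
  | nil => exact nf_one
  | cons a m ih => rw [evL_cons, nf_gn_mul, ih h.tail, act_red h.tail h]

/-- a group element is uniquely given by a reduced word up to flips -/
theorem E_of_evL_eq {m m' : List A} (h : S.Red m) (h' : S.Red m')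
    (e : evL (S := S) m = evL m') : S.E m m' := by
  have h1 := nf_evL m h
  rw [e, nf_evL m' h'] at h1
  exact (of_cl_eq h1).symm

theorem exists_red (g : S.Grp) : ∃ m, S.Red m ∧ evL (S := S) m = g := by
  have h := ev_nf g
  revert h
  generalize nf g = q
  induction q using Om.ind' with
  | h m hm => exact fun h => ⟨m, hm, h⟩

/-- length -/
def lenO : S.Om → ℕ := Quotient.lift (s := S.stR) (fun m => m.1.length) (fun _ _ h => E.length h)

/-- length of a group element -/
noncomputable def len (g : S.Grp) : ℕ := lenO (nf g)

theorem len_evL (m : List A) (h : S.Red m) : len (evL (S := S) m) = m.length := by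
  unfold len
  rw [nf_evL m h]
  rfl

theorem len_one : len (1 : S.Grp) = 0 := len_evL [] red_nil

theorem len_eq_zero {g : S.Grp} (h : len g = 0) : g = 1 := by
  obtain ⟨m, hm, rfl⟩ := exists_red g
  rw [len_evL m hm] at h
  have := List.eq_nil_of_length_eq_zero h
  subst this
  rfl

/-- multiplication by a dart changes the length by one -/
theorem len_gn_mul (a : A) (g : S.Grp) :
    (len (S.gn a * g) = len g + 1) ∨ (len (S.gn a * g) + 1 = len g) := by
  obtain ⟨m, hm, rfl⟩ := exists_red g
  by_cases h : S.Red (a :: m)
  · left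
    rw [← evL_cons, len_evL _ h, len_evL _ hm]
    simp
  · right
    obtain ⟨m', e⟩ := exists_tail hm h
    have hm' : S.Red m' := red_tail' hm e
    have e1 : S.gn a * evL (S := S) m = evL m' := by
      rw [evL_E e, evL_cons, gn_inv]
      simp
    rw [e1, len_evL _ hm', len_evL _ hm, E.length e]
    simp

/-- geodesics starting with `a` -/
theorem exists_red_cons {a : A} {g : S.Grp} (h : len (S.gn (S.inv a) * g) + 1 = len g) :
    ∃ m, S.Red (a :: m) ∧ evL (S := S) (a :: m) = g ∧ evL (S := S) m = S.gn (S.inv a) * g := by
  obtain ⟨m, hm, h2⟩ := exists_red (S.gn (S.inv a) * g)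
  have h3 : evL (S := S) (a :: m) = g := by
    rw [evL_cons, h2, gn_inv]
    simp
  refine ⟨m, ?_, h3, h2⟩
  by_contra hn
  obtain ⟨m', e⟩ := exists_tail hm hn
  have hm' : S.Red m' := red_tail' hm e
  have h4 : g = evL (S := S) m' := by
    rw [← h3, evL_cons, evL_E e, evL_cons, gn_inv]
    simp
  rw [← h2, len_evL _ hm, h4, len_evL _ hm', E.length e] at h
  simp only [List.length_cons] at h
  omega

end SqSys

end Pool.Agent.W387
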