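import Pool.Agent.W387.SqGrp
import Pool.Agent.W387.Median

/-!
The Cayley graph of the group of a square system is a median graph.
-/

set_option autoImplicit false

namespace Pool.Agent.W387

namespace SqSys

variable {A : Type} {S : SqSys A}

theorem evL_append (l l' : List A) : evL (S := S) (l ++ l') = evL l * evL l' := by
  simp [evL]

theorem len_evL_le (l : List A) : len (evL (S := S) l) ≤ l.length := by
  induction l with
  | nil =>
    rw [evL_nil, len_one]
    simp
  | cons a l ih =>
    rw [evL_cons, List.length_cons]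
    rcases len_gn_mul a (evL (S := S) l) with h | h <;> omega

theorem exists_evL_inv (l : List A) : ∃ l' : List A, l'.length = l.length ∧
    evL (S := S) l' = (evL l)⁻¹ := by
  induction l with
  | nil => exact ⟨[], rfl, by simp⟩
  | cons a l ih =>
    obtain ⟨l', h1, h2⟩ := ih
    refine ⟨l' ++ [S.inv a], by simp [h1], ?_⟩
    rw [evL_append, h2, evL_cons, evL_cons, gn_inv]
    simp

theorem len_inv_le (g : S.Grp) : len g⁻¹ ≤ len g := by
  obtain ⟨m, hm, rfl⟩ := exists_red g
  obtain ⟨l', h1, h2⟩ := exists_evL_inv (S := S) m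
  rw [← h2, len_evL m hm, ← h1]
  exact len_evL_le l'

theorem len_inv (g : S.Grp) : len g⁻¹ = len g := by
  apply le_antisymm (len_inv_le g)
  have := len_inv_le g⁻¹
  rwa [_root_.inv_inv] at this

theorem len_mul_le (g h : S.Grp) : len (g * h) ≤ len g + len h := by
  obtain ⟨m, hm, rfl⟩ := exists_red g
  obtain ⟨m', hm', rfl⟩ := exists_red h
  rw [len_evL m hm, len_evL m' hm', ← evL_append, ← List.length_append]
  exact len_evL_le _

/-- the distance -/
noncomputable def dd (v w : S.Grp) : ℕ := len (w * v⁻¹)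

theorem len_eq_one {g : S.Grp} (h : len g = 1) : ∃ a, g = S.gn a := by
  obtain ⟨m, hm, rfl⟩ := exists_red g
  rw [len_evL m hm] at h
  obtain ⟨a, rfl⟩ := List.length_eq_one_iff.mp h
  exact ⟨a, by simp⟩

theorem red_single (a : A) : S.Red [a] := by
  intro w hw hb
  have h := E.length hw
  cases hb with
  | here x l => simp at h
  | there x hb =>
    cases hb <;> simp at h

theorem len_gn (a : A) : len (S.gn a) = 1 := by
  have h := len_evL [a] (red_single (S := S) a)
  simpa using h

theorem red_of_len {m : List A} (h : len (evL (S := S) m) = m.length) : S.Red m := by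
  intro w hw hb
  have h1 : ∀ w : List A, S.HasBack w → len (evL (S := S) w) + 2 ≤ w.length := by
    intro w hb
    induction hb with
    | here x l =>
      have h2 : evL (S := S) (x :: S.inv x :: l) = evL l := by
        rw [evL_cons, evL_cons, gn_inv]
        simp
      rw [h2]
      have := len_evL_le (S := S) l
      simp only [List.length_cons]
      omega
    | there a hb ih =>
      rename_i l
      rw [evL_cons]
      simp only [List.length_cons]
      rcases len_gn_mul a (evL (S := S) l) with h | h <;> omega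
  have h2 := h1 w hb
  rw [← evL_E hw, h, E.length hw] at h2
  omega

theorem E_single {a b : A} (h : S.E [a] [b]) : a = b := by
  rcases key _ _ _ _ _ rfl h with ⟨h1, _⟩ | ⟨p, e, f, _, h2, _⟩
  · exact h1
  · have := E.length h2
    simp at this

theorem dd_one {v w : S.Grp} (h : dd v w = 1) : ∃ a, w = S.gn a * v := by
  obtain ⟨a, ha⟩ := len_eq_one h
  exact ⟨a, by rw [← ha]; simp⟩

theorem dd_comm (v w : S.Grp) : dd v w = dd w v := by
  unfold dd
  rw [← len_inv]
  simp

theorem dd_gn_mul (u v : S.Grp) (a : A) :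
    (dd u (S.gn a * v) = dd u v + 1) ∨ (dd u (S.gn a * v) + 1 = dd u v) := by
  unfold dd
  rw [mul_assoc]
  exact len_gn_mul a _

theorem dd_add_one {u v : S.Grp} {a : A} (h : dd u v + 1 = dd u (S.gn a * v)) :
    ∃ m, S.Red m ∧ evL (S := S) m = v * u⁻¹ ∧ S.Red (a :: m) ∧
      evL (S := S) (a :: m) = (S.gn a * v) * u⁻¹ := by
  obtain ⟨m, hm, hm2⟩ := exists_red (v * u⁻¹)
  have e : evL (S := S) (a :: m) = (S.gn a * v) * u⁻¹ := by
    rw [evL_cons, hm2, mul_assoc]
  refine ⟨m, hm, hm2, ?_, e⟩
  apply red_of_len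
  rw [e]
  unfold dd at h
  rw [← h, ← hm2, len_evL m hm]
  simp

theorem medD : MedD S.Grp dd where
  self := fun x => by
    unfold dd
    rw [mul_inv_cancel, len_one]
  eq := fun x y h => by
    have := len_eq_zero h
    rw [mul_inv_eq_one] at this
    exact this.symm
  comm := dd_comm
  tri := fun x y z => by
    unfold dd
    have := len_mul_le (z * y⁻¹) (y * x⁻¹)
    have e : z * y⁻¹ * (y * x⁻¹) = z * x⁻¹ := by group
    rw [e] at this
    omega
  step := fun x y h => by
    obtain ⟨m, hm, hm2⟩ := exists_red (x * y⁻¹)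
    cases m with
    | nil =>
      exfalso
      apply h
      rw [evL_nil] at hm2
      exact (mul_inv_eq_one.mp hm2.symm)
    | cons a m =>
      refine ⟨(S.gn a)⁻¹ * x, ?_, ?_⟩
      · unfold dd
        rw [mul_inv_cancel_right, len_inv, len_gn]
      · rw [dd_comm, dd_comm x y]
        unfold dd
        rw [← hm2, mul_assoc, ← hm2, evL_cons, inv_mul_cancel_left, ← evL_cons, len_evL _ hm,
          len_evL _ hm.tail]
        simp
  bip := fun u v w h => by
    obtain ⟨a, rfl⟩ := dd_one h
    rcases dd_gn_mul u v a with h | h <;> omega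
  qc := fun u v w z h1 h2 hne h3 h4 => by
    obtain ⟨a, rfl⟩ := dd_one h1
    obtain ⟨b, hb⟩ := dd_one h2
    obtain ⟨m, r1, e1, r2, e2⟩ := dd_add_one h3
    rw [hb] at h4
    obtain ⟨m', r1', e1', r2', e2'⟩ := dd_add_one h4
    have hE : S.E (a :: m) (b :: m') := E_of_evL_eq r2 r2' (by rw [e2, e2', hb])
    rcases key _ _ _ _ _ rfl hE with ⟨k1, _⟩ | ⟨p, e, f, k1, k2, k3⟩
    · subst k1
      exact absurd (mul_left_cancel hb) hne
    · have rp : S.Red p := (r1.congr k2).tail
      have q1 : v = S.gn e * (evL p * u) := by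
        rw [← mul_assoc, ← evL_cons, ← evL_E k2, e1]
        simp
      have q2 : w = S.gn f * (evL p * u) := by
        rw [← mul_assoc, ← evL_cons, ← evL_E k3, e1']
        simp
      refine ⟨evL p * u, ?_, ?_, ?_⟩
      · unfold dd
        rw [q1, mul_inv_cancel_right, len_gn]
      · unfold dd
        rw [q2, mul_inv_cancel_right, len_gn]
      · unfold dd
        rw [mul_inv_cancel_right, ← e1, len_evL _ rp, len_evL _ r1, E.length k2]
        simp
  k23 := fun u v x y z huv hxy hyz hxz a1 a2 a3 b1 b2 b3 => by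
    obtain ⟨a, rfl⟩ := dd_one a1
    obtain ⟨b, rfl⟩ := dd_one a2
    obtain ⟨c, rfl⟩ := dd_one a3
    rw [dd_comm] at b1 b2 b3
    obtain ⟨a', ha⟩ := dd_one b1
    obtain ⟨b', hb⟩ := dd_one b2
    obtain ⟨c', hc⟩ := dd_one b3
    have ua : dd u (S.gn a * u) = 1 := by
      unfold dd
      rw [mul_inv_cancel_right, len_gn]
    have huv' : dd u v ≠ 0 := by
      intro h
      have := len_eq_zero h
      rw [mul_inv_eq_one] at this
      exact huv this.symm
    have h2 : dd u v = 2 := by
      have h5 := dd_gn_mul u (S.gn a * u) a'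
      rw [← ha, ua] at h5
      omega
    have red2 : ∀ a a' : A, v = S.gn a' * (S.gn a * u) → S.Red [a', a] := by
      intro a a' h
      apply red_of_len
      have e : evL (S := S) [a', a] = v * u⁻¹ := by
        rw [h]
        simp [mul_assoc]
      rw [e]
      exact h2
    have key2 : ∀ a a' b b' : A, v = S.gn a' * (S.gn a * u) → v = S.gn b' * (S.gn b * u) →
        S.gn a * u ≠ S.gn b * u → S.sq a' b' = some (a, b) := by
      intro a a' b b' h h' hne
      have hE : S.E [a', a] [b', b] := by
        apply E_of_evL_eq (red2 _ _ h) (red2 _ _ h')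
        simp only [evL_cons, evL_nil, mul_one]
        have := h.symm.trans h'
        rw [← mul_assoc, ← mul_assoc] at this
        exact mul_right_cancel this
      rcases key _ _ _ _ _ rfl hE with ⟨k1, _⟩ | ⟨p, e, f, k1, k2, k3⟩
      · exfalso
        subst k1
        exact hne (mul_left_cancel (h.symm.trans h'))
      · have l1 := E.length k2
        simp only [List.length_cons, List.length_nil] at l1
        have l2 : p = [] := List.eq_nil_of_length_eq_zero (by omega)
        subst l2
        rw [k1, E_single k2, E_single k3]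
    have s1 := key2 _ _ _ _ ha hb hxy
    have s2 := key2 _ _ _ _ ha hc hxz
    have := inj s1 s2
    exact hyz (by rw [this.2])

variable (S) in
/-- vertex set of the Cayley graph -/
@[ext] structure Vx : Type where
  /-- the group element of a vertex -/
  g : S.Grp

noncomputable instance : MulAction S.Grp S.Vx where
  smul := fun g v => ⟨v.g * g⁻¹⟩
  one_smul := fun v => by
    apply Vx.ext
    show v.g * (1 : S.Grp)⁻¹ = v.g
    simp
  mul_smul := fun g h v => by
    apply Vx.ext
    show v.g * (g * h)⁻¹ = v.g * h⁻¹ * g⁻¹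
    simp [mul_assoc]

theorem smul_def (g : S.Grp) (v : S.Vx) : g • v = ⟨v.g * g⁻¹⟩ := rfl

variable (S) in
/-- the Cayley graph -/
def Cay : SimpleGraph S.Vx where
  Adj := fun v w => ∃ a, w.g = S.gn a * v.g
  symm := by
    constructor
    rintro v w ⟨a, h⟩
    refine ⟨S.inv a, ?_⟩
    rw [gn_inv, h]
    simp
  loopless := by
    constructor
    rintro v ⟨a, h⟩
    have h1 : S.gn a = 1 := by
      simpa using h
    have h3 := len_gn (S := S) a
    rw [h1, len_one] at h3
    omega

theorem cay_adj {v w : S.Vx} : S.Cay.Adj v w ↔ ∃ a, w.g = S.gn a * v.g := Iff.rfl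

theorem walk_len {v w : S.Vx} (p : S.Cay.Walk v w) : dd v.g w.g ≤ p.length := by
  induction p with
  | nil => rw [medD.self]; simp
  | cons h p ih =>
    rename_i u v w
    rw [SimpleGraph.Walk.length_cons]
    obtain ⟨a, h⟩ := h
    have h1 := medD.tri u.g v.g w.g
    have h2 : dd u.g v.g = 1 := by
      rw [h]
      unfold dd
      rw [mul_inv_cancel_right, len_gn]
    omega

theorem exists_walk (l : List A) (v : S.Vx) :
    ∃ p : S.Cay.Walk v ⟨evL l * v.g⟩, p.length = l.length := by
  induction l with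
  | nil =>
    rw [evL_nil, one_mul]
    exact ⟨SimpleGraph.Walk.nil, rfl⟩
  | cons a l ih =>
    obtain ⟨p, hp⟩ := ih
    have h : S.Cay.Adj ⟨evL l * v.g⟩ ⟨evL (a :: l) * v.g⟩ :=
      ⟨a, by rw [evL_cons, mul_assoc]⟩
    exact ⟨p.concat h, by rw [SimpleGraph.Walk.length_concat, hp, List.length_cons]⟩

theorem exists_walk' (v w : S.Vx) : ∃ p : S.Cay.Walk v w, p.length = dd v.g w.g := by
  obtain ⟨m, hm, hm2⟩ := exists_red (w.g * v.g⁻¹)
  obtain ⟨p, hp⟩ := exists_walk m v
  have e : (⟨evL m * v.g⟩ : S.Vx) = w := by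
    apply Vx.ext
    rw [hm2]
    simp
  have hp2 : p.length = dd v.g w.g := by
    unfold dd
    rw [hp, ← hm2, len_evL m hm]
  clear hp
  revert p
  rw [e]
  exact fun p h => ⟨p, h⟩

theorem cay_connected : S.Cay.Connected where
  preconnected := fun v w => ⟨(exists_walk' v w).choose⟩
  nonempty := ⟨⟨1⟩⟩

theorem cay_dist (v w : S.Vx) : S.Cay.dist v w = dd v.g w.g := by
  apply le_antisymm
  · obtain ⟨p, hp⟩ := exists_walk' v w
    rw [← hp]
    exact SimpleGraph.dist_le p
  · obtain ⟨p, hp⟩ := cay_connected.exists_walk_length_eq_dist v w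
    rw [← hp]
    exact walk_len p

variable (S) in
/-- the group of a finite square system acts geometrically on a median graph -/
theorem geom [Finite A] :
  ∃ (V : Type) (_ : MulAction S.Grp V) (Γ : SimpleGraph V),
    Nonempty V ∧ Γ.Connected ∧
    (∀ v : V, (Γ.neighborSet v).Finite) ∧
    (∀ x y z : V, ∃! m : V,
        Γ.dist x m + Γ.dist m y = Γ.dist x y ∧
        Γ.dist y m + Γ.dist m z = Γ.dist y z ∧
        Γ.dist x m + Γ.dist m z = Γ.dist x z) ∧
    (∀ (g : S.Grp) (u v : V), Γ.Adj u v → Γ.Adj (g • u) (g • v)) ∧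
    (∀ v : V, (MulAction.stabilizer S.Grp v : Set S.Grp).Finite) ∧
    (∃ T : Finset V, ∀ v : V, ∃ g : S.Grp, ∃ s ∈ T, g • s = v) := by
  refine ⟨S.Vx, inferInstance, S.Cay, ⟨⟨1⟩⟩, cay_connected, ?_, ?_, ?_, ?_, ?_⟩
  · intro v
    apply Set.Finite.subset (Set.finite_range (fun a => (⟨S.gn a * v.g⟩ : S.Vx)))
    rintro w ⟨a, h⟩
    exact ⟨a, Vx.ext h.symm⟩
  · intro x y z
    simp only [cay_dist]
    obtain ⟨m, hm, hm2⟩ := medD.existsUnique x.g y.g z.g
    exact ⟨⟨m⟩, hm, fun m' hm' => Vx.ext (hm2 m'.g hm')⟩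
  · rintro g u v ⟨a, h⟩
    refine ⟨a, ?_⟩
    rw [smul_def, smul_def, h, mul_assoc]
  · intro v
    apply Set.Finite.subset (Set.finite_singleton (1 : S.Grp))
    intro g hg
    have h1 : g • v = v := hg
    rw [smul_def] at h1
    have h2 : v.g * g⁻¹ = v.g := congrArg Vx.g h1
    have h3 : g = 1 := by simpa using h2
    exact h3
  · refine ⟨{⟨1⟩}, fun v => ⟨v.g⁻¹, ⟨1⟩, by simp, ?_⟩⟩
    rw [smul_def]
    simp

end SqSys

end Pool.Agent.W387
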