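import Mathlib

/-!
Square systems: the combinatorics of one-vertex square complexes whose links are simple and satisfy
the cube condition.
-/

set_option autoImplicit false

namespace Pool.Agent.W387

/-- A one-vertex cube complex, given by its directed edges (darts) and its squares.
`sq a b = some (p, q)` says that the darts `a`, `b` leaving the vertex span a square whose other two
sides are `p` (after `a`) and `q` (after `b`), that is `a p = b q`. -/
structure SqSys (A : Type) where
  inv : A → A
  inv_inv : ∀ a, inv (inv a) = a
  sq : A → A → Option (A × A)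
  symm : ∀ {a b p q : A}, sq a b = some (p, q) → sq b a = some (q, p)
  rot : ∀ {a b p q : A}, sq a b = some (p, q) → sq (inv a) p = some (b, inv q)
  irrefl : ∀ a, sq a a = none
  cube : ∀ {a b c b1 a1 c1 b2 c2 a2 : A}, sq a b = some (b1, a1) → sq b c = some (c1, b2) →
    sq a c = some (c2, a2) →
    ∃ a3 b3 c3, sq b1 c2 = some (c3, b3) ∧ sq a1 c1 = some (c3, a3) ∧ sq a2 b2 = some (b3, a3)

namespace SqSys

variable {A : Type} (S : SqSys A)

/-- elementary flips of words -/
inductive Fl : List A → List A → Prop
  | head {a b p q : A} (l : List A) : S.sq a b = some (p, q) → Fl (a :: p :: l) (b :: q :: l)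
  | cons (c : A) {l l' : List A} : Fl l l' → Fl (c :: l) (c :: l')

/-- equivalence by flips -/
def E : List A → List A → Prop := Relation.ReflTransGen (S.Fl)

variable {S}

theorem Fl.symm {l l' : List A} (h : S.Fl l l') : S.Fl l' l := by
  induction h with
  | head l h => exact Fl.head l (S.symm h)
  | cons c _ ih => exact Fl.cons c ih

theorem E.refl (l : List A) : S.E l l := Relation.ReflTransGen.refl

theorem E.symm {l l' : List A} (h : S.E l l') : S.E l' l := by
  induction h with
  | refl => exact Relation.ReflTransGen.refl
  | tail _ h2 ih => exact Relation.ReflTransGen.head (Fl.symm h2) ih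

theorem E.trans {l l' l'' : List A} (h : S.E l l') (h' : S.E l' l'') : S.E l l'' :=
  Relation.ReflTransGen.trans h h'

theorem E.of {l l' : List A} (h : S.Fl l l') : S.E l l' := Relation.ReflTransGen.single h

theorem E.cons (c : A) {l l' : List A} (h : S.E l l') : S.E (c :: l) (c :: l') := by
  induction h with
  | refl => exact E.refl _
  | tail _ h2 ih => exact ih.trans (E.of (Fl.cons c h2))

theorem Fl.length {l l' : List A} (h : S.Fl l l') : l.length = l'.length := by
  induction h with
  | head l h => simp
  | cons c _ ih => simp [ih]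

theorem E.length {l l' : List A} (h : S.E l l') : l.length = l'.length := by
  induction h with
  | refl => rfl
  | tail _ h2 ih => rw [ih, h2.length]

variable (S) in
/-- conclusion of the key lemma -/
def KL (a : A) (u : List A) (b : A) (v : List A) : Prop :=
  (a = b ∧ S.E u v) ∨ ∃ (p : List A) (e f : A), S.sq a b = some (e, f) ∧ S.E u (e :: p) ∧ S.E v (f :: p)

theorem inj {a b c p q r : A} (h1 : S.sq c a = some (p, q)) (h2 : S.sq c b = some (p, r)) :
    a = b ∧ q = r := by
  have h3 := S.rot h1
  have h4 := S.rot h2
  rw [h3] at h4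
  simp only [Option.some.injEq, Prod.mk.injEq] at h4
  refine ⟨h4.1, ?_⟩
  have := congrArg S.inv h4.2
  rwa [S.inv_inv, S.inv_inv] at this

theorem key : ∀ (n : ℕ) (u : List A) (a b : A) (v : List A), u.length = n →
    S.E (a :: u) (b :: v) → S.KL a u b v := by
  intro n
  induction n using Nat.strong_induction_on with
  | _ n IH =>
  intro u a b v hu h
  suffices H : ∀ w : List A, S.E (a :: u) w → ∀ b v, w = b :: v → S.KL a u b v from H _ h _ _ rfl
  clear h b v
  intro w h
  induction h with
  | refl =>
    intro b v hw
    simp only [List.cons.injEq] at hw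
    exact Or.inl ⟨hw.1, by rw [hw.2]; exact E.refl _⟩
  | tail h1 h2 ih =>
    rename_i w1 w2
    intro b v hw
    subst hw
    have hlen : w1.length = u.length + 1 := by
      have := E.length h1
      simp at this
      omega
    cases h2 with
    | cons c h3 =>
      rename_i l
      rcases ih b l rfl with ⟨h4, h5⟩ | ⟨p, e, f, h4, h5, h6⟩
      · exact Or.inl ⟨h4, h5.trans (E.of h3)⟩
      · exact Or.inr ⟨p, e, f, h4, h5, (E.of h3).symm.trans h6⟩
    | head l hsq =>
      rename_i c y y'
      -- `sq c b = some (y, y')`
      rcases ih c (y :: l) rfl with ⟨h4, h5⟩ | ⟨p, e, f, h4, h5, h6⟩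
      · subst h4
        exact Or.inr ⟨l, y, y', hsq, h5, E.refl _⟩
      · have hl : l.length < n := by
          simp at hlen
          omega
        rcases IH l.length hl l y f p rfl h6 with ⟨h7, h8⟩ | ⟨p', g, k, h7, h8, h9⟩
        · subst h7
          obtain ⟨h10, h11⟩ := inj (S.symm h4) hsq
          subst h10
          subst h11
          exact Or.inl ⟨rfl, h5.trans (h8.symm.cons e)⟩
        · obtain ⟨a3, b3, c3, k1, k2, k3⟩ := S.cube (S.rot hsq) h7 (S.rot (S.symm h4))
          refine Or.inr ⟨S.inv a3 :: p', b3, c3, S.symm k1, ?_, ?_⟩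
          · refine h5.trans ((h9.cons e).trans (E.of (Fl.head p' ?_)))
            have := S.rot k3
            rwa [S.inv_inv] at this
          · refine (h8.cons y').trans (E.of (Fl.head p' ?_))
            have := S.rot k2
            rwa [S.inv_inv] at this

theorem cancel {a : A} {u v : List A} (h : S.E (a :: u) (a :: v)) : S.E u v := by
  rcases key _ _ _ _ _ rfl h with ⟨_, h⟩ | ⟨p, e, f, h, _⟩
  · exact h
  · rw [S.irrefl] at h
    cases h

variable (S) in
/-- words with a factor `x x⁻¹` -/
inductive HasBack : List A → Prop
  | here (x : A) (l : List A) : HasBack (x :: S.inv x :: l)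
  | there (a : A) {l : List A} : HasBack l → HasBack (a :: l)

variable (S) in
/-- reduced words -/
def Red (m : List A) : Prop := ∀ w, S.E m w → ¬ S.HasBack w

theorem Red.congr {m m' : List A} (h : S.Red m) (e : S.E m m') : S.Red m' :=
  fun w hw => h w (e.trans hw)

theorem Red.tail {a : A} {m : List A} (h : S.Red (a :: m)) : S.Red m :=
  fun w hw hb => h (a :: w) (hw.cons a) (HasBack.there a hb)

theorem red_nil : S.Red [] := by
  intro w hw hb
  have := E.length hw
  cases hb <;> simp at this

theorem not_red {m : List A} (h : ¬ S.Red m) : ∃ w, S.E m w ∧ S.HasBack w := by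
  unfold Red at h
  push Not at h
  exact h

theorem redStep : ∀ (n : ℕ) (m : List A) (a : A), m.length = n → S.Red m → ¬ S.Red (a :: m) →
    ∃ m', S.E m (S.inv a :: m') := by
  intro n
  induction n using Nat.strong_induction_on with
  | _ n IH =>
  intro m a hm hr hn
  obtain ⟨w, hw, hb⟩ := not_red hn
  cases hb with
  | here x q =>
    rcases key _ _ _ _ _ rfl hw with ⟨h1, h2⟩ | ⟨p, e, f, h1, h2, h3⟩
    · subst h1
      exact ⟨q, h2⟩
    · exfalso
      have h4 := S.rot (S.symm h1)
      rcases key _ _ _ _ _ rfl h3 with ⟨h5, h6⟩ | ⟨p', g, k, h5, h6, h7⟩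
      · rw [← h5, S.irrefl] at h4
        cases h4
      · rw [h4] at h5
        simp only [Option.some.injEq, Prod.mk.injEq] at h5
        have h8 : S.E m (e :: S.inv e :: p') := by
          refine h2.trans (E.cons e ?_)
          rw [h5.2]
          exact h7
        exact hr _ h8 (HasBack.here e p')
  | there b hb =>
    rename_i w'
    rcases key _ _ _ _ _ rfl hw with ⟨h1, h2⟩ | ⟨p, e, f, h1, h2, h3⟩
    · exact absurd hb (hr _ h2)
    · have hp : S.Red p := (hr.congr h2).tail
      have hnf : ¬ S.Red (f :: p) := fun h => h _ h3.symm hb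
      have hlen : p.length < n := by
        have := E.length h2
        simp at this
        omega
      obtain ⟨p', hp'⟩ := IH p.length hlen p f rfl hp hnf
      refine ⟨b :: p', h2.trans ((hp'.cons e).trans (E.of (Fl.head p' ?_)))⟩
      exact S.symm (S.rot h1)

end SqSys

end Pool.Agent.W387
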