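import Pool.Agent.W387.K2
import Pool.Agent.W387.SqMedian

/-!
The cubical group, the subgroup and its presentation.
-/

set_option autoImplicit false

namespace Pool.Agent.W387

open SqSys

/-! ### Local convexity -/

/-- the darts of `u`, `v`, `s` -/
def T0 : Dart → Bool
  | (.inl i, _) => decide (10 ≤ i.val)
  | (.inr _, _) => false

theorem T0_dinv (d : Dart) : T0 (dinv d) = T0 d := by
  obtain ⟨(i | i), s⟩ := d <;> rfl

/-- convexity check on a square -/
def cvx {A : Type} (T : A → Bool) (s : A × A × A × A) : Bool :=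
  (!(T s.1 && T s.2.2.1) || (T s.2.1 && T s.2.2.2)) &&
  (!(T s.1 && T s.2.1) || (T s.2.2.1 && T s.2.2.2)) &&
  (!(T s.2.2.1 && T s.2.2.2) || (T s.1 && T s.2.1)) &&
  (!(T s.2.1 && T s.2.2.2) || (T s.1 && T s.2.2.1))

theorem cvx_spec {A : Type} [DecidableEq A] {inv : A → A} {hinv : ∀ a, inv (inv a) = a}
    {L : List (A × A × A × A)}
    {hn : ((entries inv L).map Prod.fst).Nodup}
    {hirr : ∀ e ∈ entries inv L, e.1.1 ≠ e.1.2}
    {htri : ∀ a b c : A, (a, b) ∈ (entries inv L).map Prod.fst →
      (b, c) ∈ (entries inv L).map Prod.fst → (a, c) ∈ (entries inv L).map Prod.fst → False}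
    (T : A → Bool) (hT : ∀ a, T (inv a) = T a) (h : ∀ s ∈ L, cvx T s = true) (a b p q : A)
    (hs : (ofList hinv L hn hirr htri).sq a b = some (p, q)) (ha : T a = true) (hb : T b = true) :
    T p = true ∧ T q = true := by
  obtain ⟨⟨x, y, X, Y⟩, hs, h2⟩ := List.mem_flatMap.mp (lookup_mem _ _ _ hs)
  have h3 := h _ hs
  simp only [cvx] at h3
  simp only [corners, List.mem_cons, Prod.mk.injEq, List.not_mem_nil, or_false] at h2
  rcases h2 with h | h | h | h | h | h | h | h <;> obtain ⟨⟨rfl, rfl⟩, rfl, rfl⟩ := h <;>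
    simp only [hT] at * <;> simp [ha, hb] at h3 <;> simp [h3]

theorem sqL_cvx : ∀ s ∈ sqL, cvx T0 s = true := by
  have h : sqL.all (cvx T0) = true := by decide +kernel
  exact List.all_eq_true.mp h

theorem Y_cvx (a b p q : Dart) (hs : Y.sq a b = some (p, q)) (ha : T0 a = true)
    (hb : T0 b = true) : T0 p = true ∧ T0 q = true :=
  cvx_spec T0 T0_dinv sqL_cvx a b p q hs ha hb

/-! ### The small complex -/

/-- inversion of letters -/
def linv (l : Lt) : Lt := (l.1, !l.2)

theorem linv_linv (l : Lt) : linv (linv l) = l := by simp [linv]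

/-- code of a letter -/
def lcode (l : Lt) : ℕ := 2 * l.1.val + l.2.toNat

theorem lcode_inj : Function.Injective lcode := by
  rintro ⟨i, s⟩ ⟨i', s'⟩ h
  simp only [lcode] at h
  have h1 : s.toNat < 2 := Bool.toNat_lt s
  have h2 : s'.toNat < 2 := Bool.toNat_lt s'
  have h3 : i.val = i'.val := by omega
  have h4 : s.toNat = s'.toNat := by omega
  rw [Fin.ext h3, toNat_inj' _ _ h4]

theorem lcode_lt (l : Lt) : lcode l < 26 := by
  obtain ⟨i, s⟩ := l
  simp only [lcode]
  have h1 : s.toNat < 2 := Bool.toNat_lt s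
  omega

/-- the squares of the small complex -/
def zL : List (Lt × Lt × Lt × Lt) :=
  [((10, true), (11, true), (11, true), (10, true)), ((10, true), (12, true), (12, true), (11, true))]

theorem zL_chk : chk 26 ((entries linv zL).map fun e => (lcode e.1.1, lcode e.1.2)) = true := by
  decide +kernel

theorem zL_spec : ((entries linv zL).map Prod.fst).Nodup ∧
    (∀ e ∈ entries linv zL, e.1.1 ≠ e.1.2) ∧
    (∀ a b c : Lt, (a, b) ∈ (entries linv zL).map Prod.fst →
      (b, c) ∈ (entries linv zL).map Prod.fst →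
      (a, c) ∈ (entries linv zL).map Prod.fst → False) :=
  chk_spec lcode lcode_inj 26 lcode_lt zL zL_chk

/-- the small square system -/
def Z : SqSys Lt := ofList linv_linv zL zL_spec.1 zL_spec.2.1 zL_spec.2.2

/-- the generators of the small group -/
def zg (i : Fin 13) : Z.Grp := Z.gn (i, true)

theorem zg_uv : zg 10 * zg 11 = zg 11 * zg 10 := gn_sq (S := Z) (ofList_sq (by simp [zL]))

theorem zg_us : zg 10 * zg 12 = zg 12 * zg 11 := gn_sq (S := Z) (ofList_sq (by simp [zL]))

section Zlift

variable {K : Type} [Group K]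

/-- homomorphisms out of the small group -/
def Zlift (f : Fin 13 → K) (h1 : f 10 * f 11 = f 11 * f 10) (h2 : f 10 * f 12 = f 12 * f 11) :
    Z.Grp →* K :=
  SqSys.lift (lv f) (fun l => by obtain ⟨i, s⟩ := l; cases s <;> simp [Z, ofList, linv])
    (ofList_rel (lv f) (fun l => by obtain ⟨i, s⟩ := l; cases s <;> simp [linv])
      (fun x y X Y h => by
        simp only [zL, List.mem_cons, Prod.mk.injEq, List.not_mem_nil, or_false] at h
        rcases h with ⟨rfl, rfl, rfl, rfl⟩ | ⟨rfl, rfl, rfl, rfl⟩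
        · exact h1
        · exact h2))

theorem Zlift_gn (f : Fin 13 → K) (h1 : f 10 * f 11 = f 11 * f 10)
    (h2 : f 10 * f 12 = f 12 * f 11) (l : Lt) : Zlift f h1 h2 (Z.gn l) = lv f l :=
  lift_gn _ _ _ l

end Zlift

/-! ### Lines -/

/-- the line -/
def line : SqSys Bool where
  inv := not
  inv_inv := Bool.not_not
  sq := fun _ _ => none
  symm := fun h => by cases h
  rot := fun h => by cases h
  irrefl := fun _ => rfl
  cube := fun h => by cases h

section lineLift

variable {K : Type} [Group K]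

/-- homomorphisms out of the group of the line -/
def lineLift (t : K) : line.Grp →* K :=
  SqSys.lift (fun b => if b then t else t⁻¹) (fun b => by cases b <;> simp [line])
    (fun a b p q h => by cases h)

theorem lineLift_true (t : K) : lineLift t (line.gn true) = t := lift_gn _ _ _ true

theorem lineLift_false (t : K) : lineLift t (line.gn false) = t⁻¹ := lift_gn _ _ _ false

end lineLift

/-! ### The big complex -/

/-- first join -/
def X1 : SqSys (Dart ⊕ Bool) := join Y line T0 T0_dinv Y_cvx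

/-- second join -/
def X2 : SqSys ((Dart ⊕ Bool) ⊕ Lt) :=
  join X1 Z (fun _ => true) (fun _ => rfl) (fun _ _ _ _ _ _ _ => ⟨rfl, rfl⟩)

/-- the darts of the big complex `Y` -/
def T2 : (Dart ⊕ Bool) ⊕ Lt → Bool
  | .inl (.inl _) => true
  | _ => false

theorem T2_inv (a : (Dart ⊕ Bool) ⊕ Lt) : T2 (X2.inv a) = T2 a := by
  rcases a with (a | a) | a <;> rfl

theorem X2_cvx (a b p q : (Dart ⊕ Bool) ⊕ Lt) (hs : X2.sq a b = some (p, q)) (ha : T2 a = true)
    (hb : T2 b = true) : T2 p = true ∧ T2 q = true := by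
  rcases a with (a | a) | a
  · rcases b with (b | b) | b
    · obtain ⟨p', q', h1, rfl, rfl⟩ := (jsq_ll (S := X1) (S' := Z) (T := fun _ => true)).mp hs
      obtain ⟨p'', q'', h2, rfl, rfl⟩ := (jsq_ll (S := Y) (S' := line) (T := T0)).mp h1
      exact ⟨rfl, rfl⟩
    · cases hb
    · cases hb
  · cases ha
  · cases ha

/-- third join -/
def X3 : SqSys (((Dart ⊕ Bool) ⊕ Lt) ⊕ Bool) := join X2 line T2 T2_inv X2_cvx

/-- the cubical group -/
abbrev GG : Type := X3.Grp

theorem X1_of_Y {a b p q : Dart} (h : Y.sq a b = some (p, q)) :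
    X1.sq (.inl a) (.inl b) = some (.inl p, .inl q) :=
  (jsq_ll (S := Y) (S' := line) (T := T0)).mpr ⟨_, _, h, rfl, rfl⟩

theorem X2_of_X1 {a b p q : Dart ⊕ Bool} (h : X1.sq a b = some (p, q)) :
    X2.sq (.inl a) (.inl b) = some (.inl p, .inl q) :=
  (jsq_ll (S := X1) (S' := Z) (T := fun _ => true)).mpr ⟨_, _, h, rfl, rfl⟩

theorem X2_of_Z {a b p q : Lt} (h : Z.sq a b = some (p, q)) :
    X2.sq (.inr a) (.inr b) = some (.inr p, .inr q) :=
  (jsq_rr (S := X1) (S' := Z) (T := fun _ => true)).mpr ⟨_, _, h, rfl, rfl⟩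

theorem X3_of_X2 {a b p q : (Dart ⊕ Bool) ⊕ Lt} (h : X2.sq a b = some (p, q)) :
    X3.sq (.inl a) (.inl b) = some (.inl p, .inl q) :=
  (jsq_ll (S := X2) (S' := line) (T := T2)).mpr ⟨_, _, h, rfl, rfl⟩

theorem X1_cross {d : Dart} (h : T0 d = true) (b : Bool) :
    X1.sq (.inr b) (.inl d) = some (.inl d, .inr b) :=
  (jsq_rl (S := Y) (S' := line) (T := T0)).mpr ⟨h, rfl, rfl⟩

theorem X2_cross (d : Dart ⊕ Bool) (b : Lt) :
    X2.sq (.inr b) (.inl d) = some (.inl d, .inr b) :=
  (jsq_rl (S := X1) (S' := Z) (T := fun _ => true)).mpr ⟨rfl, rfl, rfl⟩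

theorem X3_cross (d : Dart) (b : Bool) :
    X3.sq (.inr b) (.inl (.inl (.inl d))) = some (.inl (.inl (.inl d)), .inr b) :=
  (jsq_rl (S := X2) (S' := line) (T := T2) (a := .inl (.inl d)) (b := b)).mpr ⟨rfl, rfl, rfl⟩

/-- embedding of the group of `Y` -/
def eY : Y.Grp →* GG :=
  SqSys.lift (fun d => X3.gn (.inl (.inl (.inl d))))
    (fun d => gn_inv (S := X3) (.inl (.inl (.inl d))))
    (fun _ _ _ _ h => gn_sq (S := X3) (X3_of_X2 (X2_of_X1 (X1_of_Y h))))

/-- the element `τ` -/
def tauG : GG := X3.gn (.inl (.inl (.inr true)))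

/-- embedding of the small group -/
def eZ : Z.Grp →* GG :=
  SqSys.lift (fun d => X3.gn (.inl (.inr d)))
    (fun d => gn_inv (S := X3) (.inl (.inr d)))
    (fun _ _ _ _ h => gn_sq (S := X3) (X3_of_X2 (X2_of_Z h)))

/-- the element `σ` -/
def sigG : GG := X3.gn (.inr true)

theorem eY_gn (d : Dart) : eY (Y.gn d) = X3.gn (.inl (.inl (.inl d))) := lift_gn _ _ _ d

theorem eZ_gn (l : Lt) : eZ (Z.gn l) = X3.gn (.inl (.inr l)) := lift_gn _ _ _ l

theorem comm_tau_Y (i : Fin 13) (hi : 10 ≤ i.val) : Commute tauG (eY (yg i)) := by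
  unfold yg
  rw [eY_gn]
  have h1 : T0 (bd (i, true)) = true := by simpa [bd, T0] using hi
  exact gn_sq (S := X3) (X3_of_X2 (X2_of_X1 (X1_cross h1 true)))

theorem comm_Z_Y (i j : Fin 13) : Commute (eZ (zg i)) (eY (yg j)) := by
  unfold yg zg
  rw [eY_gn, eZ_gn]
  exact gn_sq (S := X3) (X3_of_X2 (X2_cross (.inl (bd (j, true))) (i, true)))

theorem comm_Z_tau (i : Fin 13) : Commute (eZ (zg i)) tauG := by
  unfold zg
  rw [eZ_gn]
  exact gn_sq (S := X3) (X3_of_X2 (X2_cross (.inr true) (i, true)))

theorem comm_sig_Y (i : Fin 13) : Commute sigG (eY (yg i)) := by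
  unfold yg
  rw [eY_gn]
  exact gn_sq (S := X3) (X3_cross (bd (i, true)) true)

/-- images of the first thirteen generators -/
def pg : Fin 13 → GG := tw (fun i => eY (yg i)) (fun i => eZ (zg i)) tauG

theorem pg_rels : Rels pg := by
  apply Rels.tw (yg_rels.map eY)
  · rw [← map_mul, zg_uv, map_mul]
  · rw [← map_mul, zg_us, map_mul]
  · exact fun i j _ => comm_Z_Y i j
  · exact fun i _ => comm_Z_tau i
  · exact fun i hi => comm_tau_Y i hi

/-- all fourteen generators -/
def extend {K : Type} (f : Fin 13 → K) (t : K) : Fin 14 → K := Fin.snoc (α := fun _ => K) f t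

@[simp] theorem extend_castSucc {K : Type} (f : Fin 13 → K) (t : K) (i : Fin 13) :
    extend f t i.castSucc = f i := Fin.snoc_castSucc (α := fun _ => K) _ _ _

@[simp] theorem extend_last {K : Type} (f : Fin 13 → K) (t : K) : extend f t (Fin.last 13) = t :=
  Fin.snoc_last (α := fun _ => K) _ _

/-- the homomorphism -/
def phi : FreeGroup (Fin 14) →* GG := FreeGroup.lift (extend pg sigG)

/-- the generators of the free group -/
def fg (i : Fin 13) : FreeGroup (Fin 14) := FreeGroup.of i.castSucc

/-- the last generator -/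
def fs : FreeGroup (Fin 14) := FreeGroup.of (Fin.last 13)

/-- commutators -/
def cmr (i : Fin 13) : FreeGroup (Fin 14) := fs * fg i * fs⁻¹ * (fg i)⁻¹

/-- the relators -/
def RL : List (FreeGroup (Fin 14)) := relL fg ++ [cmr 0, cmr 1, cmr 2]

theorem phi_fg (i : Fin 13) : phi (fg i) = pg i := by
  unfold phi fg
  rw [FreeGroup.lift_apply_of, extend_castSucc]

theorem phi_fs : phi fs = sigG := by
  unfold phi fs
  rw [FreeGroup.lift_apply_of, extend_last]

theorem phi_RL : ∀ r ∈ RL, phi r = 1 := by
  intro r hr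
  unfold RL at hr
  have hc : ∀ i : Fin 13, i.val < 10 → phi (cmr i) = 1 := by
    intro i hi
    unfold cmr
    rw [map_mul, map_mul, map_mul, map_inv, map_inv, phi_fg, phi_fs]
    unfold pg
    rw [tw_lt hi, (comm_sig_Y i).eq]
    simp
  rcases List.mem_append.mp hr with hr | hr
  · have h1 := (relL_one pg).mpr pg_rels
    have h2 : pg = phi ∘ fg := by
      funext i
      exact (phi_fg i).symm
    rw [h2, ← map_relL] at h1
    exact h1 _ (List.mem_map.mpr ⟨r, hr, rfl⟩)
  · simp only [List.mem_cons, List.not_mem_nil, or_false] at hr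
    rcases hr with rfl | rfl | rfl
    · exact hc 0 (by decide)
    · exact hc 1 (by decide)
    · exact hc 2 (by decide)

/-! ### The map to the model -/

/-- embedding of `H2` in the model -/
def mH : H2 →* Model := (thB ZM).comp (MonoidHom.inr K2 H2)

/-- embedding of `K2` in the model, as the first factor -/
def mK : K2 →* Model := (thB ZM).comp (MonoidHom.inl K2 H2)

theorem mK_mH (k : K2) (h : H2) : Commute (mK k) (mH h) := by
  unfold mK mH
  simp only [MonoidHom.comp_apply]
  apply Commute.map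
  exact (MonoidHom.commute_inl_inr k h)

/-- the map from the group of `Y` to the model -/
def thY : Y.Grp →* Model := mH.comp ((thB C1).comp (Ylift kg kg_rels))

theorem thY_yg (i : Fin 13) : thY (yg i) = mH (thB C1 (kg i)) := by
  unfold thY yg
  simp only [MonoidHom.comp_apply]
  rw [Ylift_gn]
  rfl

theorem thY_gn (d : Dart) : thY (Y.gn d) = mH (thB C1 (fd kg d)) := by
  unfold thY
  simp only [MonoidHom.comp_apply]
  rw [Ylift_gn]

/-- the map on the first join -/
def thX1 : X1.Grp →* Model :=
  joinLift (hT1 := T0_dinv) (hT2 := Y_cvx) thY (lineLift (mH (thT C1))) (by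
    intro a b ha
    rw [thY_gn]
    have h1 : Commute (thB C1 (fd kg a)) (thT C1) := by
      obtain ⟨(i | i), s⟩ := a
      · apply thB_comm
        exact lv_mem_C1 (by simpa [T0] using ha) s
      · cases ha
    have h2 : Commute (mH (thB C1 (fd kg a))) (mH (thT C1)) := h1.map mH
    cases b
    · rw [lineLift_false]
      exact h2.inv_right
    · rw [lineLift_true]
      exact h2)

theorem thX1_Y (d : Dart) : thX1 (X1.gn (.inl d)) = mH (thB C1 (fd kg d)) :=
  (joinLift_inl _ _ _ d).trans (thY_gn d)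

theorem thX1_t : thX1 (X1.gn (.inr true)) = mH (thT C1) :=
  (joinLift_inr _ _ _ true).trans (lineLift_true _)

theorem thX1_f : thX1 (X1.gn (.inr false)) = (mH (thT C1))⁻¹ :=
  (joinLift_inr _ _ _ false).trans (lineLift_false _)

/-- the map on the small group -/
def thZ : Z.Grp →* Model := Zlift (fun i => mK (kg i))
  (by rw [← map_mul, kg_rels.uv, map_mul]) (by rw [← map_mul, kg_rels.us, map_mul])

theorem thZ_gn (l : Lt) : thZ (Z.gn l) = mK (lv kg l) := by
  rw [map_lv]
  exact Zlift_gn _ _ _ l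

/-- the map on the second join -/
def thX2 : X2.Grp →* Model :=
  joinLift (T := fun _ => true) (hT1 := fun _ => rfl) (hT2 := fun _ _ _ _ _ _ _ => ⟨rfl, rfl⟩)
    thX1 thZ (by
    intro a b _
    rw [thZ_gn]
    rcases a with a | a
    · rw [thX1_Y]
      exact (mK_mH _ _).symm.eq
    · cases a
      · rw [thX1_f, ← map_inv]
        exact (mK_mH _ _).symm.eq
      · rw [thX1_t]
        exact (mK_mH _ _).symm.eq)

theorem thX2_X1 (d : Dart ⊕ Bool) : thX2 (X2.gn (.inl d)) = thX1 (X1.gn d) :=
  joinLift_inl _ _ _ d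

theorem thX2_Z (l : Lt) : thX2 (X2.gn (.inr l)) = mK (lv kg l) :=
  (joinLift_inr _ _ _ l).trans (thZ_gn l)

theorem mH_thB_comm (k : K2) : Commute (mH (thB C1 k)) (thT ZM) := by
  apply thB_comm
  rw [mem_ZM]
  exact ⟨rfl, by simp [thB]⟩

/-- the map on the cubical group -/
def theta : GG →* Model :=
  joinLift (hT1 := T2_inv) (hT2 := X2_cvx) thX2 (lineLift (thT ZM)) (by
    intro a b ha
    rcases a with (a | a) | a
    · rw [thX2_X1, thX1_Y]
      cases b
      · rw [lineLift_false]
        exact (mH_thB_comm _).inv_right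
      · rw [lineLift_true]
        exact (mH_thB_comm _)
    · cases ha
    · cases ha)

theorem theta_X2 (d : (Dart ⊕ Bool) ⊕ Lt) : theta (X3.gn (.inl d)) = thX2 (X2.gn d) :=
  joinLift_inl _ _ _ d

theorem theta_sig : theta sigG = thT ZM :=
  (joinLift_inr _ _ _ true).trans (lineLift_true _)

theorem theta_tau : theta tauG = mH (thT C1) :=
  (theta_X2 _).trans ((thX2_X1 _).trans thX1_t)

theorem theta_Y (i : Fin 13) : theta (eY (yg i)) = mH (thB C1 (kg i)) := by
  unfold yg
  rw [eY_gn, theta_X2, thX2_X1, thX1_Y]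
  rfl

theorem theta_Z (i : Fin 13) : theta (eZ (zg i)) = mK (kg i) := by
  unfold zg
  rw [eZ_gn, theta_X2, thX2_Z]
  rfl

theorem theta_pg (i : Fin 13) : theta (pg i) = thB ZM (iota (kg i)) := by
  unfold pg
  by_cases hi : i.val < 10
  · rw [tw_lt hi, theta_Y]
    unfold mH iota
    simp only [MonoidHom.comp_apply]
    congr 1
    apply Prod.ext
    · exact (rho_lt hi).symm
    · exact (iota2_lt hi).symm
  · have hi' := not_lt.mp hi
    rw [tw_ge hi', map_mul, map_mul, theta_Y, theta_Z, theta_tau]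
    unfold mH mK iota
    simp only [MonoidHom.comp_apply]
    rw [← map_mul, ← map_mul]
    congr 1
    apply Prod.ext
    · simp [rho_ge hi']
    · simp [iota2_ge hi']

/-- the map from the free group to the trivial HNN extension -/
def pi14 : FreeGroup (Fin 14) →* TH N2 :=
  FreeGroup.lift (extend (fun i => thB N2 (kg i)) (thT N2))

theorem pi14_fg (i : Fin 13) : pi14 (fg i) = thB N2 (kg i) := by
  unfold pi14 fg
  rw [FreeGroup.lift_apply_of, extend_castSucc]

theorem pi14_fs : pi14 fs = thT N2 := by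
  unfold pi14 fs
  rw [FreeGroup.lift_apply_of, extend_last]

theorem hom14_ext {K : Type} [Group K] {f g : FreeGroup (Fin 14) →* K}
    (h : ∀ i, f (fg i) = g (fg i)) (h' : f fs = g fs) : f = g := by
  apply FreeGroup.ext_hom
  intro i
  induction i using Fin.lastCases with
  | last => exact h'
  | cast i => exact h i

theorem theta_phi (w : FreeGroup (Fin 14)) : theta (phi w) = Xi (pi14 w) := by
  have h : theta.comp phi = Xi.comp pi14 := by
    apply hom14_ext
    · intro i
      simp only [MonoidHom.comp_apply]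
      rw [phi_fg, pi14_fg, theta_pg]
      unfold Xi
      rw [thMap_B]
    · simp only [MonoidHom.comp_apply]
      rw [phi_fs, pi14_fs, theta_sig]
      unfold Xi
      rw [thMap_T]
  exact DFunLike.congr_fun h w

/-- the presented group -/
abbrev EE : Type := PresentedGroup {r | r ∈ RL}

/-- the projection -/
def qE : FreeGroup (Fin 14) →* EE := PresentedGroup.mk _

theorem qE_RL {r : FreeGroup (Fin 14)} (h : r ∈ RL) : qE r = 1 := PresentedGroup.one_of_mem h

theorem qE_rels : Rels (fun i => qE (fg i)) := by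
  rw [← relL_one]
  have h : (fun i => qE (fg i)) = qE ∘ fg := rfl
  rw [h, ← map_relL]
  intro r hr
  obtain ⟨r', hr', rfl⟩ := List.mem_map.mp hr
  exact qE_RL (List.mem_append_left _ hr')

theorem qE_comm (i : Fin 13) (h : cmr i ∈ RL) : Commute (qE (fg i)) (qE fs) := by
  have h1 := qE_RL h
  unfold cmr at h1
  rw [map_mul, map_mul, map_mul, map_inv, map_inv] at h1
  have h2 := mul_inv_eq_one.mp h1
  have h3 := mul_inv_eq_iff_eq_mul.mp h2
  exact h3.symm

/-- the map back -/
def backE : TH N2 →* EE :=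
  thLift N2 (K2lift (fun i => qE (fg i)) qE_rels) (qE fs) (by
    intro z hz
    unfold N2 at hz
    induction hz using Subgroup.closure_induction with
    | mem x hx =>
      simp only [Set.mem_insert_iff, Set.mem_singleton_iff] at hx
      rcases hx with rfl | rfl | rfl
      · rw [K2lift_kg]
        exact qE_comm 0 (by simp [RL])
      · rw [K2lift_kg]
        exact qE_comm 1 (by simp [RL])
      · rw [K2lift_kg]
        exact qE_comm 2 (by simp [RL])
    | one => rw [map_one]; exact Commute.one_left _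
    | mul x y _ _ hx hy => rw [map_mul]; exact hx.mul_left hy
    | inv x _ hx => rw [map_inv]; exact hx.inv_left)

theorem backE_pi14 (w : FreeGroup (Fin 14)) : backE (pi14 w) = qE w := by
  have h : backE.comp pi14 = qE := by
    apply hom14_ext
    · intro i
      simp only [MonoidHom.comp_apply]
      rw [pi14_fg]
      unfold backE
      rw [thLift_B, K2lift_kg]
    · simp only [MonoidHom.comp_apply]
      rw [pi14_fs]
      unfold backE
      rw [thLift_T]
  exact DFunLike.congr_fun h w

/-- the presentation of the subgroup -/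
theorem phi_ker : phi.ker = Subgroup.normalClosure {r | r ∈ RL} := by
  apply le_antisymm
  · intro w hw
    rw [MonoidHom.mem_ker] at hw
    have h1 := theta_phi w
    rw [hw, map_one] at h1
    have h2 : pi14 w = 1 := Xi_inj (by rw [← h1, map_one])
    have h3 := backE_pi14 w
    rw [h2, map_one] at h3
    exact (QuotientGroup.eq_one_iff w).mp h3.symm
  · exact Subgroup.normalClosure_le_normal (fun r hr => (MonoidHom.mem_ker).mpr (phi_RL r hr))

end Pool.Agent.W387
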